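import Pool.Agent.Lib.MP_a54f13_nt.B6.Spec

/-!
# Module Ap: general weights
-/

set_option autoImplicit false

namespace Pool.Agent.A54.B6

open MeasureTheory Filter Topology Set
open scoped ContDiff ComplexConjugate UpperHalfPlane MatrixGroups

noncomputable section

namespace ApM

lemma pow_sub_le {r y : ℝ} (hy : 0 ≤ y) (hyr : y ≤ r) (n : ℕ) :
    r ^ (n + 1) - y ^ (n + 1) ≤ ((n : ℝ) + 1) * r ^ n * (r - y) := by
  have hr : 0 ≤ r := hy.trans hyr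
  induction n with
  | zero => simp
  | succ n ih =>
    have h1 : r ^ (n + 1 + 1) - y ^ (n + 1 + 1) = r * (r ^ (n + 1) - y ^ (n + 1)) + y ^ (n + 1) * (r - y) := by
      ring
    have h2 : y ^ (n + 1) ≤ r ^ (n + 1) := pow_le_pow_left₀ hy hyr _
    have h3 : y ^ (n + 1) * (r - y) ≤ r ^ (n + 1) * (r - y) :=
      mul_le_mul_of_nonneg_right h2 (by linarith)
    have h4 : r * (r ^ (n + 1) - y ^ (n + 1)) ≤ r * (((n : ℝ) + 1) * r ^ n * (r - y)) :=
      mul_le_mul_of_nonneg_left ih hr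
    rw [h1]
    push_cast
    have h5 : ((n : ℝ) + 1 + 1) * r ^ (n + 1) * (r - y) =
        r * (((n : ℝ) + 1) * r ^ n * (r - y)) + r ^ (n + 1) * (r - y) := by ring
    rw [h5]
    linarith

lemma int3 {a b c : ℂ → ℝ} (ha : Integrable a) (hb : Integrable b) (hc : Integrable c) :
    ∫ z, (a z + b z + c z) = (∫ z, a z) + (∫ z, b z) + ∫ z, c z := by
  have h := integral_add (f := fun z => a z + b z) (g := c) (ha.add hb) hc
  rw [h, integral_add ha hb]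

/-- the eighth root -/
def zz (φ : ℂ → ℝ) (s : ℝ) (z : ℂ) : ℝ := (φ z + s ^ 8) ^ (1 / 8 : ℝ) - s

variable {φ : ℂ → ℝ} {s : ℝ} {z : ℂ}

lemma root_pow {x : ℝ} (hx : 0 ≤ x) : (x ^ (1 / 8 : ℝ)) ^ 8 = x := by
  rw [← Real.rpow_natCast, ← Real.rpow_mul hx]
  norm_num

lemma pow_root {x : ℝ} (hx : 0 ≤ x) : (x ^ 8) ^ (1 / 8 : ℝ) = x := by
  rw [← Real.rpow_natCast, ← Real.rpow_mul hx]
  norm_num

lemma zz_zero (hs : 0 < s) (h : φ z = 0) : zz φ s z = 0 := by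
  rw [zz, h, zero_add, pow_root hs.le, sub_self]

lemma zz_nonneg (h0 : ∀ z, 0 ≤ φ z) (hs : 0 < s) (z : ℂ) : 0 ≤ zz φ s z := by
  rw [zz, sub_nonneg]
  calc s = (s ^ 8) ^ (1 / 8 : ℝ) := (pow_root hs.le).symm
    _ ≤ _ := Real.rpow_le_rpow (by positivity) (by linarith [h0 z]) (by norm_num)

lemma zz_pow_le (h0 : ∀ z, 0 ≤ φ z) (hs : 0 < s) (z : ℂ) : zz φ s z ^ 8 ≤ φ z := by
  have h1 := pow_add_pow_le (zz_nonneg h0 hs z) hs.le (n := 8) (by norm_num)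
  have h2 : (zz φ s z + s) ^ 8 = φ z + s ^ 8 := by
    have h3 : zz φ s z + s = (φ z + s ^ 8) ^ (1 / 8 : ℝ) := by rw [zz]; ring
    rw [h3, root_pow (by have := h0 z; positivity)]
  linarith

lemma le_zz_pow {Φ : ℝ} (h0 : ∀ z, 0 ≤ φ z) (hΦ0 : 0 ≤ Φ) (hΦ : φ z ≤ Φ) (hs : 0 < s) (hs1 : s ≤ 1) :
    φ z - zz φ s z ^ 8 ≤ 8 * (Φ + 1) ^ 7 * s := by
  set r := (φ z + s ^ 8) ^ (1 / 8 : ℝ) with hr
  have hz : zz φ s z = r - s := rfl
  have hr8 : r ^ 8 = φ z + s ^ 8 := root_pow (by have := h0 z; positivity)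
  have h1 : 0 ≤ r - s := zz_nonneg h0 hs z
  have hr0 : 0 ≤ r := by linarith
  have h2 := pow_sub_le h1 (by linarith : r - s ≤ r) 7
  have h3 : r ≤ Φ + 1 := by
    by_contra hc
    push Not at hc
    have h4 : (Φ + 1) ^ 8 ≤ r ^ 8 := pow_le_pow_left₀ (by linarith) hc.le 8
    have h5 : s ^ 8 ≤ 1 := pow_le_one₀ hs.le hs1
    have h6 : (Φ + 1) ^ 8 = (Φ + 1) * (Φ + 1) ^ 7 := by ring
    have h7 : 1 ≤ (Φ + 1) ^ 7 := one_le_pow₀ (by linarith)
    have h8 : (Φ + 1) * 1 ≤ (Φ + 1) * (Φ + 1) ^ 7 := mul_le_mul_of_nonneg_left h7 (by linarith)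
    have h9 : r ^ 8 ≤ r ^ 8 := le_rfl
    have h10 : 1 ≤ r := by linarith
    have h11 : r * 1 ≤ r * r ^ 7 := mul_le_mul_of_nonneg_left (one_le_pow₀ h10) (by linarith)
    have h12 : r * r ^ 7 = r ^ 8 := by ring
    linarith
  have h4 : r ^ 7 ≤ (Φ + 1) ^ 7 := pow_le_pow_left₀ hr0 h3 7
  have h5 : 0 ≤ s ^ 8 := by positivity
  rw [hz]
  have e : r - (r - s) = s := by ring
  rw [e] at h2
  have h6 : r ^ (7 + 1) - (r - s) ^ (7 + 1) = r ^ 8 - (r - s) ^ 8 := by norm_num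
  rw [h6, hr8] at h2
  norm_num at h2
  have h7 : 8 * r ^ 7 * s ≤ 8 * (Φ + 1) ^ 7 * s :=
    mul_le_mul_of_nonneg_right (by linarith) hs.le
  linarith

lemma zz_test {V : Set ℂ} (hφ : TestR V φ) (h0 : ∀ z, 0 ≤ φ z) (hs : 0 < s) : TestR V (zz φ s) := by
  have hsupp : ∀ z, z ∉ tsupport φ → zz φ s z = 0 := fun z hz =>
    zz_zero hs (image_eq_zero_of_notMem_tsupport hz)
  have hts : tsupport (zz φ s) ⊆ tsupport φ := by
    apply closure_minimal _ (isClosed_tsupport φ)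
    intro z hz
    by_contra hc
    exact hz (hsupp z hc)
  refine ⟨?_, hφ.cpt.isCompact.of_isClosed_subset (isClosed_tsupport _) hts, hts.trans hφ.sub⟩
  have h1 : ContDiff ℝ ∞ fun z => φ z + s ^ 8 := hφ.smooth.add contDiff_const
  have h2 : ∀ z, φ z + s ^ 8 ≠ 0 := fun z => by
    have := h0 z
    positivity
  exact (h1.rpow_const_of_ne h2).sub contDiff_const

end ApM

open ApM in
theorem stmtAp (hL : StmtLo) : StmtAp := by
  intro V q h f hS h2 φ hφ h0 M ε hε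
  obtain ⟨Φ, hΦ0, hΦ⟩ := Rel.test_bdd hφ
  obtain ⟨χ, hχ, hχ01, hχ1⟩ := exists_cutoff hφ.cpt.isCompact hS.pot.isOpen hφ.sub
  obtain ⟨B0, hB0⟩ := h2 χ hχ
  set B := max B0 0 with hB
  have hB00 : 0 ≤ B := le_max_right _ _
  have hBi : ∀ i, ∫ z, χ z ^ 2 * f i z ^ 2 ≤ B := fun i => (hB0 i).trans (le_max_left _ _)
  set M' := max M 0 with hM'
  have hM0 : 0 ≤ M' := le_max_right _ _
  set D := Φ * B + M' with hD
  have hD0 : 0 ≤ D := by positivity
  set η := ε / (10 * (D + 1) * (M' + 1)) with hη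
  have hη0 : 0 < η := by positivity
  set C := 8 * (Φ + 1) ^ 7 with hC
  have hC0 : 0 ≤ C := by positivity
  set s := min 1 (ε * η / (10 * (D + 1) * (C * B + 1))) with hs
  have hs0 : 0 < s := lt_min one_pos (by positivity)
  have hs1 : s ≤ 1 := min_le_left _ _
  have hs2 : s ≤ ε * η / (10 * (D + 1) * (C * B + 1)) := min_le_right _ _
  have hζ : TestR V (zz φ s) := zz_test hφ h0 hs0
  have hζ0 := zz_nonneg h0 hs0 (φ := φ)
  have hζφ := zz_pow_le h0 hs0 (φ := φ)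
  have hφχ : ∀ z, φ z - zz φ s z ^ 8 ≤ C * s * χ z ^ 2 := by
    intro z
    by_cases hz : z ∈ tsupport φ
    · have h1 : χ z = 1 := hχ1.self_of_nhdsSet z hz
      rw [h1, one_pow, mul_one]
      exact le_zz_pow h0 hΦ0 ((le_abs_self _).trans (hΦ z)) hs0 hs1
    · have h1 : φ z = 0 := image_eq_zero_of_notMem_tsupport hz
      rw [h1, zz_zero hs0 h1]
      have := sq_nonneg (χ z)
      have h3 : 0 ≤ C * s * χ z ^ 2 := by positivity
      norm_num
      exact h3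
  have hφχ2 : ∀ z, φ z ≤ Φ * χ z ^ 2 := by
    intro z
    by_cases hz : z ∈ tsupport φ
    · have h1 : χ z = 1 := hχ1.self_of_nhdsSet z hz
      rw [h1, one_pow, mul_one]
      exact (le_abs_self _).trans (hΦ z)
    · rw [image_eq_zero_of_notMem_tsupport hz]
      positivity
  have hlo := hL V q h f hS h2 (zz φ s) hζ hζ0 M' (ε / 2) (by positivity)
  filter_upwards [hlo] with i hi hle
  have hfc : Continuous (f i) := (hS.sol i).smooth.continuous
  have hζc : Continuous (zz φ s) := hζ.smooth.continuous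
  have hχc : Continuous χ := hχ.smooth.continuous
  have hφc : Continuous φ := hφ.smooth.continuous
  have iφ : ∀ k : ℕ, Integrable fun z => φ z * f i z ^ k := fun k =>
    Rel.integrable_testR hφ (hfc.pow k)
  have hζ8 : TestR V fun z => zz φ s z ^ 8 := by
    have h1 := hζ.mul_right (hζ.smooth.pow 7)
    have h2 : (fun z => zz φ s z ^ 8) = fun z => zz φ s z * zz φ s z ^ 7 := by
      funext z; ring
    rw [h2]
    exact h1
  have iζ : ∀ k : ℕ, Integrable fun z => zz φ s z ^ 8 * f i z ^ k := fun k =>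
    Rel.integrable_testR hζ8 (hfc.pow k)
  have hχ2 : TestR V fun z => χ z ^ 2 := by
    have h1 := hχ.mul_right hχ.smooth
    have h2 : (fun z => χ z ^ 2) = fun z => χ z * χ z := by
      funext z; ring
    rw [h2]
    exact h1
  have iχ : Integrable fun z => χ z ^ 2 * f i z ^ 2 := Rel.integrable_testR hχ2 (hfc.pow 2)
  -- the moments
  obtain ⟨m2, hm2⟩ : ∃ m, m = ∫ z, φ z * f i z ^ 2 := ⟨_, rfl⟩
  obtain ⟨m4, hm4⟩ : ∃ m, m = ∫ z, φ z * f i z ^ 4 := ⟨_, rfl⟩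
  obtain ⟨m6, hm6⟩ : ∃ m, m = ∫ z, φ z * f i z ^ 6 := ⟨_, rfl⟩
  obtain ⟨n2, hn2⟩ : ∃ m, m = ∫ z, zz φ s z ^ 8 * f i z ^ 2 := ⟨_, rfl⟩
  obtain ⟨n4, hn4⟩ : ∃ m, m = ∫ z, zz φ s z ^ 8 * f i z ^ 4 := ⟨_, rfl⟩
  obtain ⟨n6, hn6⟩ : ∃ m, m = ∫ z, zz φ s z ^ 8 * f i z ^ 6 := ⟨_, rfl⟩
  obtain ⟨b, hb⟩ : ∃ m, m = ∫ z, χ z ^ 2 * f i z ^ 2 := ⟨_, rfl⟩
  rw [← hm4, ← hm2, ← hm6]
  rw [← hm6] at hle
  rw [← hn2, ← hn4, ← hn6] at hi
  have hbB : b ≤ B := by rw [hb]; exact hBi i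
  have pos : ∀ k : ℕ, Even k → ∀ z, 0 ≤ f i z ^ k := fun k hk z => hk.pow_nonneg _
  have l2 : n2 ≤ m2 := by
    rw [hn2, hm2]
    exact integral_mono (iζ 2) (iφ 2) fun z =>
      mul_le_mul_of_nonneg_right (hζφ z) (sq_nonneg _)
  have l6 : n6 ≤ m6 := by
    rw [hn6, hm6]
    exact integral_mono (iζ 6) (iφ 6) fun z =>
      mul_le_mul_of_nonneg_right (hζφ z) (pos 6 (by decide) z)
  have l4 : n4 ≤ m4 := by
    rw [hn4, hm4]
    exact integral_mono (iζ 4) (iφ 4) fun z =>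
      mul_le_mul_of_nonneg_right (hζφ z) (pos 4 (by decide) z)
  have p2 : 0 ≤ n2 := by
    rw [hn2]
    exact integral_nonneg fun z => mul_nonneg (pow_nonneg (hζ0 z) 8) (sq_nonneg _)
  have p4 : 0 ≤ n4 := by
    rw [hn4]
    exact integral_nonneg fun z => mul_nonneg (pow_nonneg (hζ0 z) 8) (pos 4 (by decide) z)
  have p6 : 0 ≤ n6 := by
    rw [hn6]
    exact integral_nonneg fun z => mul_nonneg (pow_nonneg (hζ0 z) 8) (pos 6 (by decide) z)
  have hM6 : m6 ≤ M' := hle.trans (le_max_left _ _)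
  have hm2B : m2 ≤ Φ * B := by
    have h1 : m2 ≤ Φ * b := by
      rw [hm2, hb, ← integral_const_mul]
      refine integral_mono (iφ 2) (iχ.const_mul Φ) fun z => ?_
      show φ z * f i z ^ 2 ≤ Φ * (χ z ^ 2 * f i z ^ 2)
      rw [← mul_assoc]
      exact mul_le_mul_of_nonneg_right (hφχ2 z) (sq_nonneg _)
    exact h1.trans (mul_le_mul_of_nonneg_left hbB hΦ0)
  have hm4D : m4 ≤ D := by
    have h1 : m4 ≤ m2 + m6 := by
      rw [hm4, hm2, hm6, ← integral_add (iφ 2) (iφ 6)]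
      refine integral_mono (iφ 4) ((iφ 2).add (iφ 6)) fun z => ?_
      show φ z * f i z ^ 4 ≤ φ z * f i z ^ 2 + φ z * f i z ^ 6
      rw [← mul_add]
      apply mul_le_mul_of_nonneg_left _ (h0 z)
      have h3 : 0 ≤ f i z ^ 2 * (1 - f i z ^ 2) ^ 2 := by positivity
      have h4 : 0 ≤ f i z ^ 4 := by positivity
      nlinarith
    rw [hD]
    linarith
  have hdiff : m4 ≤ n4 + η * m6 + η⁻¹ * (C * s) * b := by
    have e1 : n4 + η * m6 + η⁻¹ * (C * s) * b = ∫ z, (zz φ s z ^ 8 * f i z ^ 4 + η * (φ z * f i z ^ 6) +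
        η⁻¹ * (C * s) * (χ z ^ 2 * f i z ^ 2)) := by
      rw [int3 (iζ 4) ((iφ 6).const_mul η) (iχ.const_mul (η⁻¹ * (C * s))), integral_const_mul,
        integral_const_mul, hn4, hm6, hb]
    rw [e1, hm4]
    refine integral_mono (iφ 4) (((iζ 4).add ((iφ 6).const_mul η)).add (iχ.const_mul (η⁻¹ * (C * s)))) fun z => ?_
    show φ z * f i z ^ 4 ≤ zz φ s z ^ 8 * f i z ^ 4 + η * (φ z * f i z ^ 6) +
        η⁻¹ * (C * s) * (χ z ^ 2 * f i z ^ 2)
    have k1 : 0 ≤ φ z - zz φ s z ^ 8 := by linarith [hζφ z]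
    have k2 : f i z ^ 4 ≤ η * f i z ^ 6 + η⁻¹ * f i z ^ 2 := by
      have k3 : 0 ≤ η⁻¹ * (f i z ^ 2 * (η * f i z ^ 2 - 1) ^ 2) := by positivity
      have k4 : η⁻¹ * (f i z ^ 2 * (η * f i z ^ 2 - 1) ^ 2) =
          η * f i z ^ 6 + η⁻¹ * f i z ^ 2 - 2 * f i z ^ 4 := by
        field_simp
        ring
      have k5 : 0 ≤ f i z ^ 4 := by positivity
      linarith
    have k3 : (φ z - zz φ s z ^ 8) * f i z ^ 4 ≤ (φ z - zz φ s z ^ 8) * (η * f i z ^ 6 + η⁻¹ * f i z ^ 2) :=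
      mul_le_mul_of_nonneg_left k2 k1
    have k4 : (φ z - zz φ s z ^ 8) * (η * f i z ^ 6) ≤ φ z * (η * f i z ^ 6) := by
      apply mul_le_mul_of_nonneg_right _ (by positivity)
      have := pow_nonneg (hζ0 z) 8
      linarith
    have k5 : (φ z - zz φ s z ^ 8) * (η⁻¹ * f i z ^ 2) ≤ C * s * χ z ^ 2 * (η⁻¹ * f i z ^ 2) :=
      mul_le_mul_of_nonneg_right (hφχ z) (by positivity)
    nlinarith
  -- the error
  obtain ⟨e, he⟩ : ∃ e, e = η * m6 + η⁻¹ * (C * s) * b := ⟨_, rfl⟩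
  have hde : m4 ≤ n4 + e := by rw [he]; linarith
  have heD : 20 / 9 * D * e ≤ ε / 2 := by
    have h1 : η * m6 ≤ η * M' := mul_le_mul_of_nonneg_left hM6 hη0.le
    have h3 : η⁻¹ * (C * s) * b ≤ η⁻¹ * (C * s) * B :=
      mul_le_mul_of_nonneg_left hbB (by positivity)
    have h4 : 20 / 9 * D * (η * M') ≤ ε * (20 / 90) := by
      have h5 : η * (10 * (D + 1) * (M' + 1)) = ε := by
        rw [hη]
        field_simp
      have h6 : D * M' ≤ (D + 1) * (M' + 1) := by nlinarith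
      have h7 : η * (D * M') ≤ η * ((D + 1) * (M' + 1)) := mul_le_mul_of_nonneg_left h6 hη0.le
      nlinarith
    have h8 : 20 / 9 * D * (η⁻¹ * (C * s) * B) ≤ ε * (20 / 90) := by
      have h9 : s * (10 * (D + 1) * (C * B + 1)) ≤ ε * η := by
        rwa [le_div_iff₀ (by positivity)] at hs2
      have h10 : D * (C * B) ≤ (D + 1) * (C * B + 1) := by
        have : 0 ≤ C * B := by positivity
        nlinarith
      have h11 : s * (D * (C * B)) ≤ s * ((D + 1) * (C * B + 1)) := mul_le_mul_of_nonneg_left h10 hs0.le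
      have h12 : 20 / 9 * (s * (D * (C * B))) ≤ 20 / 90 * (ε * η) := by nlinarith
      have h13 : 20 / 9 * D * (η⁻¹ * (C * s) * B) = η⁻¹ * (20 / 9 * (s * (D * (C * B)))) := by ring
      rw [h13]
      calc η⁻¹ * (20 / 9 * (s * (D * (C * B)))) ≤ η⁻¹ * (20 / 90 * (ε * η)) :=
            mul_le_mul_of_nonneg_left h12 (by positivity)
        _ = ε * (20 / 90) := by
            field_simp
    have h14 : 20 / 9 * D * e ≤ 20 / 9 * D * (η * M' + η⁻¹ * (C * s) * B) := by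
      apply mul_le_mul_of_nonneg_left _ (by positivity)
      rw [he]
      linarith
    nlinarith
  have hlo2 := hi (l6.trans hM6)
  have h15 : m4 ^ 2 ≤ n4 ^ 2 + 2 * D * e := by
    have he0 : m4 - n4 ≤ e := by linarith
    have h16 : m4 ^ 2 - n4 ^ 2 = (m4 - n4) * (m4 + n4) := by ring
    have h17 : (m4 - n4) * (m4 + n4) ≤ (m4 - n4) * (2 * D) :=
      mul_le_mul_of_nonneg_left (by linarith) (by linarith)
    have h18 : (m4 - n4) * (2 * D) ≤ e * (2 * D) := mul_le_mul_of_nonneg_right he0 (by positivity)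
    linarith
  have h19 : n2 * n6 ≤ m2 * m6 := mul_le_mul l2 l6 p6 (p2.trans l2)
  nlinarith

end

end Pool.Agent.A54.B6
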