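import Pool.Agent.Lib.MP_a54f13_nt.B6.Spec
import Pool.Agent.Lib.MP_a54f13_nt.Calc

/-! Package `B6`: Bernstein's inequality (Bn). -/

set_option autoImplicit false

namespace Pool.Agent.A54.B6

open MeasureTheory Filter Topology Set
open scoped ContDiff ComplexConjugate UpperHalfPlane MatrixGroups

namespace BnM

/-- the first derivative of `u` -/
theorem it_one (a b h : ℝ) (f : ℂ → ℝ) (hf : ContDiff ℝ ∞ f) (z : ℂ) :
    it h (uu a b f) 1 z = ((a + 3 * b * f z ^ 2 : ℝ) : ℂ) * gg h f 1 z := by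
  have hF : ContDiff ℝ ∞ (fun w => (f w : ℂ)) := Complex.ofRealCLM.contDiff.comp hf
  have hF2 : ContDiff ℝ ∞ (fun w => (f w : ℂ) * (f w : ℂ)) := hF.mul hF
  have hF3 : ContDiff ℝ ∞ (fun w => (f w : ℂ) * ((f w : ℂ) * (f w : ℂ))) := hF.mul hF2
  have e : uu a b f = fun w => (a : ℂ) * (f w : ℂ) + (b : ℂ) * ((f w : ℂ) * ((f w : ℂ) * (f w : ℂ))) := by
    funext w
    unfold uu
    push_cast
    ring
  have e2 : dz (uu a b f) z = ((a : ℂ) + 3 * (b : ℂ) * (f z : ℂ) ^ 2) * dz (fun w => (f w : ℂ)) z := by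
    rw [e, dz_add (contDiff_const.mul hF) (contDiff_const.mul hF3), dz_const_mul _ hF,
      dz_const_mul _ hF3, dz_mul hF hF2, dz_mul hF hF]
    ring
  change (h : ℂ) * dz (uu a b f) z = _ * ((h : ℂ) * dz (fun w => (f w : ℂ)) z)
  rw [e2]
  push_cast
  ring

theorem AA_one (a b h : ℝ) (ζ q f : ℂ → ℝ) (hf : ContDiff ℝ ∞ f) :
    AA a b ζ q h f 1 = ∫ z, ζ z ^ 8 * ((a + 3 * b * f z ^ 2) ^ 2 * (‖gg h f 1 z‖ ^ 2 / q z)) := by
  unfold AA
  refine integral_congr_ae (ae_of_all _ fun z => ?_)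
  change ζ z ^ 8 * (‖it h (uu a b f) 1 z‖ ^ 2 / q z ^ 1) =
    ζ z ^ 8 * ((a + 3 * b * f z ^ 2) ^ 2 * (‖gg h f 1 z‖ ^ 2 / q z))
  rw [it_one a b h f hf z, norm_mul, mul_pow, Complex.norm_real, Real.norm_eq_abs, sq_abs, pow_one,
    mul_div_assoc]

theorem AA_zero (a b h : ℝ) (ζ q f : ℂ → ℝ) :
    AA a b ζ q h f 0 = ∫ z, ζ z ^ 8 * (a * f z + b * f z ^ 3) ^ 2 := by
  unfold AA
  refine integral_congr_ae (ae_of_all _ fun z => ?_)
  change ζ z ^ 8 * (‖uu a b f z‖ ^ 2 / q z ^ 0) = ζ z ^ 8 * (a * f z + b * f z ^ 3) ^ 2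
  unfold uu
  rw [Complex.norm_real, Real.norm_eq_abs, sq_abs, pow_zero, div_one]

theorem AA_nonneg (a b h : ℝ) (ζ q f : ℂ → ℝ) (hq : ∀ z, 0 < q z) (n : ℕ) :
    0 ≤ AA a b ζ q h f n := by
  refine integral_nonneg fun z => ?_
  have h1 : 0 ≤ ζ z ^ 8 := Even.pow_nonneg (by decide) _
  have h2 : 0 < q z ^ n := pow_pos (hq z) n
  change 0 ≤ ζ z ^ 8 * (‖it h (uu a b f) n z‖ ^ 2 / q z ^ n)
  positivity

end BnM

open BnM in
/-- Bernstein's inequality for cubic expressions -/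
theorem stmtBn (hG : StmtGr) (hI : StmtIb) (hL : StmtLc) : StmtBn := by
  intro V q h f ζ M hS a b η hη
  obtain ⟨D, hD0, hD⟩ := hG V q h f ζ M hS a b 10 (by norm_num)
  set r : ℝ := 9 + η / (2 * (D + 1)) with hr
  have hr9 : 9 < r := by
    have : 0 < η / (2 * (D + 1)) := by positivity
    linarith
  set s : ℝ := (9 + r) / 2 with hs
  have hs9 : 9 < s := by
    rw [hs]
    linarith
  have hsr : s < r := by
    rw [hs]
    linarith
  obtain ⟨K, hK0, hK⟩ := hG V q h f ζ M hS a b s hs9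
  obtain ⟨N, η', hη', hN⟩ := hL r s K (η / 2) (by linarith) hsr hK0 (by linarith)
  have h1 : ∀ᶠ i in atTop, ∀ n ∈ Finset.range N,
      AA a b ζ q (h i) (f i) (n + 1) ^ 2 ≤
        AA a b ζ q (h i) (f i) n * AA a b ζ q (h i) (f i) (n + 2) + η' :=
    (Filter.eventually_all_finset _).2 fun n _ => hI V q h f ζ M hS a b n η' hη'
  filter_upwards [h1, hK N, hD 0] with i hi1 hi2 hi3
  have hq : ∀ z, 0 < q z := hS.seq.pot.pos
  have hA := hN (fun n => AA a b ζ q (h i) (f i) n)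
    (fun n => AA_nonneg a b (h i) ζ q (f i) hq n)
    (fun n hn => hi1 n (Finset.mem_range.2 hn)) hi2
  have hA' : AA a b ζ q (h i) (f i) 1 ≤ r * AA a b ζ q (h i) (f i) 0 + η / 2 := hA
  rw [pow_zero, mul_one] at hi3
  have hA0 := AA_nonneg a b (h i) ζ q (f i) hq 0
  rw [← AA_one a b (h i) ζ q (f i) (hS.seq.sol i).smooth, ← AA_zero a b (h i) ζ q (f i)]
  have h2 : η / (2 * (D + 1)) * AA a b ζ q (h i) (f i) 0 ≤ η / 2 := by
    have h3 : AA a b ζ q (h i) (f i) 0 ≤ D + 1 := by linarith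
    have h4 : η / (2 * (D + 1)) * AA a b ζ q (h i) (f i) 0 ≤ η / (2 * (D + 1)) * (D + 1) :=
      mul_le_mul_of_nonneg_left h3 (by positivity)
    have h5 : η / (2 * (D + 1)) * (D + 1) = η / 2 := by
      field_simp
    linarith
  have h6 : r * AA a b ζ q (h i) (f i) 0 =
      9 * AA a b ζ q (h i) (f i) 0 + η / (2 * (D + 1)) * AA a b ζ q (h i) (f i) 0 := by
    rw [hr]
    ring
  linarith

end Pool.Agent.A54.B6
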