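import Pool.Agent.Lib.MP_a54f13_nt.B6.Spec

/-!
# `B6/Bw`: bounds for the local means along a sequence (helper97)
-/

set_option autoImplicit false

namespace Pool.Agent.A54.B6

open MeasureTheory Filter Topology Set
open scoped ContDiff ComplexConjugate UpperHalfPlane MatrixGroups

noncomputable section

namespace BwM

variable {V : Set ℂ} {q : ℂ → ℝ} {h : ℕ → ℝ} {f : ℕ → ℂ → ℝ}

/-- crude pointwise bound -/
lemma crude (hP : StmtPt) (hc : StmtWc) (hs : Seq V q h f) (hl : L2Bdd V f) {ρ : ℂ → ℝ} (hρ : TestR V ρ) :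
    ∃ D : ℝ, 0 ≤ D ∧ ∀ᶠ i in atTop, ∀ z ∈ tsupport ρ, f i z ^ 2 ≤ D * (h i ^ 2)⁻¹ := by
  obtain ⟨c, hc0, h1⟩ := hP V q hs.pot (tsupport ρ) hρ.cpt.isCompact hρ.sub
  obtain ⟨δ', hδ', hδ1, hδ2⟩ : ∃ δ' : ℝ, 0 < δ' ∧ δ' ≤ 1 / 12 ∧ c * δ' ≤ 1 := by
    refine ⟨min (1 / 12) (1 / (c + 1)), lt_min (by norm_num) (by positivity), min_le_left _ _, ?_⟩
    calc c * min (1 / 12) (1 / (c + 1)) ≤ c * (1 / (c + 1)) :=
          mul_le_mul_of_nonneg_left (min_le_right _ _) hc0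
      _ ≤ 1 := by
          rw [mul_one_div, div_le_one (by positivity)]
          linarith
  obtain ⟨B, hB, h2⟩ := h1 δ' hδ' hδ1 hδ2
  obtain ⟨ρ', h₀, hρ', hρ1, hh₀, h3⟩ := h2 0
  obtain ⟨D, hD⟩ := hl ρ' hρ'
  have hD0 : 0 ≤ D := le_trans (integral_nonneg fun z => by positivity) (hD 0)
  refine ⟨B * D, by positivity, ?_⟩
  have h4 : ∀ᶠ i in atTop, h i ≤ h₀ := (hs.lim.eventually (gt_mem_nhds hh₀)).mono fun i hi => hi.le
  filter_upwards [h4] with i hi z hz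
  have h5 := h3 (h i) (f i) (hs.sol i) hi z hz 0 le_rfl
  have h6 := ((hc δ' (h i) hδ' (hs.sol i).hpos ρ' (f i) hρ'.smooth.continuous hρ'.cpt
    (hs.sol i).smooth.continuous).2 z).2
  have h7 : ‖gg (h i) (f i) 0 z‖ ^ 2 = f i z ^ 2 := by
    rw [gg_zero, Complex.norm_real, Real.norm_eq_abs, sq_abs]
  rw [h7, pow_zero, pow_zero, mul_one, mul_one] at h5
  have hpos : 0 ≤ (h i ^ 2)⁻¹ := by positivity
  calc f i z ^ 2 ≤ B * WW ρ' δ' (h i) (f i) z := h5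
    _ ≤ B * ((h i ^ 2)⁻¹ * ∫ y, ρ' y ^ 2 * f i y ^ 2) := mul_le_mul_of_nonneg_left h6 hB
    _ ≤ B * ((h i ^ 2)⁻¹ * D) := mul_le_mul_of_nonneg_left (mul_le_mul_of_nonneg_left (hD i) hpos) hB
    _ = B * D * (h i ^ 2)⁻¹ := by ring

lemma tail (hP : StmtPt) (hc : StmtWc) (hs : Seq V q h f) (hl : L2Bdd V f) {ρ : ℂ → ℝ} (hρ : TestR V ρ) :
    Tendsto (fun i => h i ^ 8 * ∫ z, ρ z ^ 2 * f i z ^ 6) atTop (𝓝 0) := by
  obtain ⟨D, hD, h1⟩ := crude hP hc hs hl hρ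
  have hlim : Tendsto (fun i => D ^ 3 * (h i ^ 2) * ∫ z, ρ z ^ 2) atTop (𝓝 0) := by
    have h2 := ((hs.lim.pow 2).const_mul (D ^ 3)).mul_const (∫ z, ρ z ^ 2)
    simpa using h2
  refine squeeze_zero' (Eventually.of_forall fun i => ?_) ?_ hlim
  · have h3 : 0 ≤ ∫ z, ρ z ^ 2 * f i z ^ 6 := integral_nonneg fun z => by positivity
    have h4 := (hs.sol i).hpos
    positivity
  · filter_upwards [h1] with i hi
    have hh := (hs.sol i).hpos
    have h2 : ∫ z, ρ z ^ 2 * f i z ^ 6 ≤ ∫ z, ρ z ^ 2 * (D * (h i ^ 2)⁻¹) ^ 3 := by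
      refine integral_mono_of_nonneg (ae_of_all _ fun z => by positivity)
        (L4.integrable_test hρ continuous_const 1) (ae_of_all _ fun z => ?_)
      by_cases hz : z ∈ tsupport ρ
      · have h3 : (f i z ^ 2) ^ 3 ≤ (D * (h i ^ 2)⁻¹) ^ 3 := pow_le_pow_left₀ (by positivity) (hi z hz) 3
        have h4 : f i z ^ 6 ≤ (D * (h i ^ 2)⁻¹) ^ 3 := by
          calc f i z ^ 6 = (f i z ^ 2) ^ 3 := by ring
            _ ≤ _ := h3
        exact mul_le_mul_of_nonneg_left h4 (by positivity)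
      · have h3 : ρ z = 0 := image_eq_zero_of_notMem_tsupport hz
        simp [h3]
    rw [integral_mul_const] at h2
    calc h i ^ 8 * ∫ z, ρ z ^ 2 * f i z ^ 6
        ≤ h i ^ 8 * ((∫ z, ρ z ^ 2) * (D * (h i ^ 2)⁻¹) ^ 3) := mul_le_mul_of_nonneg_left h2 (by positivity)
      _ = D ^ 3 * (h i ^ 2) * ∫ z, ρ z ^ 2 := by
          field_simp

lemma elem (η h ζ : ℝ) (hη : 0 < η) (hh : 0 < h) (hζ : 0 ≤ ζ) :
    h * ζ ^ 7 ≤ η * ζ ^ 8 + (η⁻¹) ^ 7 * h ^ 8 := by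
  rcases le_total h (η * ζ) with h1 | h1
  · have h2 : h * ζ ^ 7 ≤ η * ζ * ζ ^ 7 := mul_le_mul_of_nonneg_right h1 (by positivity)
    have h3 : 0 ≤ (η⁻¹) ^ 7 * h ^ 8 := by positivity
    calc h * ζ ^ 7 ≤ η * ζ * ζ ^ 7 := h2
      _ = η * ζ ^ 8 := by ring
      _ ≤ _ := by linarith
  · have h2 : ζ ≤ η⁻¹ * h := by
      rw [inv_mul_eq_div, le_div_iff₀ hη]
      linarith
    have h3 : ζ ^ 7 ≤ (η⁻¹ * h) ^ 7 := pow_le_pow_left₀ hζ h2 7
    have h4 : 0 ≤ η * ζ ^ 8 := by positivity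
    calc h * ζ ^ 7 ≤ h * (η⁻¹ * h) ^ 7 := mul_le_mul_of_nonneg_left h3 hh.le
      _ = (η⁻¹) ^ 7 * h ^ 8 := by ring
      _ ≤ _ := by linarith

end BwM

open BwM in
theorem stmtBw (hP : StmtPt) (hc : StmtWc) (hY : StmtYg) : StmtBw := by
  intro V q h f ζ M hSB δ hδ
  have hs := hSB.seq
  have hζ := hSB.tz
  obtain ⟨CY, hCY, hY1⟩ := hY ζ hζ.smooth hζ.cpt hSB.z0 δ hδ
  have hz8 : 0 ≤ ∫ z, ζ z ^ 8 := integral_nonneg fun z => by positivity
  refine ⟨(∫ z, ζ z ^ 8) + CY * (|M| + 1), by positivity, fun ρ hρ hρ1 => ?_⟩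
  set C : ℝ := (∫ z, ζ z ^ 8) + CY * (|M| + 1) with hC
  have hC0 : 0 ≤ C := by positivity
  -- continuity of the means
  have hW : ∀ i, Continuous (WW ρ δ (h i) (f i)) ∧ ∀ z, 0 ≤ WW ρ δ (h i) (f i) z ∧
      WW ρ δ (h i) (f i) z ≤ (h i ^ 2)⁻¹ * ∫ y, ρ y ^ 2 * f i y ^ 2 := fun i =>
    hc δ (h i) hδ (hs.sol i).hpos ρ (f i) hρ.smooth.continuous hρ.cpt (hs.sol i).smooth.continuous
  have hWc : ∀ i, Continuous fun z => WW ρ δ (h i) (f i) z := fun i => (hW i).1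
  -- first part
  have key : ∀ᶠ i in atTop, ∫ z, ζ z ^ 8 * (1 + WW ρ δ (h i) (f i) z ^ 3) ≤ C := by
    have h1 := (tail hP hc hs hSB.l2 hρ).eventually (gt_mem_nhds one_pos)
    filter_upwards [h1] with i hi
    have h2 := hY1 ρ hρ.smooth.continuous hρ.cpt hρ1 (h i) (hs.sol i).hpos (hs.sol i).hle (f i)
      (hs.sol i).smooth.continuous
    have h3 : (∫ z, ζ z ^ 8 * f i z ^ 6) + h i ^ 8 * ∫ z, ρ z ^ 2 * f i z ^ 6 ≤ |M| + 1 :=
      add_le_add ((hSB.bd i).trans (le_abs_self M)) hi.le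
    have h4 : ∫ z, ζ z ^ 8 * (1 + WW ρ δ (h i) (f i) z ^ 3) =
        (∫ z, ζ z ^ 8) + ∫ z, ζ z ^ 8 * WW ρ δ (h i) (f i) z ^ 3 := by
      rw [← integral_add]
      · refine integral_congr_ae (ae_of_all _ fun z => ?_)
        simp only
        ring
      · have h5 := L4.integrable_test hζ (F := fun _ => (1 : ℝ)) continuous_const 7
        refine h5.congr (ae_of_all _ fun z => ?_)
        simp
      · exact L4.integrable_test hζ (F := fun z => WW ρ δ (h i) (f i) z ^ 3) ((hWc i).pow 3) 7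
    rw [h4, hC]
    exact add_le_add le_rfl (h2.trans (mul_le_mul_of_nonneg_left h3 hCY))
  refine ⟨key, ?_⟩
  obtain ⟨D, hD⟩ := hSB.l2 ρ hρ
  have hD0 : 0 ≤ D := le_trans (integral_nonneg fun z => by positivity) (hD 0)
  obtain ⟨χ, hχ, hχ1, hχ2⟩ := exists_cutoff hζ.cpt.isCompact isOpen_univ (Set.subset_univ (tsupport ζ))
  have hχ3 : ∀ z ∈ tsupport ζ, χ z = 1 := fun z hz => hχ2.self_of_nhdsSet z hz
  have hX0 : 0 ≤ ∫ z, χ z := integral_nonneg fun z => (hχ1 z).1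
  -- second part
  have hnn : ∀ i, 0 ≤ h i * ∫ z, ζ z ^ 7 * (1 + WW ρ δ (h i) (f i) z ^ 3) := fun i => by
    have h1 := (hs.sol i).hpos
    have h2 : 0 ≤ ∫ z, ζ z ^ 7 * (1 + WW ρ δ (h i) (f i) z ^ 3) := integral_nonneg fun z => by
      have h3 := hSB.z0 z
      have h4 := ((hW i).2 z).1
      positivity
    positivity
  rw [Metric.tendsto_atTop']
  intro ε hε
  obtain ⟨η, hη, hη1⟩ : ∃ η : ℝ, 0 < η ∧ η * C < ε / 2 := by
    refine ⟨ε / (4 * (C + 1)), by positivity, ?_⟩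
    rw [div_mul_eq_mul_div, div_lt_div_iff₀ (by positivity) (by norm_num)]
    nlinarith
  have hlim : Tendsto (fun i => (η⁻¹) ^ 7 * (h i ^ 8 + D ^ 3 * h i ^ 2) * ∫ z, χ z) atTop (𝓝 0) := by
    have h2 := (((hs.lim.pow 8).add ((hs.lim.pow 2).const_mul (D ^ 3))).const_mul ((η⁻¹) ^ 7)).mul_const
      (∫ z, χ z)
    simpa using h2
  have hev : ∀ᶠ i in atTop, dist (h i * ∫ z, ζ z ^ 7 * (1 + WW ρ δ (h i) (f i) z ^ 3)) 0 < ε := by
    filter_upwards [key, hlim.eventually (gt_mem_nhds (half_pos hε))] with i hi hi2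
    rw [dist_zero_right, Real.norm_eq_abs, abs_of_nonneg (hnn i)]
    have hh := (hs.sol i).hpos
    have hWle : ∀ z, WW ρ δ (h i) (f i) z ≤ D * (h i ^ 2)⁻¹ := fun z => by
      calc WW ρ δ (h i) (f i) z ≤ (h i ^ 2)⁻¹ * ∫ y, ρ y ^ 2 * f i y ^ 2 := ((hW i).2 z).2
        _ ≤ (h i ^ 2)⁻¹ * D := mul_le_mul_of_nonneg_left (hD i) (by positivity)
        _ = _ := mul_comm _ _
    have hint1 : Integrable fun z => ζ z ^ 8 * (1 + WW ρ δ (h i) (f i) z ^ 3) :=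
      L4.integrable_test hζ (F := fun z => 1 + WW ρ δ (h i) (f i) z ^ 3)
        (continuous_const.add ((hWc i).pow 3)) 7
    have hle : ∫ z, h i * (ζ z ^ 7 * (1 + WW ρ δ (h i) (f i) z ^ 3)) ≤
        ∫ z, (η * (ζ z ^ 8 * (1 + WW ρ δ (h i) (f i) z ^ 3)) +
          (η⁻¹) ^ 7 * h i ^ 8 * (1 + (D * (h i ^ 2)⁻¹) ^ 3) * χ z) := by
      refine integral_mono_of_nonneg (ae_of_all _ fun z => ?_)
        ((hint1.const_mul η).add (hχ.integrable.const_mul _)) (ae_of_all _ fun z => ?_)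
      · have h3 := hSB.z0 z
        have h4 := ((hW i).2 z).1
        simp only [Pi.zero_apply]
        positivity
      · have h4 := ((hW i).2 z).1
        have h5 : WW ρ δ (h i) (f i) z ^ 3 ≤ (D * (h i ^ 2)⁻¹) ^ 3 := pow_le_pow_left₀ h4 (hWle z) 3
        by_cases hz : z ∈ tsupport ζ
        · have h6 := elem η (h i) (ζ z) hη hh (hSB.z0 z)
          have h7 : 0 ≤ (η⁻¹) ^ 7 * h i ^ 8 := by positivity
          simp only
          rw [hχ3 z hz, mul_one]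
          calc h i * (ζ z ^ 7 * (1 + WW ρ δ (h i) (f i) z ^ 3))
              = h i * ζ z ^ 7 * (1 + WW ρ δ (h i) (f i) z ^ 3) := by ring
            _ ≤ (η * ζ z ^ 8 + (η⁻¹) ^ 7 * h i ^ 8) * (1 + WW ρ δ (h i) (f i) z ^ 3) :=
                mul_le_mul_of_nonneg_right h6 (by positivity)
            _ = η * (ζ z ^ 8 * (1 + WW ρ δ (h i) (f i) z ^ 3)) +
                (η⁻¹) ^ 7 * h i ^ 8 * (1 + WW ρ δ (h i) (f i) z ^ 3) := by ring
            _ ≤ _ := add_le_add le_rfl (mul_le_mul_of_nonneg_left (add_le_add le_rfl h5) h7)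
        · have h6 : ζ z = 0 := image_eq_zero_of_notMem_tsupport hz
          have h7 := (hχ1 z).1
          simp only [h6]
          norm_num
          positivity
    rw [integral_const_mul, integral_add (hint1.const_mul η) (hχ.integrable.const_mul _),
      integral_const_mul, integral_const_mul] at hle
    have h8 : (η⁻¹) ^ 7 * h i ^ 8 * (1 + (D * (h i ^ 2)⁻¹) ^ 3) * ∫ z, χ z =
        (η⁻¹) ^ 7 * (h i ^ 8 + D ^ 3 * h i ^ 2) * ∫ z, χ z := by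
      congr 1
      field_simp
    rw [h8] at hle
    have h9 : η * ∫ z, ζ z ^ 8 * (1 + WW ρ δ (h i) (f i) z ^ 3) ≤ η * C :=
      mul_le_mul_of_nonneg_left hi hη.le
    linarith
  obtain ⟨N, hN⟩ := eventually_atTop.1 hev
  exact ⟨N, fun n hn => hN n hn.le⟩

end

end Pool.Agent.A54.B6
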