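import Pool.Agent.Lib.MP_a54f13_nt.B6.Spec

/-!
# Package B6, module Gr: growth bound
-/

set_option autoImplicit false

namespace Pool.Agent.A54.B6

open MeasureTheory Filter Topology Set
open scoped ContDiff ComplexConjugate

namespace GrM

theorem exists_delta (c s : ℝ) (hc : 0 ≤ c) (hs : 9 < s) :
    ∃ δ : ℝ, 0 < δ ∧ δ ≤ 1 / 12 ∧ c * δ ≤ 1 ∧ 9 * (1 + c * δ) ^ 3 ≤ s := by
  have hc1 : 0 < c + 1 := by linarith
  obtain ⟨τ, hτ⟩ : ∃ τ : ℝ, τ = min 1 ((s - 9) / 63) := ⟨_, rfl⟩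
  have hτ0 : 0 < τ := by
    rw [hτ]
    exact lt_min one_pos (by linarith)
  have hτ1 : τ ≤ 1 := by
    rw [hτ]
    exact min_le_left _ _
  have hτ2 : τ ≤ (s - 9) / 63 := by
    rw [hτ]
    exact min_le_right _ _
  refine ⟨min (1 / 12) (τ / (c + 1)), lt_min (by norm_num) (div_pos hτ0 hc1), min_le_left _ _, ?_⟩
  have h1 : c * min (1 / 12) (τ / (c + 1)) ≤ τ := by
    calc c * min (1 / 12) (τ / (c + 1)) ≤ c * (τ / (c + 1)) :=
          mul_le_mul_of_nonneg_left (min_le_right _ _) hc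
      _ ≤ (c + 1) * (τ / (c + 1)) := by
          apply mul_le_mul_of_nonneg_right (by linarith)
          exact (div_pos hτ0 hc1).le
      _ = τ := by
          field_simp
  have h0 : 0 ≤ c * min (1 / 12) (τ / (c + 1)) :=
    mul_nonneg hc (lt_min (by norm_num) (div_pos hτ0 hc1)).le
  refine ⟨h1.trans hτ1, ?_⟩
  generalize c * min (1 / 12) (τ / (c + 1)) = y at h1 h0
  have hy1 : y ≤ 1 := h1.trans hτ1
  have hy2 : y ^ 2 ≤ y := by nlinarith
  have hy3 : y ^ 3 ≤ y := by nlinarith [mul_nonneg h0 h0]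
  have h2 : (1 + y) ^ 3 ≤ 1 + 7 * y := by nlinarith
  have h3 : 63 * y ≤ s - 9 := by linarith
  linarith

theorem le_one_add_cube {W : ℝ} (hW : 0 ≤ W) : W ≤ 1 + W ^ 3 := by
  rcases le_total W 1 with h | h
  · have := pow_nonneg hW 3
    linarith
  · have h1 : W ^ 1 ≤ W ^ 3 := pow_le_pow_right₀ h (by norm_num)
    rw [pow_one] at h1
    linarith

/-- The pointwise estimate. -/
theorem point {a b B E Q W s v : ℝ} {N : ℕ} (y : ℝ) (hB : 0 ≤ B) (hy : 0 ≤ y) (hE : E = (1 + y) ^ N)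
    (hQ : 0 < Q) (hW : 0 ≤ W) (hs : 9 * (1 + y) ^ 3 ≤ s)
    (hv : v ≤ 2 * a ^ 2 * (B * E * Q ^ N * W) +
      2 * b ^ 2 * (9 ^ N * ((B * E) ^ 3 * Q ^ N * W ^ 3))) :
    v / Q ^ N ≤ (2 * a ^ 2 + 2 * b ^ 2) * (1 + B) ^ 3 * s ^ N * (1 + W ^ 3) := by
  have hQN : 0 < Q ^ N := pow_pos hQ N
  have hW3 : 0 ≤ W ^ 3 := pow_nonneg hW 3
  have hs0 : 0 ≤ s := le_trans (by positivity) hs
  have hsN : 0 ≤ s ^ N := pow_nonneg hs0 N
  have hE0 : 0 ≤ E := by
    rw [hE]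
    positivity
  have h1y : 1 + y ≤ s := by
    have h1 : (1 : ℝ) ≤ 1 + y := by linarith
    have h2 : (1 + y) ^ 1 ≤ (1 + y) ^ 3 := pow_le_pow_right₀ h1 (by norm_num)
    rw [pow_one] at h2
    have h3 : 0 ≤ (1 + y) ^ 3 := by positivity
    linarith
  have hEs : E ≤ s ^ N := by
    rw [hE]
    exact pow_le_pow_left₀ (by linarith) h1y N
  have hE3 : 9 ^ N * E ^ 3 ≤ s ^ N := by
    calc 9 ^ N * E ^ 3 = (9 * (1 + y) ^ 3) ^ N := by
          rw [hE, mul_pow, ← pow_mul, ← pow_mul, mul_comm N 3]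
      _ ≤ s ^ N := pow_le_pow_left₀ (by positivity) hs N
  have hBB : B ≤ (1 + B) ^ 3 := by
    have h1 : (1 : ℝ) ≤ 1 + B := by linarith
    have h2 : (1 + B) ^ 1 ≤ (1 + B) ^ 3 := pow_le_pow_right₀ h1 (by norm_num)
    rw [pow_one] at h2
    linarith
  have hB3 : B ^ 3 ≤ (1 + B) ^ 3 := pow_le_pow_left₀ hB (by linarith) 3
  have t1 : B * E * W ≤ (1 + B) ^ 3 * s ^ N * (1 + W ^ 3) := by
    apply mul_le_mul _ (le_one_add_cube hW) hW (by positivity)
    exact mul_le_mul hBB hEs hE0 (by positivity)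
  have t2 : 9 ^ N * ((B * E) ^ 3 * W ^ 3) ≤ (1 + B) ^ 3 * s ^ N * (1 + W ^ 3) := by
    calc 9 ^ N * ((B * E) ^ 3 * W ^ 3) = B ^ 3 * (9 ^ N * E ^ 3) * W ^ 3 := by ring
      _ ≤ (1 + B) ^ 3 * s ^ N * (1 + W ^ 3) := by
          apply mul_le_mul _ (by linarith) hW3 (by positivity)
          exact mul_le_mul hB3 hE3 (by positivity) (by positivity)
  rw [div_le_iff₀ hQN]
  calc v ≤ 2 * a ^ 2 * (B * E * Q ^ N * W) +
        2 * b ^ 2 * (9 ^ N * ((B * E) ^ 3 * Q ^ N * W ^ 3)) := hv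
    _ = (2 * a ^ 2 * (B * E * W) + 2 * b ^ 2 * (9 ^ N * ((B * E) ^ 3 * W ^ 3))) * Q ^ N := by ring
    _ ≤ (2 * a ^ 2 * ((1 + B) ^ 3 * s ^ N * (1 + W ^ 3)) +
          2 * b ^ 2 * ((1 + B) ^ 3 * s ^ N * (1 + W ^ 3))) * Q ^ N := by
        apply mul_le_mul_of_nonneg_right _ hQN.le
        exact add_le_add (mul_le_mul_of_nonneg_left t1 (by positivity))
          (mul_le_mul_of_nonneg_left t2 (by positivity))
    _ = (2 * a ^ 2 + 2 * b ^ 2) * (1 + B) ^ 3 * s ^ N * (1 + W ^ 3) * Q ^ N := by ring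

end GrM

open GrM in
theorem stmtGr (hP : StmtPt) (hc : StmtWc) (hB : StmtBw) (hL : StmtLb) : StmtGr := by
  intro V q h f ζ M hS a b s hs
  obtain ⟨c, hc0, hPt⟩ := hP V q hS.seq.pot (tsupport ζ) hS.tz.cpt hS.tz.sub
  obtain ⟨δ, hδ0, hδ1, hδ2, hδ3⟩ := exists_delta c s hc0 hs
  obtain ⟨B, hB0, hPt⟩ := hPt δ hδ0 hδ1 hδ2
  obtain ⟨C, hC0, hC⟩ := hB V q h f ζ M hS δ hδ0
  refine ⟨(2 * a ^ 2 + 2 * b ^ 2) * (1 + B) ^ 3 * C, by positivity, fun N => ?_⟩
  obtain ⟨ρ, h₀, hρ, hρ1, hh₀, hpt⟩ := hPt N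
  filter_upwards [(hC ρ hρ hρ1).1, (tendsto_order.1 hS.seq.lim).2 h₀ hh₀] with i hi1 hi2
  have hsol := hS.seq.sol i
  obtain ⟨hWc, hW0⟩ := hc δ (h i) hδ0 hsol.hpos ρ (f i) hρ.smooth.continuous hρ.cpt
    hsol.smooth.continuous
  have hy : 0 ≤ c * δ := mul_nonneg hc0 hδ0.le
  have hs0 : 0 ≤ s := by linarith
  have hint : Integrable (fun z => ζ z ^ 8 * (1 + WW ρ δ (h i) (f i) z ^ 3)) := by
    apply Continuous.integrable_of_hasCompactSupport
    · exact (hS.tz.smooth.continuous.pow 8).mul (continuous_const.add (hWc.pow 3))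
    · have h1 : HasCompactSupport (fun z => ζ z ^ 8) :=
        hS.tz.cpt.comp_left (g := fun x : ℝ => x ^ 8) (by norm_num)
      exact h1.mul_right
  unfold AA
  calc ∫ z, ζ z ^ 8 * (‖it (h i) (uu a b (f i)) N z‖ ^ 2 / q z ^ N) ≤
        ∫ z, ((2 * a ^ 2 + 2 * b ^ 2) * (1 + B) ^ 3 * s ^ N) *
          (ζ z ^ 8 * (1 + WW ρ δ (h i) (f i) z ^ 3)) := by
        refine integral_mono_of_nonneg (ae_of_all _ fun z => ?_) (hint.const_mul _)
          (ae_of_all _ fun z => ?_)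
        · have h1 := hS.z0 z
          have h2 := hS.seq.pot.pos z
          show 0 ≤ ζ z ^ 8 * (‖it (h i) (uu a b (f i)) N z‖ ^ 2 / q z ^ N)
          positivity
        · show ζ z ^ 8 * (‖it (h i) (uu a b (f i)) N z‖ ^ 2 / q z ^ N) ≤
            ((2 * a ^ 2 + 2 * b ^ 2) * (1 + B) ^ 3 * s ^ N) *
              (ζ z ^ 8 * (1 + WW ρ δ (h i) (f i) z ^ 3))
          by_cases hz : z ∈ tsupport ζ
          · have hb : ∀ j ≤ N, ‖gg (h i) (f i) j z‖ ^ 2 ≤
                B * (1 + c * δ) ^ N * q z ^ j * WW ρ δ (h i) (f i) z := by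
              intro j hj
              refine (hpt (h i) (f i) hsol hi2.le z hz j hj).trans ?_
              have h1 : (1 + c * δ) ^ j ≤ (1 + c * δ) ^ N :=
                pow_le_pow_right₀ (by linarith) hj
              have h2 := hS.seq.pot.pos z
              have h3 := (hW0 z).1
              apply mul_le_mul_of_nonneg_right _ h3
              apply mul_le_mul_of_nonneg_right _ (by positivity)
              exact mul_le_mul_of_nonneg_left h1 hB0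
            have h4 := hL a b (h i) (B * (1 + c * δ) ^ N) (q z) (WW ρ δ (h i) (f i) z) (f i) N z
              hsol.smooth (by positivity) (hS.seq.pot.pos z).le (hW0 z).1 hb
            have h5 := point (c * δ) hB0 hy rfl (hS.seq.pot.pos z) (hW0 z).1 hδ3 h4
            have h6 : 0 ≤ ζ z ^ 8 := by
              have := hS.z0 z
              positivity
            calc ζ z ^ 8 * (‖it (h i) (uu a b (f i)) N z‖ ^ 2 / q z ^ N) ≤
                  ζ z ^ 8 * ((2 * a ^ 2 + 2 * b ^ 2) * (1 + B) ^ 3 * s ^ N *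
                    (1 + WW ρ δ (h i) (f i) z ^ 3)) := mul_le_mul_of_nonneg_left h5 h6
              _ = _ := by ring
          · rw [image_eq_zero_of_notMem_tsupport hz]
            simp
    _ = ((2 * a ^ 2 + 2 * b ^ 2) * (1 + B) ^ 3 * s ^ N) *
          ∫ z, ζ z ^ 8 * (1 + WW ρ δ (h i) (f i) z ^ 3) := integral_const_mul _ _
    _ ≤ ((2 * a ^ 2 + 2 * b ^ 2) * (1 + B) ^ 3 * s ^ N) * C :=
        mul_le_mul_of_nonneg_left hi1 (by positivity)
    _ = (2 * a ^ 2 + 2 * b ^ 2) * (1 + B) ^ 3 * C * s ^ N := by ring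

end Pool.Agent.A54.B6
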