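import Pool.Agent.Lib.MP_a54f13_nt.B6.Spec
import Pool.Agent.Lib.MP_a54f13_nt.Cacc

/-!
# B6/Ib: log-convexity
-/

set_option autoImplicit false

namespace Pool.Agent.A54.B6

open MeasureTheory Filter Topology Set
open scoped ContDiff ComplexConjugate

noncomputable section

namespace IbM

variable {V : Set ℂ}

lemma contDiff_it {u : ℂ → ℂ} (hu : ContDiff ℝ ∞ u) (h : ℝ) (n : ℕ) : ContDiff ℝ ∞ (it h u n) := by
  induction n with
  | zero => exact hu
  | succ n ih => exact contDiff_const.mul (contDiff_dz ih)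

lemma contDiff_uu {f : ℂ → ℝ} (hf : ContDiff ℝ ∞ f) (a b : ℝ) : ContDiff ℝ ∞ (uu a b f) :=
  contDiff_ofReal ((contDiff_const.mul hf).add (contDiff_const.mul (hf.pow 3)))

lemma norm_sq_c (w : ℂ) : ((‖w‖ ^ 2 : ℝ) : ℂ) = conj w * w := by
  rw [mul_comm, Complex.mul_conj, Complex.normSq_eq_norm_sq]

/-- integration by parts, `∂` -/
lemma ibp {ψ : ℂ → ℝ} (hψ : ContDiff ℝ ∞ ψ) (hc : HasCompactSupport ψ) {v : ℂ → ℂ} (hv : ContDiff ℝ ∞ v)
    (h : ℝ) :
    ((∫ z, ψ z * ‖(h : ℂ) * dz v z‖ ^ 2 : ℝ) : ℂ) =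
      ∫ z, -((h : ℂ) * dz (fun z => (ψ z : ℂ)) z * conj ((h : ℂ) * dz v z) * v z +
        (ψ z : ℂ) * conj ((h : ℂ) * dzb (fun z => (h : ℂ) * dz v z) z) * v z) := by
  have hψc : ContDiff ℝ ∞ (fun z => (ψ z : ℂ)) := contDiff_ofReal hψ
  have hcc : HasCompactSupport (fun z => (ψ z : ℂ)) := hc.comp_left (g := fun x : ℝ => (x : ℂ)) (by simp)
  have hg : ContDiff ℝ ∞ (fun z => (h : ℂ) * dz v z) := contDiff_const.mul (contDiff_dz hv)
  have ha : ContDiff ℝ ∞ (fun z => (ψ z : ℂ) * conj ((h : ℂ) * dz v z)) := hψc.mul (contDiff_conj hg)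
  have hac : HasCompactSupport (fun z => (ψ z : ℂ) * conj ((h : ℂ) * dz v z)) := hcc.mul_right
  rw [← integral_complex_ofReal]
  have e1 : ∀ z, ((ψ z * ‖(h : ℂ) * dz v z‖ ^ 2 : ℝ) : ℂ) =
      (h : ℂ) * ((ψ z : ℂ) * conj ((h : ℂ) * dz v z) * dz v z) := by
    intro z
    rw [Complex.ofReal_mul, norm_sq_c]
    ring
  have e2 : ∀ z, dz (fun z => (ψ z : ℂ) * conj ((h : ℂ) * dz v z)) z =
      dz (fun z => (ψ z : ℂ)) z * conj ((h : ℂ) * dz v z) +
        (ψ z : ℂ) * conj (dzb (fun z => (h : ℂ) * dz v z) z) := by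
    intro z
    rw [dz_mul hψc (contDiff_conj hg), dz_conj hg]
  simp_rw [e1]
  rw [integral_const_mul, integral_mul_dz ha hv (Or.inl hac), mul_neg, ← integral_const_mul, ← integral_neg]
  refine integral_congr_ae (Filter.Eventually.of_forall fun z => ?_)
  simp only [e2]
  simp only [map_mul, Complex.conj_ofReal]
  ring

/-- integration by parts, `∂̄` -/
lemma ibpb {ψ : ℂ → ℝ} (hψ : ContDiff ℝ ∞ ψ) (hc : HasCompactSupport ψ) {v : ℂ → ℂ} (hv : ContDiff ℝ ∞ v)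
    (h : ℝ) :
    ((∫ z, ψ z * ‖(h : ℂ) * dzb v z‖ ^ 2 : ℝ) : ℂ) =
      ∫ z, -((h : ℂ) * dzb (fun z => (ψ z : ℂ)) z * conj ((h : ℂ) * dzb v z) * v z +
        (ψ z : ℂ) * conj ((h : ℂ) * dz (fun z => (h : ℂ) * dzb v z) z) * v z) := by
  have hψc : ContDiff ℝ ∞ (fun z => (ψ z : ℂ)) := contDiff_ofReal hψ
  have hcc : HasCompactSupport (fun z => (ψ z : ℂ)) := hc.comp_left (g := fun x : ℝ => (x : ℂ)) (by simp)
  have hg : ContDiff ℝ ∞ (fun z => (h : ℂ) * dzb v z) := contDiff_const.mul (contDiff_dzb hv)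
  have ha : ContDiff ℝ ∞ (fun z => (ψ z : ℂ) * conj ((h : ℂ) * dzb v z)) := hψc.mul (contDiff_conj hg)
  have hac : HasCompactSupport (fun z => (ψ z : ℂ) * conj ((h : ℂ) * dzb v z)) := hcc.mul_right
  rw [← integral_complex_ofReal]
  have e1 : ∀ z, ((ψ z * ‖(h : ℂ) * dzb v z‖ ^ 2 : ℝ) : ℂ) =
      (h : ℂ) * ((ψ z : ℂ) * conj ((h : ℂ) * dzb v z) * dzb v z) := by
    intro z
    rw [Complex.ofReal_mul, norm_sq_c]
    ring
  have e2 : ∀ z, dzb (fun z => (ψ z : ℂ) * conj ((h : ℂ) * dzb v z)) z =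
      dzb (fun z => (ψ z : ℂ)) z * conj ((h : ℂ) * dzb v z) +
        (ψ z : ℂ) * conj (dz (fun z => (h : ℂ) * dzb v z) z) := by
    intro z
    rw [dzb_mul hψc (contDiff_conj hg), dzb_conj hg]
  simp_rw [e1]
  rw [integral_const_mul, integral_mul_dzb ha hv (Or.inl hac), mul_neg, ← integral_const_mul, ← integral_neg]
  refine integral_congr_ae (Filter.Eventually.of_forall fun z => ?_)
  simp only [e2]
  simp only [map_mul, Complex.conj_ofReal]
  ring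

lemma cpt7 {ζ : ℂ → ℝ} (hζc : HasCompactSupport ζ) : HasCompactSupport (fun z => ζ z ^ 7) :=
  hζc.comp_left (g := fun x : ℝ => x ^ 7) (by simp)

lemma int7 {ζ R : ℂ → ℝ} (hζ : Continuous ζ) (hζc : HasCompactSupport ζ) (hR : Continuous R) :
    Integrable (fun z => ζ z ^ 7 * R z) :=
  ((hζ.pow 7).mul hR).integrable_of_hasCompactSupport (cpt7 hζc).mul_right

/-- the bound (i) -/
lemma est1 {ζ ψ R : ℂ → ℝ} (hζ : Continuous ζ) (hζc : HasCompactSupport ζ) (hψ : Continuous ψ)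
    (hc : HasCompactSupport ψ) (hψ0 : ∀ z, 0 ≤ ψ z) (hR : Continuous R) {C h I : ℝ} (hh : 0 ≤ h) (hC : 0 ≤ C)
    (hz0 : ∀ z, 0 ≤ ζ z) {dψ g k v : ℂ → ℂ} (hk : Continuous k) (hv : Continuous v)
    (hd : ∀ z, ‖dψ z‖ ≤ C * ζ z ^ 7) (hRv : ∀ z, ‖g z‖ * ‖v z‖ ≤ R z)
    (e : (I : ℂ) = ∫ z, -((h : ℂ) * dψ z * conj (g z) * v z + (ψ z : ℂ) * conj (k z) * v z)) :
    I ≤ C * (h * ∫ z, ζ z ^ 7 * R z) + ∫ z, ψ z * (‖k z‖ * ‖v z‖) := by
  have i1 := int7 hζ hζc hR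
  have i2 : Integrable (fun z => ψ z * (‖k z‖ * ‖v z‖)) :=
    (hψ.mul (hk.norm.mul hv.norm)).integrable_of_hasCompactSupport hc.mul_right
  have i3 : Integrable (fun z => C * (h * (ζ z ^ 7 * R z))) := (i1.const_mul h).const_mul C
  have n1 : I ≤ ‖(I : ℂ)‖ := by
    rw [Complex.norm_real]
    exact le_abs_self _
  have e2 : C * (h * ∫ z, ζ z ^ 7 * R z) + ∫ z, ψ z * (‖k z‖ * ‖v z‖) =
      ∫ z, (C * (h * (ζ z ^ 7 * R z)) + ψ z * (‖k z‖ * ‖v z‖)) := by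
    rw [integral_add i3 i2, integral_const_mul, integral_const_mul]
  rw [e2]
  refine n1.trans ?_
  rw [e]
  refine norm_integral_le_of_norm_le (i3.add i2) (Filter.Eventually.of_forall fun z => ?_)
  rw [norm_neg]
  refine (norm_add_le _ _).trans (add_le_add ?_ ?_)
  · rw [norm_mul, norm_mul, norm_mul, RCLike.norm_conj, Complex.norm_real, Real.norm_of_nonneg hh]
    have a3 : 0 ≤ ‖g z‖ * ‖v z‖ := mul_nonneg (norm_nonneg _) (norm_nonneg _)
    have a4 : 0 ≤ C * ζ z ^ 7 := mul_nonneg hC (pow_nonneg (hz0 z) 7)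
    calc h * ‖dψ z‖ * ‖g z‖ * ‖v z‖
        = h * (‖dψ z‖ * (‖g z‖ * ‖v z‖)) := by ring
      _ ≤ h * (C * ζ z ^ 7 * R z) :=
        mul_le_mul_of_nonneg_left (mul_le_mul (hd z) (hRv z) a3 a4) hh
      _ = C * (h * (ζ z ^ 7 * R z)) := by ring
  · rw [norm_mul, norm_mul, RCLike.norm_conj, Complex.norm_real, Real.norm_of_nonneg (hψ0 z), mul_assoc]

/-- the bound (ii) -/
lemma est2 {ζ ψ P : ℂ → ℝ} (hζ : Continuous ζ) (hζc : HasCompactSupport ζ) (hψ : Continuous ψ)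
    (hc : HasCompactSupport ψ) (hP : Continuous P) {C h I J : ℝ} (hh : 0 ≤ h) (hC : 0 ≤ C)
    (hz0 : ∀ z, 0 ≤ ζ z) {dψ dψb g gb k v : ℂ → ℂ} (hk : Continuous k) (hv : Continuous v)
    (hg : Continuous g) (hgb : Continuous gb) (hdc : Continuous dψ) (hdbc : Continuous dψb)
    (hds : HasCompactSupport dψ) (hdbs : HasCompactSupport dψb)
    (hd : ∀ z, ‖dψ z‖ ≤ C * ζ z ^ 7) (hdb : ∀ z, ‖dψb z‖ ≤ C * ζ z ^ 7)
    (h1 : ∀ z, ‖g z‖ * ‖v z‖ ≤ P z) (h2 : ∀ z, ‖gb z‖ * ‖v z‖ ≤ P z)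
    (e1 : (I : ℂ) = ∫ z, -((h : ℂ) * dψ z * conj (g z) * v z + (ψ z : ℂ) * conj (k z) * v z))
    (e2 : (J : ℂ) = ∫ z, -((h : ℂ) * dψb z * conj (gb z) * v z + (ψ z : ℂ) * conj (k z) * v z)) :
    J ≤ I + 2 * C * (h * ∫ z, ζ z ^ 7 * P z) := by
  have i1 := int7 hζ hζc hP
  have i3 : Integrable (fun z => 2 * C * (h * (ζ z ^ 7 * P z))) := (i1.const_mul h).const_mul (2 * C)
  have hcc : HasCompactSupport (fun z => (ψ z : ℂ)) := hc.comp_left (g := fun x : ℝ => (x : ℂ)) (by simp)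
  have cψ : Continuous (fun z => (ψ z : ℂ)) := Complex.continuous_ofReal.comp hψ
  have cc : ∀ {u : ℂ → ℂ}, Continuous u → Continuous (fun z => conj (u z)) :=
    fun hu => Complex.continuous_conj.comp hu
  have k0 : Integrable (fun z => (ψ z : ℂ) * conj (k z) * v z) :=
    integrable_of_cpt ((cψ.mul (cc hk)).mul hv) hcc.mul_right.mul_right
  have k1 : Integrable (fun z => (h : ℂ) * dψ z * conj (g z) * v z) :=
    integrable_of_cpt (((continuous_const.mul hdc).mul (cc hg)).mul hv) (hds.mul_left.mul_right.mul_right)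
  have k2 : Integrable (fun z => (h : ℂ) * dψb z * conj (gb z) * v z) :=
    integrable_of_cpt (((continuous_const.mul hdbc).mul (cc hgb)).mul hv) (hdbs.mul_left.mul_right.mul_right)
  have e3 : ((J - I : ℝ) : ℂ) =
      ∫ z, ((h : ℂ) * dψ z * conj (g z) * v z - (h : ℂ) * dψb z * conj (gb z) * v z) := by
    rw [Complex.ofReal_sub, e1, e2, integral_neg, integral_neg, integral_add k1 k0, integral_add k2 k0,
      integral_sub k1 k2]
    ring
  have n1 : J - I ≤ ∫ z, 2 * C * (h * (ζ z ^ 7 * P z)) := by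
    refine (le_abs_self _).trans ?_
    rw [← Real.norm_eq_abs, ← Complex.norm_real, e3]
    refine norm_integral_le_of_norm_le i3 (Filter.Eventually.of_forall fun z => ?_)
    refine (norm_sub_le _ _).trans ?_
    have key : ∀ x y w : ℂ, ‖x‖ ≤ C * ζ z ^ 7 → ‖y‖ * ‖w‖ ≤ P z →
        ‖(h : ℂ) * x * conj y * w‖ ≤ C * (h * (ζ z ^ 7 * P z)) := by
      intro x y w hx hy
      rw [norm_mul, norm_mul, norm_mul, RCLike.norm_conj, Complex.norm_real, Real.norm_of_nonneg hh]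
      have a3 : 0 ≤ ‖y‖ * ‖w‖ := mul_nonneg (norm_nonneg _) (norm_nonneg _)
      have a4 : 0 ≤ C * ζ z ^ 7 := mul_nonneg hC (pow_nonneg (hz0 z) 7)
      calc h * ‖x‖ * ‖y‖ * ‖w‖ = h * (‖x‖ * (‖y‖ * ‖w‖)) := by ring
        _ ≤ h * (C * ζ z ^ 7 * P z) := mul_le_mul_of_nonneg_left (mul_le_mul hx hy a3 a4) hh
        _ = C * (h * (ζ z ^ 7 * P z)) := by ring
    have k1 := key _ _ (v z) (hd z) (h1 z)
    have k2 := key _ _ (v z) (hdb z) (h2 z)
    linarith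
  rw [integral_const_mul, integral_const_mul] at n1
  linarith

/-- the weight `ζ⁸ / q^m` -/
def ps (ζ q : ℂ → ℝ) (m : ℕ) (z : ℂ) : ℝ := ζ z ^ 8 * (q z ^ m)⁻¹

lemma ps_smooth {q ζ : ℂ → ℝ} (hq : Pot V q) (hζ : ContDiff ℝ ∞ ζ) (m : ℕ) : ContDiff ℝ ∞ (ps ζ q m) :=
  (hζ.pow 8).mul (Rel.contDiff_inv_pow hq m)

lemma ps_cpt {q ζ : ℂ → ℝ} (hζ : HasCompactSupport ζ) (m : ℕ) : HasCompactSupport (ps ζ q m) :=
  (hζ.comp_left (g := fun x : ℝ => x ^ 8) (by simp)).mul_right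

lemma ps_nonneg {q ζ : ℂ → ℝ} (hq : Pot V q) (m : ℕ) (z : ℂ) : 0 ≤ ps ζ q m z :=
  mul_nonneg (by positivity) (inv_nonneg.mpr (pow_pos (hq.pos z) m).le)

/-- the derivative of the weight -/
lemma ps_fderiv {q ζ : ℂ → ℝ} (hq : Pot V q) (hζ : TestR V ζ) (hz0 : ∀ z, 0 ≤ ζ z) (m : ℕ) :
    ∃ C : ℝ, 0 ≤ C ∧ ∀ z, ‖dz (fun z => (ps ζ q m z : ℂ)) z‖ ≤ C * ζ z ^ 7 ∧
      ‖dzb (fun z => (ps ζ q m z : ℂ)) z‖ ≤ C * ζ z ^ 7 := by
  have hr := Rel.contDiff_inv_pow hq m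
  have hB : Continuous (fun z => ζ z * ‖fderiv ℝ (fun z => (q z ^ m)⁻¹) z‖ +
      8 * (q z ^ m)⁻¹ * ‖fderiv ℝ ζ z‖) :=
    (hζ.smooth.continuous.mul (hr.continuous_fderiv (by simp)).norm).add
      ((continuous_const.mul hr.continuous).mul (hζ.smooth.continuous_fderiv (by simp)).norm)
  obtain ⟨C, hC⟩ := hζ.cpt.isCompact.exists_bound_of_continuousOn hB.continuousOn
  have key : ∀ z, ‖fderiv ℝ (ps ζ q m) z‖ ≤ max C 0 * ζ z ^ 7 := by
    intro z
    by_cases hz : z ∈ tsupport ζ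
    · have d1 : DifferentiableAt ℝ ζ z := (hζ.smooth.differentiable (by simp)).differentiableAt
      have d2 : DifferentiableAt ℝ (fun z => (q z ^ m)⁻¹) z := (hr.differentiable (by simp)).differentiableAt
      have e : fderiv ℝ (ps ζ q m) z = (ζ z ^ 8) • fderiv ℝ (fun z => (q z ^ m)⁻¹) z +
          ((q z ^ m)⁻¹) • ((8 * ζ z ^ 7) • fderiv ℝ ζ z) := by
        have h1 : HasFDerivAt (fun z => ζ z ^ 8) ((8 * ζ z ^ 7) • fderiv ℝ ζ z) z := by
          have := d1.hasFDerivAt.pow 8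
          simpa using this
        exact (h1.mul d2.hasFDerivAt).fderiv
      rw [e]
      have h7 : 0 ≤ ζ z ^ 7 := pow_nonneg (hz0 z) 7
      have hqi : 0 ≤ (q z ^ m)⁻¹ := inv_nonneg.mpr (pow_pos (hq.pos z) m).le
      have hb := hC z hz
      rw [Real.norm_eq_abs] at hb
      have hb2 := (le_abs_self _).trans hb
      calc _ ≤ ‖(ζ z ^ 8) • fderiv ℝ (fun z => (q z ^ m)⁻¹) z‖ +
            ‖((q z ^ m)⁻¹) • ((8 * ζ z ^ 7) • fderiv ℝ ζ z)‖ := norm_add_le _ _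
        _ = ζ z ^ 8 * ‖fderiv ℝ (fun z => (q z ^ m)⁻¹) z‖ +
            (q z ^ m)⁻¹ * (8 * ζ z ^ 7 * ‖fderiv ℝ ζ z‖) := by
          rw [norm_smul, norm_smul, norm_smul, Real.norm_of_nonneg (by positivity),
            Real.norm_of_nonneg hqi, Real.norm_of_nonneg (by positivity)]
        _ = ζ z ^ 7 * (ζ z * ‖fderiv ℝ (fun z => (q z ^ m)⁻¹) z‖ +
            8 * (q z ^ m)⁻¹ * ‖fderiv ℝ ζ z‖) := by ring
        _ ≤ ζ z ^ 7 * C := mul_le_mul_of_nonneg_left hb2 h7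
        _ ≤ max C 0 * ζ z ^ 7 := by
          rw [mul_comm]
          exact mul_le_mul_of_nonneg_right (le_max_left _ _) h7
    · have e0 : fderiv ℝ (ps ζ q m) z = 0 := by
        by_contra hne
        have h1 := support_fderiv_subset ℝ (f := ps ζ q m) (by simpa using hne)
        exact hz ((tsupport_mul_subset_left.trans (tsupport_comp_subset (g := fun x : ℝ => x ^ 8) (by simp) ζ)) h1)
      rw [e0, norm_zero]
      exact mul_nonneg (le_max_right _ _) (pow_nonneg (hz0 z) 7)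
  refine ⟨2 * max C 0, by positivity, fun z => ?_⟩
  have k := key z
  have k2 := Cacc.norm_fderiv_ofReal_le (ps_smooth hq hζ.smooth m) z
  constructor
  · refine norm_dz_le.trans ?_
    linarith
  · refine norm_dzb_le.trans ?_
    linarith

lemma AA_eq {a b : ℝ} {ζ q f : ℂ → ℝ} {h : ℝ} (m : ℕ) :
    AA a b ζ q h f m = ∫ z, ps ζ q m z * ‖it h (uu a b f) m z‖ ^ 2 := by
  unfold AA ps
  refine integral_congr_ae (Filter.Eventually.of_forall fun z => ?_)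
  simp only [div_eq_mul_inv]
  ring

lemma fin_ineq {A0 A1 A2 c e d B η : ℝ} (h0 : 0 ≤ A0) (h1 : 0 ≤ A1) (hB0 : A0 ≤ B) (hB2 : A2 ≤ B)
    (he : 0 ≤ e) (hd0 : 0 ≤ d) (hd1 : d ≤ 1) (hc : c ^ 2 ≤ (A2 + d) * A0)
    (hA : A1 ≤ e + c) (hη : d * B + 2 * (B + 1) * e + e ^ 2 ≤ η) : A1 ^ 2 ≤ A0 * A2 + η := by
  have hB : 0 ≤ B := h0.trans hB0
  have h2 : (A2 + d) * A0 ≤ (B + 1) * (B + 1) := by
    have h3 : (A2 + d) * A0 ≤ (B + 1) * A0 := mul_le_mul_of_nonneg_right (by linarith) h0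
    have h4 : (B + 1) * A0 ≤ (B + 1) * (B + 1) := mul_le_mul_of_nonneg_left (by linarith) (by linarith)
    linarith
  have h3 : c ≤ B + 1 := by
    refine le_of_sq_le_sq ?_ (by linarith)
    nlinarith
  have h5 : A1 ^ 2 ≤ (e + c) ^ 2 := pow_le_pow_left₀ h1 hA 2
  have h6 : c * e ≤ (B + 1) * e := mul_le_mul_of_nonneg_right h3 he
  have h7 : d * A0 ≤ d * B := mul_le_mul_of_nonneg_left hB0 hd0
  nlinarith

/-- `(|v_m| + h |D v_m|)²` -/
def PP (a b h : ℝ) (f : ℂ → ℝ) (m : ℕ) (z : ℂ) : ℝ :=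
  (‖it h (uu a b f) m z‖ + h * ‖fderiv ℝ (it h (uu a b f) m) z‖) ^ 2

lemma continuous_PP {f : ℂ → ℝ} (hf : ContDiff ℝ ∞ f) (a b h : ℝ) (m : ℕ) : Continuous (PP a b h f m) := by
  have h1 := contDiff_it (contDiff_uu hf a b) h m
  exact (h1.continuous.norm.add (continuous_const.mul (h1.continuous_fderiv (by simp)).norm)).pow 2

lemma PP_dz {f : ℂ → ℝ} {a b h : ℝ} (hh : 0 ≤ h) (m : ℕ) (z : ℂ) :
    ‖(h : ℂ) * dz (it h (uu a b f) m) z‖ * ‖it h (uu a b f) m z‖ ≤ PP a b h f m z := by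
  have h1 : ‖(h : ℂ) * dz (it h (uu a b f) m) z‖ ≤ 2 * (h * ‖fderiv ℝ (it h (uu a b f) m) z‖) := by
    rw [norm_mul, Complex.norm_real, Real.norm_of_nonneg hh]
    have := mul_le_mul_of_nonneg_left (norm_dz_le (g := it h (uu a b f) m) (z := z)) hh
    linarith
  unfold PP
  have h2 := norm_nonneg (it h (uu a b f) m z)
  have h3 := mul_le_mul_of_nonneg_right h1 h2
  nlinarith [sq_nonneg (‖it h (uu a b f) m z‖ - h * ‖fderiv ℝ (it h (uu a b f) m) z‖),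
    sq_nonneg (‖it h (uu a b f) m z‖), sq_nonneg (h * ‖fderiv ℝ (it h (uu a b f) m) z‖)]

lemma PP_dzb {f : ℂ → ℝ} {a b h : ℝ} (hh : 0 ≤ h) (m : ℕ) (z : ℂ) :
    ‖(h : ℂ) * dzb (it h (uu a b f) m) z‖ * ‖it h (uu a b f) m z‖ ≤ PP a b h f m z := by
  have h1 : ‖(h : ℂ) * dzb (it h (uu a b f) m) z‖ ≤ 2 * (h * ‖fderiv ℝ (it h (uu a b f) m) z‖) := by
    rw [norm_mul, Complex.norm_real, Real.norm_of_nonneg hh]
    have := mul_le_mul_of_nonneg_left (norm_dzb_le (g := it h (uu a b f) m) (z := z)) hh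
    linarith
  unfold PP
  have h2 := norm_nonneg (it h (uu a b f) m z)
  have h3 := mul_le_mul_of_nonneg_right h1 h2
  nlinarith [sq_nonneg (‖it h (uu a b f) m z‖ - h * ‖fderiv ℝ (it h (uu a b f) m) z‖),
    sq_nonneg (‖it h (uu a b f) m z‖), sq_nonneg (h * ‖fderiv ℝ (it h (uu a b f) m) z‖)]

lemma PP_norm {f : ℂ → ℝ} {a b h : ℝ} (hh : 0 ≤ h) (m : ℕ) (z : ℂ) :
    ‖it h (uu a b f) m z‖ ^ 2 ≤ PP a b h f m z := by
  unfold PP
  refine pow_le_pow_left₀ (norm_nonneg _) ?_ 2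
  have : 0 ≤ h * ‖fderiv ℝ (it h (uu a b f) m) z‖ := mul_nonneg hh (norm_nonneg _)
  linarith

section seq

variable {q : ℂ → ℝ} {h : ℕ → ℝ} {f : ℕ → ℂ → ℝ} {ζ : ℂ → ℝ} {M : ℝ}

/-- bounds for the weighted integrals of `PP` -/
lemma bd (hN : StmtNs) (hL : StmtLr) (hS : SB V q h f ζ M) (a b : ℝ) (m : ℕ) :
    (∃ C : ℝ, 0 ≤ C ∧ ∀ᶠ i in atTop, ∫ z, ζ z ^ 8 * PP a b (h i) (f i) m z ≤ C) ∧
    Tendsto (fun i => h i * ∫ z, ζ z ^ 7 * PP a b (h i) (f i) m z) atTop (𝓝 0) := by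
  obtain ⟨C, hC0, hC⟩ := hL V q hS.seq.pot (tsupport ζ) hS.tz.cpt hS.tz.sub a b m
  obtain ⟨⟨D, hD0, hD⟩, hlim⟩ := hN V q h f ζ M hS (m + 1)
  have hζ := hS.tz.smooth.continuous
  have hc8 : HasCompactSupport (fun z => ζ z ^ 8) := hS.tz.cpt.comp_left (g := fun x : ℝ => x ^ 8) (by simp)
  have hcs : ∀ i, Continuous (fun z => (1 + sm (h i) (f i) (m + 1) z ^ 2) ^ 3) := fun i =>
    ((continuous_const.add ((Rel.continuous_sm (hS.seq.sol i).smooth (h i) (m + 1)).pow 2))).pow 3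
  have hcp : ∀ i, Continuous (PP a b (h i) (f i) m) := fun i => continuous_PP (hS.seq.sol i).smooth a b (h i) m
  have pw : ∀ i z, z ∈ tsupport ζ → PP a b (h i) (f i) m z ≤ C * (1 + sm (h i) (f i) (m + 1) z ^ 2) ^ 3 :=
    fun i z hz => hC (h i) (f i) (hS.seq.sol i) z hz
  have key : ∀ (k : ℕ), k ≠ 0 → ∀ i z, ζ z ^ k * PP a b (h i) (f i) m z ≤
      C * (ζ z ^ k * (1 + sm (h i) (f i) (m + 1) z ^ 2) ^ 3) := by
    intro k hk i z
    by_cases hz : z ∈ tsupport ζ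
    · calc _ ≤ ζ z ^ k * (C * (1 + sm (h i) (f i) (m + 1) z ^ 2) ^ 3) :=
          mul_le_mul_of_nonneg_left (pw i z hz) (pow_nonneg (hS.z0 z) k)
        _ = _ := by ring
    · rw [image_eq_zero_of_notMem_tsupport hz, zero_pow hk, zero_mul, zero_mul, mul_zero]
  constructor
  · refine ⟨C * D, mul_nonneg hC0 hD0, ?_⟩
    filter_upwards [hD] with i hi
    have j1 : Integrable (fun z => ζ z ^ 8 * PP a b (h i) (f i) m z) :=
      ((hζ.pow 8).mul (hcp i)).integrable_of_hasCompactSupport hc8.mul_right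
    have j2 : Integrable (fun z => C * (ζ z ^ 8 * (1 + sm (h i) (f i) (m + 1) z ^ 2) ^ 3)) :=
      (((hζ.pow 8).mul (hcs i)).integrable_of_hasCompactSupport hc8.mul_right).const_mul C
    have h1 := integral_mono j1 j2 (fun z => key 8 (by norm_num) i z)
    rw [integral_const_mul] at h1
    exact h1.trans (mul_le_mul_of_nonneg_left hi hC0)
  · have hl2 := hlim.const_mul C
    rw [mul_zero] at hl2
    refine squeeze_zero (fun i => ?_) (fun i => ?_) hl2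
    · refine mul_nonneg (hS.seq.sol i).hpos.le (integral_nonneg fun z => ?_)
      exact mul_nonneg (pow_nonneg (hS.z0 z) 7) (sq_nonneg _)
    · have j1 := int7 hζ hS.tz.cpt (hcp i)
      have j2 := (int7 hζ hS.tz.cpt (hcs i)).const_mul C
      have h1 := integral_mono j1 j2 (fun z => key 7 (by norm_num) i z)
      rw [integral_const_mul] at h1
      calc _ ≤ h i * (C * ∫ z, ζ z ^ 7 * (1 + sm (h i) (f i) (m + 1) z ^ 2) ^ 3) :=
          mul_le_mul_of_nonneg_left h1 (hS.seq.sol i).hpos.le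
        _ = _ := by ring

/-- `A_m` is eventually bounded -/
lemma bdA (hN : StmtNs) (hL : StmtLr) (hS : SB V q h f ζ M) (a b : ℝ) (m : ℕ) :
    ∃ C : ℝ, ∀ᶠ i in atTop, AA a b ζ q (h i) (f i) m ≤ C := by
  obtain ⟨⟨D, hD0, hD⟩, -⟩ := bd hN hL hS a b m
  have hr := Rel.contDiff_inv_pow hS.seq.pot m
  obtain ⟨Q, hQ⟩ := hS.tz.cpt.isCompact.exists_bound_of_continuousOn hr.continuous.continuousOn
  have hζ := hS.tz.smooth.continuous
  have hc8 : HasCompactSupport (fun z => ζ z ^ 8) := hS.tz.cpt.comp_left (g := fun x : ℝ => x ^ 8) (by simp)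
  refine ⟨max Q 0 * D, ?_⟩
  filter_upwards [hD] with i hi
  have hh := (hS.seq.sol i).hpos.le
  have hcp := continuous_PP (hS.seq.sol i).smooth a b (h i) m
  have hci := (contDiff_it (contDiff_uu (hS.seq.sol i).smooth a b) (h i) m).continuous
  rw [AA_eq]
  have j1 : Integrable (fun z => ps ζ q m z * ‖it (h i) (uu a b (f i)) m z‖ ^ 2) :=
    ((ps_smooth hS.seq.pot hS.tz.smooth m).continuous.mul (hci.norm.pow 2)).integrable_of_hasCompactSupport
      (ps_cpt hS.tz.cpt m).mul_right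
  have j2 : Integrable (fun z => max Q 0 * (ζ z ^ 8 * PP a b (h i) (f i) m z)) :=
    (((hζ.pow 8).mul hcp).integrable_of_hasCompactSupport hc8.mul_right).const_mul _
  have h1 : ∫ z, ps ζ q m z * ‖it (h i) (uu a b (f i)) m z‖ ^ 2 ≤
      ∫ z, max Q 0 * (ζ z ^ 8 * PP a b (h i) (f i) m z) := by
    refine integral_mono j1 j2 fun z => ?_
    change ζ z ^ 8 * (q z ^ m)⁻¹ * ‖it (h i) (uu a b (f i)) m z‖ ^ 2 ≤ _
    by_cases hz : z ∈ tsupport ζ
    · have h2 := PP_norm (a := a) (b := b) (f := f i) hh m z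
      have h3 : (q z ^ m)⁻¹ ≤ max Q 0 := by
        have := hQ z hz
        rw [Real.norm_eq_abs] at this
        exact (le_abs_self _).trans (this.trans (le_max_left _ _))
      have h4 : 0 ≤ ζ z ^ 8 := pow_nonneg (hS.z0 z) 8
      calc _ = (q z ^ m)⁻¹ * (ζ z ^ 8 * ‖it (h i) (uu a b (f i)) m z‖ ^ 2) := by ring
        _ ≤ max Q 0 * (ζ z ^ 8 * PP a b (h i) (f i) m z) :=
          mul_le_mul h3 (mul_le_mul_of_nonneg_left h2 h4) (mul_nonneg h4 (sq_nonneg _)) (le_max_right _ _)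
    · rw [image_eq_zero_of_notMem_tsupport hz]
      simp
  rw [integral_const_mul] at h1
  exact h1.trans (mul_le_mul_of_nonneg_left hi (le_max_right _ _))

lemma AA_nonneg (hq : Pot V q) (a b : ℝ) (ζ' : ℂ → ℝ) (hh : ℝ) (g : ℂ → ℝ) (m : ℕ) : 0 ≤ AA a b ζ' q hh g m :=
  integral_nonneg fun z => mul_nonneg (by positivity) (div_nonneg (sq_nonneg _) (pow_pos (hq.pos z) m).le)

end seq

end IbM

open IbM in
theorem stmtIb (hN : StmtNs) (hL : StmtLr) : StmtIb := by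
  intro V q h f ζ M hS a b n η hη
  have hq := hS.seq.pot
  have hζ := hS.tz.smooth.continuous
  have hζc := hS.tz.cpt
  obtain ⟨C1, hC1, hd1⟩ := ps_fderiv hq hS.tz hS.z0 (n + 1)
  obtain ⟨C2, hC2, hd2⟩ := ps_fderiv hq hS.tz hS.z0 (n + 2)
  obtain ⟨-, t0⟩ := bd hN hL hS a b n
  obtain ⟨-, t1⟩ := bd hN hL hS a b (n + 1)
  obtain ⟨B0, hB0⟩ := bdA hN hL hS a b n
  obtain ⟨B2, hB2⟩ := bdA hN hL hS a b (n + 2)
  set B := max B0 B2 with hBdef
  set d : ℕ → ℝ := fun i => 2 * C2 * (h i * ∫ z, ζ z ^ 7 * PP a b (h i) (f i) (n + 1) z) with hddef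
  set e : ℕ → ℝ := fun i => C1 * ((h i * ∫ z, ζ z ^ 7 * PP a b (h i) (f i) n z) +
    (h i * ∫ z, ζ z ^ 7 * PP a b (h i) (f i) (n + 1) z)) with hedef
  have td : Tendsto d atTop (𝓝 0) := by
    have := t1.const_mul (2 * C2)
    rwa [mul_zero] at this
  have te : Tendsto e atTop (𝓝 0) := by
    have := (t0.add t1).const_mul C1
    rwa [add_zero, mul_zero] at this
  have tt : Tendsto (fun i => d i * B + 2 * (B + 1) * e i + e i ^ 2) atTop (𝓝 0) := by
    have := ((td.mul_const B).add (te.const_mul (2 * (B + 1)))).add (te.pow 2)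
    simpa using this
  filter_upwards [hB0, hB2, td.eventually (gt_mem_nhds (show (0 : ℝ) < 1 by norm_num)),
    tt.eventually (gt_mem_nhds hη)] with i hi0 hi2 hid hie
  have hh := (hS.seq.sol i).hpos.le
  have hsm := (hS.seq.sol i).smooth
  have hu := contDiff_uu hsm a b
  have pos7 : ∀ m, 0 ≤ h i * ∫ z, ζ z ^ 7 * PP a b (h i) (f i) m z := fun m =>
    mul_nonneg hh (integral_nonneg fun z => mul_nonneg (pow_nonneg (hS.z0 z) 7) (sq_nonneg _))
  -- the functions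
  set v : ℂ → ℂ := it (h i) (uu a b (f i)) n with hv
  set g : ℂ → ℂ := it (h i) (uu a b (f i)) (n + 1) with hg
  have hvs : ContDiff ℝ ∞ v := contDiff_it hu (h i) n
  have hgs : ContDiff ℝ ∞ g := contDiff_it hu (h i) (n + 1)
  have hgv : g = fun z => (h i : ℂ) * dz v z := rfl
  have hcP : ∀ m, Continuous (PP a b (h i) (f i) m) := fun m => continuous_PP hsm a b (h i) m
  have hkc : Continuous (fun z => (h i : ℂ) * dzb g z) := (contDiff_const.mul (contDiff_dzb hgs)).continuous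
  -- (i)
  have s1 : AA a b ζ q (h i) (f i) (n + 1) ≤ e i + ∫ z, ps ζ q (n + 1) z * (‖(h i : ℂ) * dzb g z‖ * ‖v z‖) := by
    rw [AA_eq]
    have e0 := ibp (ps_smooth hq hS.tz.smooth (n + 1)) (ps_cpt hζc (n + 1)) hvs (h i)
    have r := est1 (I := ∫ z, ps ζ q (n + 1) z * ‖(h i : ℂ) * dz v z‖ ^ 2) (R := fun z => PP a b (h i) (f i) n z + PP a b (h i) (f i) (n + 1) z) hζ hζc
      (ps_smooth hq hS.tz.smooth (n + 1)).continuous (ps_cpt hζc (n + 1)) (ps_nonneg hq (n + 1))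
      ((hcP n).add (hcP (n + 1))) hh hC1 hS.z0 hkc hvs.continuous (fun z => (hd1 z).1) (fun z => by
        have a1 := PP_dz (a := a) (b := b) (f := f i) hh n z
        have a2 : 0 ≤ PP a b (h i) (f i) (n + 1) z := sq_nonneg _
        linarith) e0
    refine r.trans ?_
    have j0 := int7 hζ hζc (hcP n)
    have j1 := int7 hζ hζc (hcP (n + 1))
    have e3 : ∫ z, ζ z ^ 7 * (PP a b (h i) (f i) n z + PP a b (h i) (f i) (n + 1) z) =
        (∫ z, ζ z ^ 7 * PP a b (h i) (f i) n z) + ∫ z, ζ z ^ 7 * PP a b (h i) (f i) (n + 1) z := by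
      rw [← integral_add j0 j1]
      refine integral_congr_ae (Filter.Eventually.of_forall fun z => ?_)
      simp only
      ring
    rw [e3, hedef]
    simp only
    linarith
  -- Cauchy-Schwarz
  have s2 : (∫ z, ps ζ q (n + 1) z * (‖(h i : ℂ) * dzb g z‖ * ‖v z‖)) ^ 2 ≤
      (∫ z, ps ζ q (n + 2) z * ‖(h i : ℂ) * dzb g z‖ ^ 2) * AA a b ζ q (h i) (f i) n := by
    have hqc := hq.smooth.continuous
    have p2 := (ps_smooth hq hS.tz.smooth (n + 2)).continuous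
    have c2 := ps_cpt (q := q) hζc (n + 2)
    have r := LocGen.cs (w := ps ζ q (n + 2)) (a := fun z => ‖(h i : ℂ) * dzb g z‖) (b := fun z => q z * ‖v z‖)
      (ps_nonneg hq (n + 2))
      ((p2.mul (hkc.norm.pow 2)).integrable_of_hasCompactSupport c2.mul_right)
      ((p2.mul ((hqc.mul hvs.continuous.norm).pow 2)).integrable_of_hasCompactSupport c2.mul_right)
      ((p2.mul (hkc.norm.mul (hqc.mul hvs.continuous.norm))).integrable_of_hasCompactSupport c2.mul_right)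
    have e4 : ∀ z, ps ζ q (n + 2) z * (‖(h i : ℂ) * dzb g z‖ * (q z * ‖v z‖)) =
        ps ζ q (n + 1) z * (‖(h i : ℂ) * dzb g z‖ * ‖v z‖) := by
      intro z
      unfold ps
      have hz := (hq.pos z).ne'
      field_simp
      ring
    have e5 : ∀ z, ps ζ q (n + 2) z * (q z * ‖v z‖) ^ 2 = ps ζ q n z * ‖v z‖ ^ 2 := by
      intro z
      unfold ps
      have hz := (hq.pos z).ne'
      field_simp
      ring
    simp_rw [e4, e5] at r
    rw [AA_eq]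
    exact r
  -- (ii)
  have s3 : ∫ z, ps ζ q (n + 2) z * ‖(h i : ℂ) * dzb g z‖ ^ 2 ≤ AA a b ζ q (h i) (f i) (n + 2) + d i := by
    rw [AA_eq]
    have hψ := ps_smooth hq hS.tz.smooth (n + 2)
    have hψc := ps_cpt (q := q) hζc (n + 2)
    have hψo : ContDiff ℝ ∞ (fun z => (ps ζ q (n + 2) z : ℂ)) := contDiff_ofReal hψ
    have hψoc : HasCompactSupport (fun z => (ps ζ q (n + 2) z : ℂ)) :=
      hψc.comp_left (g := fun x : ℝ => (x : ℂ)) (by simp)
    have e1 := ibp hψ hψc hgs (h i)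
    have e2 := ibpb hψ hψc hgs (h i)
    have hcomm : ∀ z, (h i : ℂ) * dz (fun z => (h i : ℂ) * dzb g z) z =
        (h i : ℂ) * dzb (fun z => (h i : ℂ) * dz g z) z := by
      intro z
      rw [dz_const_mul _ (contDiff_dzb hgs), dzb_const_mul _ (contDiff_dz hgs), dz_dzb_comm hgs]
    simp_rw [hcomm] at e2
    exact est2 hζ hζc hψ.continuous hψc (hcP (n + 1)) hh hC2 hS.z0
      ((contDiff_const.mul (contDiff_dzb (contDiff_const.mul (contDiff_dz hgs)))).continuous) hgs.continuous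
      (contDiff_const.mul (contDiff_dz hgs)).continuous (contDiff_const.mul (contDiff_dzb hgs)).continuous
      (contDiff_dz hψo).continuous (contDiff_dzb hψo).continuous
      (hasCompactSupport_dz hψoc) (hasCompactSupport_dzb hψoc) (fun z => (hd2 z).1) (fun z => (hd2 z).2)
      (fun z => PP_dz hh (n + 1) z) (fun z => PP_dzb hh (n + 1) z) e1 e2
  refine fin_ineq (AA_nonneg hq a b ζ (h i) (f i) n) (AA_nonneg hq a b ζ (h i) (f i) (n + 1))
    (hi0.trans (le_max_left _ _)) (hi2.trans (le_max_right _ _)) ?_ ?_ hid.le ?_ s1 hie.le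
  · exact mul_nonneg hC1 (add_nonneg (pos7 n) (pos7 (n + 1)))
  · exact mul_nonneg (by positivity) (pos7 (n + 1))
  · exact s2.trans (mul_le_mul_of_nonneg_right s3 (AA_nonneg hq a b ζ (h i) (f i) n))

end

end Pool.Agent.A54.B6
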