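import Pool.Agent.Lib.MP_a54f13_nt.B6.Spec

/-!
# Package B6, module Lb: Leibniz' rule for `h ∂` and cubic expressions
-/

set_option autoImplicit false

namespace Pool.Agent.A54.B6

open MeasureTheory Filter Topology Set
open scoped ContDiff ComplexConjugate

namespace LbM

variable {u v : ℂ → ℂ} {h : ℝ}

theorem it_smooth (hu : ContDiff ℝ ∞ u) (h : ℝ) : ∀ n, ContDiff ℝ ∞ (it h u n)
  | 0 => hu
  | n + 1 => contDiff_const.mul (contDiff_dz (it_smooth hu h n))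

theorem it_gg (h : ℝ) (f : ℂ → ℝ) : ∀ n, it h (fun z => (f z : ℂ)) n = gg h f n
  | 0 => rfl
  | n + 1 => by
    funext z
    show (h : ℂ) * dz (it h (fun z => (f z : ℂ)) n) z = (h : ℂ) * dz (gg h f n) z
    rw [it_gg h f n]

theorem it_add (hu : ContDiff ℝ ∞ u) (hv : ContDiff ℝ ∞ v) (h : ℝ) :
    ∀ n, it h (fun z => u z + v z) n = fun z => it h u n z + it h v n z
  | 0 => rfl
  | n + 1 => by
    funext z
    show (h : ℂ) * dz (it h (fun z => u z + v z) n) z = _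
    rw [it_add hu hv h n, dz_add (it_smooth hu h n) (it_smooth hv h n), mul_add]
    rfl

theorem it_smul (hu : ContDiff ℝ ∞ u) (c : ℂ) (h : ℝ) :
    ∀ n, it h (fun z => c * u z) n = fun z => c * it h u n z
  | 0 => rfl
  | n + 1 => by
    funext z
    show (h : ℂ) * dz (it h (fun z => c * u z) n) z = _
    rw [it_smul hu c h n, dz_const_mul c (it_smooth hu h n)]
    show (h : ℂ) * (c * dz (it h u n) z) = c * ((h : ℂ) * dz (it h u n) z)
    ring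

theorem dz_sum {ι : Type} (s : Finset ι) (F : ι → ℂ → ℂ) (hF : ∀ i, ContDiff ℝ ∞ (F i)) (z : ℂ) :
    dz (fun w => ∑ i ∈ s, F i w) z = ∑ i ∈ s, dz (F i) z := by
  classical
  induction s using Finset.induction_on with
  | empty =>
    simp only [Finset.sum_empty]
    exact dz_const 0
  | insert i s hi ih =>
    simp only [Finset.sum_insert hi]
    rw [dz_add (hF i) (ContDiff.sum fun j _ => hF j), ih]

/-- Leibniz' rule. -/
theorem it_mul (hu : ContDiff ℝ ∞ u) (hv : ContDiff ℝ ∞ v) (h : ℝ) :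
    ∀ n, it h (fun z => u z * v z) n = fun z => ∑ ij ∈ Finset.HasAntidiagonal.antidiagonal n,
      (n.choose ij.1 : ℂ) * (it h u ij.1 z * it h v ij.2 z)
  | 0 => by
    funext z
    simp [it]
  | n + 1 => by
    funext z
    show (h : ℂ) * dz (it h (fun z => u z * v z) n) z = _
    rw [it_mul hu hv h n, dz_sum _ (fun (ij : ℕ × ℕ) z => (n.choose ij.1 : ℂ) *
      (it h u ij.1 z * it h v ij.2 z)) (fun ij => contDiff_const.mul
        ((it_smooth hu h ij.1).mul (it_smooth hv h ij.2))) z, Finset.mul_sum,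
      Finset.sum_antidiagonal_choose_succ_mul (fun i j => it h u i z * it h v j z) n,
      ← Finset.sum_add_distrib]
    refine Finset.sum_congr rfl fun ij hij => ?_
    have hs : (n.choose ij.2 : ℂ) = (n.choose ij.1 : ℂ) := by
      rw [Nat.choose_symm_of_eq_add (Finset.HasAntidiagonal.mem_antidiagonal.1 hij).symm]
    rw [hs, dz_const_mul _ ((it_smooth hu h ij.1).mul (it_smooth hv h ij.2)),
      dz_mul (it_smooth hu h ij.1) (it_smooth hv h ij.2)]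
    show _ = (n.choose ij.1 : ℂ) * (it h u ij.1 z * ((h : ℂ) * dz (it h v ij.2) z)) +
      (n.choose ij.1 : ℂ) * (((h : ℂ) * dz (it h u ij.1) z) * it h v ij.2 z)
    ring

/-- Leibniz' rule for bounds. -/
theorem it_mul_bound (hu : ContDiff ℝ ∞ u) (hv : ContDiff ℝ ∞ v) (h : ℝ) (n : ℕ) (z : ℂ)
    {a b r s : ℝ} (ha : 0 ≤ a) (hr : 0 ≤ r)
    (h1 : ∀ k ≤ n, ‖it h u k z‖ ≤ a * r ^ k) (h2 : ∀ k ≤ n, ‖it h v k z‖ ≤ b * s ^ k) :
    ∀ k ≤ n, ‖it h (fun z => u z * v z) k z‖ ≤ a * b * (r + s) ^ k := by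
  intro k hk
  rw [it_mul hu hv h k]
  show ‖∑ ij ∈ Finset.HasAntidiagonal.antidiagonal k,
      (k.choose ij.1 : ℂ) * (it h u ij.1 z * it h v ij.2 z)‖ ≤ _
  rw [(Commute.all r s).add_pow', Finset.mul_sum]
  refine norm_sum_le_of_le _ fun ij hij => ?_
  have hij' := Finset.HasAntidiagonal.mem_antidiagonal.1 hij
  rw [norm_mul, norm_mul, Complex.norm_natCast, nsmul_eq_mul]
  have e1 := h1 ij.1 (by omega)
  have e2 := h2 ij.2 (by omega)
  have e3 : ‖it h u ij.1 z‖ * ‖it h v ij.2 z‖ ≤ (a * r ^ ij.1) * (b * s ^ ij.2) :=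
    mul_le_mul e1 e2 (norm_nonneg _) (by positivity)
  calc (k.choose ij.1 : ℝ) * (‖it h u ij.1 z‖ * ‖it h v ij.2 z‖) ≤
        (k.choose ij.1 : ℝ) * ((a * r ^ ij.1) * (b * s ^ ij.2)) :=
        mul_le_mul_of_nonneg_left e3 (Nat.cast_nonneg _)
    _ = a * b * ((k.choose ij.1 : ℝ) * (r ^ ij.1 * s ^ ij.2)) := by ring

end LbM

open LbM in
theorem stmtLb : StmtLb := by
  intro a b h B Q W f n z hf hB hQ hW hg
  have hF : ContDiff ℝ ∞ (fun z => (f z : ℂ)) := contDiff_ofReal hf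
  have hFF : ContDiff ℝ ∞ (fun z => (f z : ℂ) * (f z : ℂ)) := hF.mul hF
  have hFFF : ContDiff ℝ ∞ (fun z => (f z : ℂ) * ((f z : ℂ) * (f z : ℂ))) := hF.mul hFF
  obtain ⟨β, hβ0, hβ⟩ : ∃ β : ℝ, 0 ≤ β ∧ β ^ 2 = B * W :=
    ⟨Real.sqrt (B * W), Real.sqrt_nonneg _, Real.sq_sqrt (mul_nonneg hB hW)⟩
  obtain ⟨κ, hκ0, hκ⟩ : ∃ κ : ℝ, 0 ≤ κ ∧ κ ^ 2 = Q := ⟨Real.sqrt Q, Real.sqrt_nonneg _, Real.sq_sqrt hQ⟩
  have h1 : ∀ k ≤ n, ‖it h (fun z => (f z : ℂ)) k z‖ ≤ β * κ ^ k := by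
    intro k hk
    rw [it_gg]
    refine abs_le_of_sq_le_sq' ?_ (by positivity) |>.2
    calc ‖gg h f k z‖ ^ 2 ≤ B * Q ^ k * W := hg k hk
      _ = (β * κ ^ k) ^ 2 := by
        rw [mul_pow, hβ, ← pow_mul, mul_comm k 2, pow_mul, hκ]
        ring
  have h2 := it_mul_bound hF hF h n z hβ0 hκ0 h1 h1
  have h3 := it_mul_bound hF hFF h n z hβ0 hκ0 h1 h2
  have e1 : uu a b f = fun z => (a : ℂ) * (f z : ℂ) + (b : ℂ) *
      ((f z : ℂ) * ((f z : ℂ) * (f z : ℂ))) := by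
    funext z
    unfold uu
    push_cast
    ring
  have e2 : it h (uu a b f) n z = (a : ℂ) * gg h f n z + (b : ℂ) *
      it h (fun z => (f z : ℂ) * ((f z : ℂ) * (f z : ℂ))) n z := by
    rw [e1, it_add (contDiff_const.mul hF) (contDiff_const.mul hFFF) h n]
    show it h (fun z => (a : ℂ) * (f z : ℂ)) n z +
      it h (fun z => (b : ℂ) * ((f z : ℂ) * ((f z : ℂ) * (f z : ℂ)))) n z = _
    rw [it_smul hF (a : ℂ) h n, it_smul hFFF (b : ℂ) h n, it_gg]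
  have h4 := h3 n le_rfl
  have h5 : ‖it h (fun z => (f z : ℂ) * ((f z : ℂ) * (f z : ℂ))) n z‖ ^ 2 ≤
      9 ^ n * (B ^ 3 * Q ^ n * W ^ 3) := by
    calc ‖it h (fun z => (f z : ℂ) * ((f z : ℂ) * (f z : ℂ))) n z‖ ^ 2 ≤
          (β * (β * β) * (κ + (κ + κ)) ^ n) ^ 2 := pow_le_pow_left₀ (norm_nonneg _) h4 2
      _ = (β ^ 2) ^ 3 * (9 * κ ^ 2) ^ n := by
        have : κ + (κ + κ) = 3 * κ := by ring
        rw [this, mul_pow, ← pow_mul, mul_comm n 2, pow_mul]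
        have : (3 * κ) ^ 2 = 9 * κ ^ 2 := by ring
        rw [this]
        ring
      _ = 9 ^ n * (B ^ 3 * Q ^ n * W ^ 3) := by
        rw [hβ, hκ, mul_pow]
        ring
  have h6 := hg n le_rfl
  rw [e2]
  have h7 : ‖(a : ℂ) * gg h f n z + (b : ℂ) *
      it h (fun z => (f z : ℂ) * ((f z : ℂ) * (f z : ℂ))) n z‖ ≤
      |a| * ‖gg h f n z‖ + |b| * ‖it h (fun z => (f z : ℂ) * ((f z : ℂ) * (f z : ℂ))) n z‖ := by
    refine (norm_add_le _ _).trans ?_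
    rw [norm_mul, norm_mul, Complex.norm_real, Complex.norm_real, Real.norm_eq_abs,
      Real.norm_eq_abs]
  set X := ‖gg h f n z‖ with hX
  set Y := ‖it h (fun z => (f z : ℂ) * ((f z : ℂ) * (f z : ℂ))) n z‖ with hY
  calc ‖(a : ℂ) * gg h f n z + (b : ℂ) *
      it h (fun z => (f z : ℂ) * ((f z : ℂ) * (f z : ℂ))) n z‖ ^ 2 ≤
        (|a| * X + |b| * Y) ^ 2 := pow_le_pow_left₀ (norm_nonneg _) h7 2
    _ ≤ 2 * (|a| * X) ^ 2 + 2 * (|b| * Y) ^ 2 := by nlinarith [sq_nonneg (|a| * X - |b| * Y)]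
    _ = 2 * a ^ 2 * X ^ 2 + 2 * b ^ 2 * Y ^ 2 := by
      rw [mul_pow, mul_pow, sq_abs, sq_abs]
      ring
    _ ≤ 2 * a ^ 2 * (B * Q ^ n * W) + 2 * b ^ 2 * (9 ^ n * (B ^ 3 * Q ^ n * W ^ 3)) := by
      have ha2 : 0 ≤ 2 * a ^ 2 := by positivity
      have hb2 : 0 ≤ 2 * b ^ 2 := by positivity
      exact add_le_add (mul_le_mul_of_nonneg_left h6 ha2) (mul_le_mul_of_nonneg_left h5 hb2)

end Pool.Agent.A54.B6
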