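import Pool.Agent.Lib.MP_a54f13_nt.B6.Spec

/-!
# Package B6, module Lc: elementary lemma on almost log-convex sequences
-/

set_option autoImplicit false

namespace Pool.Agent.A54.B6

theorem stmtLc : StmtLc := by
  intro r s K e hs hsr hK he
  obtain ⟨t, hst, htr⟩ := exists_between hsr
  have hs0 : 0 < s := by linarith
  have ht0 : 0 < t := by linarith
  have hr0 : 0 < r := by linarith
  have ht1 : 1 ≤ t := by linarith
  obtain ⟨M, hM⟩ := pow_unbounded_of_one_lt (K * s / e)
    (show 1 < t / s by rw [lt_div_iff₀ hs0]; linarith)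
  have hM' : K * s ^ (M + 1) < t ^ M * e := by
    rw [div_pow, div_lt_div_iff₀ he (pow_pos hs0 M)] at hM
    calc K * s ^ (M + 1) = K * s * s ^ M := by ring
      _ < t ^ M * e := hM
  have hM1 : (0 : ℝ) < (M : ℝ) + 1 := by positivity
  have htr1 : t / r < 1 := by rw [div_lt_one hr0]; exact htr
  have htr0 : 0 < t / r := div_pos ht0 hr0
  obtain ⟨x, hx⟩ : ∃ x : ℝ, x = (1 - t / r) / ((M : ℝ) + 1) := ⟨_, rfl⟩
  have hxm : ((M : ℝ) + 1) * x = 1 - t / r := by
    rw [hx]
    field_simp
  have hx0 : 0 < x := by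
    rw [hx]
    exact div_pos (by linarith) hM1
  have hx1 : x ≤ 1 - t / r := by
    have h1 : x ≤ ((M : ℝ) + 1) * x := by
      have : (0 : ℝ) ≤ (M : ℝ) * x := by positivity
      linarith
    linarith
  have hx2 : x < 1 := by linarith
  have hB : t / r ≤ (1 - x) ^ (M + 1) := by
    have h := one_add_mul_le_pow (show (-2 : ℝ) ≤ -x by linarith) (M + 1)
    have h2 : 1 + ((M + 1 : ℕ) : ℝ) * -x = t / r := by
      push_cast
      linarith
    rw [h2] at h
    calc t / r ≤ (1 + -x) ^ (M + 1) := h
      _ = (1 - x) ^ (M + 1) := by ring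
  have hB' : ∀ n, n ≤ M + 1 → t ≤ r * (1 - x) ^ n := by
    intro n hn
    have h1 : (1 - x) ^ (M + 1) ≤ (1 - x) ^ n :=
      pow_le_pow_of_le_one (by linarith) (by linarith) hn
    have h2 : t / r ≤ (1 - x) ^ n := hB.trans h1
    rw [div_le_iff₀ hr0] at h2
    linarith
  refine ⟨M + 1, x * e ^ 2, by positivity, fun A hA hlog hN => ?_⟩
  by_contra hcon
  push Not at hcon
  have key : ∀ n, n ≤ M → 0 < A n ∧ t ^ n * e ≤ A (n + 1) ∧
      r * (1 - x) ^ n * A n ≤ A (n + 1) := by
    intro n
    induction n with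
    | zero =>
      intro _
      have h0 := hA 0
      have h1 : 0 ≤ r * A 0 := by positivity
      have h2 : e ≤ A (0 + 1) := by
        rw [zero_add]
        linarith
      refine ⟨?_, ?_, ?_⟩
      · by_contra h3
        have h4 : A 0 = 0 := le_antisymm (not_lt.1 h3) h0
        have h5 := hlog 0 (by omega)
        rw [h4, zero_mul, zero_add] at h5
        have h6 : e ^ 2 ≤ A (0 + 1) ^ 2 := pow_le_pow_left₀ he.le h2 2
        have h7 : x * e ^ 2 < 1 * e ^ 2 := by
          apply mul_lt_mul_of_pos_right hx2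
          positivity
        rw [zero_add] at h6
        linarith
      · rw [pow_zero, one_mul]
        exact h2
      · rw [pow_zero, mul_one, zero_add]
        linarith
    | succ n ih =>
      intro hn
      obtain ⟨h1, h2, h3⟩ := ih (by omega)
      have h4 := hlog n (by omega)
      have htn : 1 ≤ t ^ n := one_le_pow₀ ht1
      have h5 : e ≤ A (n + 1) := by nlinarith
      have h6 : 0 < A (n + 1) := by linarith
      have h7 : e ^ 2 ≤ A (n + 1) ^ 2 := pow_le_pow_left₀ he.le h5 2
      have h8 : A (n + 1) ^ 2 * (1 - x) ≤ A n * A (n + 2) := by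
        have : x * e ^ 2 ≤ x * A (n + 1) ^ 2 := mul_le_mul_of_nonneg_left h7 hx0.le
        linarith
      have h9 : A (n + 1) * (r * (1 - x) ^ n * A n) * (1 - x) ≤ A (n + 1) ^ 2 * (1 - x) := by
        apply mul_le_mul_of_nonneg_right _ (by linarith)
        calc A (n + 1) * (r * (1 - x) ^ n * A n) ≤ A (n + 1) * A (n + 1) :=
              mul_le_mul_of_nonneg_left h3 h6.le
          _ = A (n + 1) ^ 2 := by ring
      have h10 : A n * (r * (1 - x) ^ (n + 1) * A (n + 1)) ≤ A n * A (n + 2) := by
        calc A n * (r * (1 - x) ^ (n + 1) * A (n + 1)) =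
              A (n + 1) * (r * (1 - x) ^ n * A n) * (1 - x) := by ring
          _ ≤ A n * A (n + 2) := h9.trans h8
      have h11 : r * (1 - x) ^ (n + 1) * A (n + 1) ≤ A (n + 2) := le_of_mul_le_mul_left h10 h1
      have h12 : t * A (n + 1) ≤ A (n + 2) := by
        have := hB' (n + 1) (by omega)
        have := mul_le_mul_of_nonneg_right this h6.le
        linarith
      refine ⟨h6, ?_, h11⟩
      calc t ^ (n + 1) * e = t * (t ^ n * e) := by ring
        _ ≤ t * A (n + 1) := mul_le_mul_of_nonneg_left h2 ht0.le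
        _ ≤ A (n + 2) := h12
  obtain ⟨_, h2, _⟩ := key M le_rfl
  linarith

end Pool.Agent.A54.B6
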