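import Pool.Agent.Lib.MP_a54f13_nt.B6.Spec

/-!
# `B6/Lk`: all even moments, local (helper3)
-/

set_option autoImplicit false

namespace Pool.Agent.A54.B6

open MeasureTheory Filter Topology Set
open scoped ContDiff ComplexConjugate UpperHalfPlane MatrixGroups

noncomputable section

namespace LkM

/-- the tangent line inequality for powers -/
lemma tang {x r : ℝ} (hx : 0 ≤ x) (hr : 0 ≤ r) (j : ℕ) :
    ((j : ℝ) + 1) * r ^ j * x ≤ x ^ (j + 1) + j * r ^ (j + 1) := by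
  induction j with
  | zero => simp
  | succ j ih =>
    have h1 := mul_le_mul_of_nonneg_left ih hx
    have h2 : 0 ≤ ((j : ℝ) + 1) * r ^ j * (x - r) ^ 2 := by positivity
    push_cast
    have e1 : r ^ (j + 1) = r ^ j * r := pow_succ _ _
    have e2 : r ^ (j + 1 + 1) = r ^ j * r * r := by rw [pow_succ, pow_succ]
    have e3 : x ^ (j + 1 + 1) = x * x ^ (j + 1) := by rw [pow_succ x (j + 1)]; ring
    rw [e2, e3, e1]
    rw [e1] at h1
    nlinarith

/-- the algebra of the moments -/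
lemma alg {A S m y x X ε₁ ε c₁ r : ℝ} (j : ℕ) (hA : 0 < A) (hc : 0 < c₁) (hm : c₁ ≤ m)
    (hmS : m ≤ S) (hε₁ : 0 ≤ ε₁) (hr : r = 10 / 3 * m / A)
    (hT : ((j : ℝ) + 1) * r ^ j * x ≤ X + j * r ^ (j + 1) * y)
    (hAp : 10 / 9 * y ^ 2 - ε₁ ≤ m * x) (hR : 3 * m ^ 2 - ε₁ ≤ A * y)
    (hE : (10 / 3) ^ j * S ^ j * (10 / 3 * ((j : ℝ) + 2) * S + ((j : ℝ) + 1) * A ^ 2 / c₁) * ε₁ ≤ ε) :
    10 * (10 / 3) ^ j * m ^ (j + 3) - ε ≤ A ^ (j + 2) * X := by
  have hm0 : 0 < m := hc.trans_le hm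
  have hS0 : 0 < S := hm0.trans_le hmS
  have hr0 : 0 < r := by rw [hr]; positivity
  have hrA : r * A = 10 / 3 * m := by rw [hr]; field_simp
  have hj : (0 : ℝ) ≤ j := Nat.cast_nonneg j
  set T : ℝ := r ^ j with hTdef
  have hT0 : 0 ≤ T := by positivity
  have hTA : T * A ^ j = (10 / 3) ^ j * m ^ j := by
    rw [hTdef, ← mul_pow, hrA, mul_pow]
  -- step 1
  have h1 : ((j : ℝ) + 1) * T * (A ^ 2 * (10 / 9 * y ^ 2 - ε₁)) ≤
      ((j : ℝ) + 1) * T * (A ^ 2 * (m * x)) :=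
    mul_le_mul_of_nonneg_left (mul_le_mul_of_nonneg_left hAp (by positivity)) (by positivity)
  have h2 : (A ^ 2 * m) * (((j : ℝ) + 1) * T * x) ≤ (A ^ 2 * m) * (X + j * r ^ (j + 1) * y) :=
    mul_le_mul_of_nonneg_left hT (by positivity)
  have e1 : (A ^ 2 * m) * (X + j * r ^ (j + 1) * y) =
      A ^ 2 * m * X + j * T * (10 / 3 * m ^ 2 * (A * y)) := by
    have : r ^ (j + 1) = T * r := by rw [pow_succ]
    rw [this]
    have h3 : (A ^ 2 * m) * (X + j * (T * r) * y) =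
        A ^ 2 * m * X + j * T * ((r * A) * m * (A * y)) := by ring
    rw [h3, hrA]
    ring
  rw [e1] at h2
  -- step 2: the quadratic polynomial
  have h4 : 10 * m ^ 4 - 10 / 3 * ((j : ℝ) + 2) * m ^ 2 * ε₁ ≤
      10 / 9 * ((j : ℝ) + 1) * (A * y) ^ 2 - 10 / 3 * j * m ^ 2 * (A * y) := by
    set u : ℝ := A * y - 3 * m ^ 2 with hu
    have hu1 : - ε₁ ≤ u := by rw [hu]; linarith
    have hAy : A * y = 3 * m ^ 2 + u := by rw [hu]; ring
    rw [hAy]
    have h5 : 0 ≤ 10 / 3 * ((j : ℝ) + 2) * m ^ 2 * (u + ε₁) :=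
      mul_nonneg (by positivity) (by linarith)
    have h6 : 0 ≤ 10 / 9 * ((j : ℝ) + 1) * u ^ 2 := by positivity
    nlinarith
  have h7 : T * (10 * m ^ 4 - 10 / 3 * ((j : ℝ) + 2) * m ^ 2 * ε₁ - ((j : ℝ) + 1) * A ^ 2 * ε₁) ≤
      A ^ 2 * m * X := by
    have h8 := mul_le_mul_of_nonneg_left h4 hT0
    nlinarith
  have h9 : A ^ j * (T * (10 * m ^ 4 - 10 / 3 * ((j : ℝ) + 2) * m ^ 2 * ε₁ -
      ((j : ℝ) + 1) * A ^ 2 * ε₁)) ≤ A ^ j * (A ^ 2 * m * X) :=
    mul_le_mul_of_nonneg_left h7 (by positivity)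
  have e2 : A ^ j * (T * (10 * m ^ 4 - 10 / 3 * ((j : ℝ) + 2) * m ^ 2 * ε₁ -
      ((j : ℝ) + 1) * A ^ 2 * ε₁)) = (10 / 3) ^ j * m ^ j *
      (10 * m ^ 4 - 10 / 3 * ((j : ℝ) + 2) * m ^ 2 * ε₁ - ((j : ℝ) + 1) * A ^ 2 * ε₁) := by
    rw [← hTA]; ring
  have e3 : A ^ j * (A ^ 2 * m * X) = m * (A ^ (j + 2) * X) := by
    rw [pow_add]; ring
  rw [e2, e3] at h9
  -- step 3: the error
  have h10 : (10 / 3) ^ j * m ^ j * ((10 / 3 * ((j : ℝ) + 2) * m ^ 2 + ((j : ℝ) + 1) * A ^ 2) * ε₁) ≤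
      m * ε := by
    have h11 : m * ((10 / 3) ^ j * S ^ j *
        (10 / 3 * ((j : ℝ) + 2) * S + ((j : ℝ) + 1) * A ^ 2 / c₁) * ε₁) ≤ m * ε :=
      mul_le_mul_of_nonneg_left hE hm0.le
    refine le_trans ?_ h11
    have h12 : m ^ j ≤ S ^ j := pow_le_pow_left₀ hm0.le hmS j
    have h13 : 10 / 3 * ((j : ℝ) + 2) * m ^ 2 + ((j : ℝ) + 1) * A ^ 2 ≤
        m * (10 / 3 * ((j : ℝ) + 2) * S + ((j : ℝ) + 1) * A ^ 2 / c₁) := by
      have h14 : m ^ 2 ≤ m * S := by nlinarith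
      have h15 : ((j : ℝ) + 1) * A ^ 2 ≤ m * (((j : ℝ) + 1) * A ^ 2 / c₁) := by
        have h16 : 1 ≤ m / c₁ := by rw [one_le_div hc]; exact hm
        have h17 : ((j : ℝ) + 1) * A ^ 2 * 1 ≤ ((j : ℝ) + 1) * A ^ 2 * (m / c₁) :=
          mul_le_mul_of_nonneg_left h16 (by positivity)
        calc ((j : ℝ) + 1) * A ^ 2 = ((j : ℝ) + 1) * A ^ 2 * 1 := by ring
          _ ≤ ((j : ℝ) + 1) * A ^ 2 * (m / c₁) := h17
          _ = m * (((j : ℝ) + 1) * A ^ 2 / c₁) := by ring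
      have h18 : 10 / 3 * ((j : ℝ) + 2) * m ^ 2 ≤ 10 / 3 * ((j : ℝ) + 2) * (m * S) :=
        mul_le_mul_of_nonneg_left h14 (by positivity)
      nlinarith
    have h19 : (10 / 3 * ((j : ℝ) + 2) * m ^ 2 + ((j : ℝ) + 1) * A ^ 2) * ε₁ ≤
        m * (10 / 3 * ((j : ℝ) + 2) * S + ((j : ℝ) + 1) * A ^ 2 / c₁) * ε₁ :=
      mul_le_mul_of_nonneg_right h13 hε₁
    calc (10 / 3) ^ j * m ^ j *
          ((10 / 3 * ((j : ℝ) + 2) * m ^ 2 + ((j : ℝ) + 1) * A ^ 2) * ε₁)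
        ≤ (10 / 3) ^ j * S ^ j *
          (m * (10 / 3 * ((j : ℝ) + 2) * S + ((j : ℝ) + 1) * A ^ 2 / c₁) * ε₁) := by
          apply mul_le_mul (mul_le_mul_of_nonneg_left h12 (by positivity)) h19
            (by positivity) (by positivity)
      _ = _ := by ring
  have h20 : m * (10 * (10 / 3) ^ j * m ^ (j + 3) - ε) ≤ m * (A ^ (j + 2) * X) := by
    have e4 : m * (10 * (10 / 3) ^ j * m ^ (j + 3) - ε) =
        (10 / 3) ^ j * m ^ j * (10 * m ^ 4) - m * ε := by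
      rw [pow_add]; ring
    rw [e4]
    nlinarith
  exact le_of_mul_le_mul_left h20 hm0

lemma pow3 {y : ℝ} (hy : 0 ≤ y) (j : ℕ) : y ^ 3 ≤ 1 + y ^ (j + 3) := by
  rcases le_total y 1 with h | h
  · have h1 : y ^ 3 ≤ 1 := pow_le_one₀ hy h
    have h2 : 0 ≤ y ^ (j + 3) := pow_nonneg hy _
    linarith
  · have h1 : y ^ 3 ≤ y ^ (j + 3) := pow_le_pow_right₀ h (by omega)
    linarith

end LkM

open LkM

theorem stmtLk (hA : StmtAp) : StmtLk := by
  intro V q h f hs hl hR φ hφ hφ0 k hk ε hε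
  have hφc : Continuous φ := hφ.smooth.continuous
  have hfc : ∀ i, Continuous (f i) := fun i => (hs.sol i).smooth.continuous
  have hint : ∀ i m, Integrable (fun z => φ z * f i z ^ m) := fun i m =>
    (hφc.mul ((hfc i).pow m)).integrable_of_hasCompactSupport hφ.cpt.mul_right
  have hφi : Integrable φ := hφc.integrable_of_hasCompactSupport hφ.cpt
  rcases Nat.eq_or_lt_of_le hk with hk2 | hk3
  · subst hk2
    filter_upwards [hR φ hφ hφ0 ε hε] with i hi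
    simpa using hi
  obtain ⟨j, rfl⟩ : ∃ j, k = j + 3 := ⟨k - 3, by omega⟩
  set A : ℝ := ∫ z, φ z with hAdef
  have hA0 : 0 ≤ A := integral_nonneg hφ0
  have hk1 : j + 3 - 1 = j + 2 := by omega
  have hk4 : j + 3 - 2 = j + 1 := by omega
  rw [hk1, hk4]
  have hcst : (3 : ℝ) * (10 / 3) ^ (j + 1) = 10 * (10 / 3) ^ j := by rw [pow_succ]; ring
  rw [hcst]
  rcases hA0.eq_or_lt with hA1 | hA1
  · have h0 : φ =ᵐ[volume] 0 := (integral_eq_zero_iff_of_nonneg hφ0 hφi).mp hA1.symm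
    refine Eventually.of_forall fun i => ?_
    have h1 : ∫ z, φ z * f i z ^ 2 = 0 := by
      have : ∫ z, φ z * f i z ^ 2 = ∫ z : ℂ, (0 : ℝ) := by
        apply integral_congr_ae
        filter_upwards [h0] with z hz
        rw [hz]; simp
      rw [this, integral_zero]
    rw [h1, ← hA1, zero_pow (by omega), zero_pow (by omega)]
    linarith
  -- the bound for the second moment
  obtain ⟨B, hB⟩ := hφ.cpt.exists_bound_of_continuous hφc
  have hB0 : 0 ≤ B := (norm_nonneg _).trans (hB 0)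
  obtain ⟨ζ, hζ, hζ1, hζ2⟩ := exists_cutoff hφ.cpt.isCompact hs.pot.isOpen hφ.sub
  have hζ3 : ∀ z ∈ tsupport φ, ζ z = 1 := fun z hz => hζ2.self_of_nhdsSet z hz
  obtain ⟨C, hC⟩ := hl ζ hζ
  have h2le : ∀ i, ∫ z, φ z * f i z ^ 2 ≤ |B * C| + 1 := by
    intro i
    have hi1 : Integrable (fun z => ζ z ^ 2 * f i z ^ 2) :=
      ((hζ.smooth.continuous.pow 2).mul ((hfc i).pow 2)).integrable_of_hasCompactSupport
        (by
          have h5 : HasCompactSupport (fun z => ζ z ^ 2) := by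
            have h6 : (fun z => ζ z ^ 2) = fun z => ζ z * ζ z := by funext z; ring
            rw [h6]
            exact hζ.cpt.mul_right
          exact h5.mul_right)
    have h5 : ∫ z, φ z * f i z ^ 2 ≤ ∫ z, B * (ζ z ^ 2 * f i z ^ 2) := by
      apply integral_mono (hint i 2) (hi1.const_mul B)
      intro z
      show φ z * f i z ^ 2 ≤ B * (ζ z ^ 2 * f i z ^ 2)
      by_cases hz : z ∈ tsupport φ
      · rw [hζ3 z hz]
        have h6 : φ z ≤ B := (le_abs_self _).trans (hB z)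
        nlinarith [sq_nonneg (f i z)]
      · rw [image_eq_zero_of_notMem_tsupport hz, zero_mul]
        positivity
    rw [integral_const_mul] at h5
    have h6 : B * ∫ z, ζ z ^ 2 * f i z ^ 2 ≤ B * C := mul_le_mul_of_nonneg_left (hC i) hB0
    have h7 := le_abs_self (B * C)
    linarith
  set S : ℝ := |B * C| + 1 with hS
  have hS1 : 1 ≤ S := by
    have := abs_nonneg (B * C)
    linarith
  have hS0 : 0 < S := by linarith
  set D : ℝ := 10 * (10 / 3) ^ j with hD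
  have hD0 : 0 < D := by positivity
  set c₁ : ℝ := ε / D / S ^ (j + 2) with hc₁
  have hc0 : 0 < c₁ := by positivity
  set E : ℝ := (10 / 3) ^ j * S ^ j *
    (10 / 3 * ((j : ℝ) + 2) * S + ((j : ℝ) + 1) * A ^ 2 / c₁) with hE
  have hE0 : 0 ≤ E := by positivity
  set ε₁ : ℝ := ε / (E + 1) with hε₁
  have hε₁0 : 0 < ε₁ := by positivity
  have hEε : E * ε₁ ≤ ε := by
    rw [hε₁, mul_div_assoc', div_le_iff₀ (by positivity)]
    nlinarith
  set M : ℝ := A + D * S ^ (j + 3) / A ^ (j + 2) with hM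
  filter_upwards [hA V q h f hs hl φ hφ hφ0 M ε₁ hε₁0, hR φ hφ hφ0 ε₁ hε₁0] with i h1 h2
  by_contra hcon
  rw [not_le] at hcon
  set m : ℝ := ∫ z, φ z * f i z ^ 2 with hm
  set X : ℝ := ∫ z, φ z * f i z ^ (2 * (j + 3)) with hX
  have hm0 : 0 ≤ m := integral_nonneg fun z => mul_nonneg (hφ0 z) (sq_nonneg _)
  have hX0 : 0 ≤ X := integral_nonneg fun z => mul_nonneg (hφ0 z) (by rw [pow_mul]; positivity)
  have hmS : m ≤ S := h2le i
  have hmk : m ^ (j + 3) ≤ S ^ (j + 3) := pow_le_pow_left₀ hm0 hmS _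
  -- bound for `X`
  have hXM : X ≤ D * S ^ (j + 3) / A ^ (j + 2) := by
    rw [le_div_iff₀ (by positivity)]
    have h5 : D * m ^ (j + 3) ≤ D * S ^ (j + 3) := mul_le_mul_of_nonneg_left hmk hD0.le
    nlinarith
  have h6M : ∫ z, φ z * f i z ^ 6 ≤ M := by
    have h5 : ∫ z, φ z * f i z ^ 6 ≤ ∫ z, (φ z + φ z * f i z ^ (2 * (j + 3))) := by
      apply integral_mono (hint i 6) (hφi.add (hint i _))
      intro z
      show φ z * f i z ^ 6 ≤ φ z + φ z * f i z ^ (2 * (j + 3))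
      have h6 := pow3 (sq_nonneg (f i z)) j
      rw [← pow_mul, ← pow_mul] at h6
      have h7 := mul_le_mul_of_nonneg_left h6 (hφ0 z)
      calc φ z * f i z ^ 6 = φ z * f i z ^ (2 * 3) := by norm_num
        _ ≤ φ z * (1 + f i z ^ (2 * (j + 3))) := h7
        _ = _ := by ring
    rw [integral_add hφi (hint i _)] at h5
    rw [hM]
    linarith
  have h3 := h1 h6M
  -- lower bound for `m`
  have hmc : c₁ ≤ m := by
    have h5 : ε < D * m ^ (j + 3) := by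
      have h6 : 0 ≤ A ^ (j + 2) * X := by positivity
      linarith
    have h7 : ε / D < m ^ (j + 3) := by
      rw [div_lt_iff₀ hD0]
      linarith
    have h8 : m ^ (j + 3) ≤ m * S ^ (j + 2) := by
      have h9 : m ^ (j + 2) ≤ S ^ (j + 2) := pow_le_pow_left₀ hm0 hmS _
      calc m ^ (j + 3) = m * m ^ (j + 2) := by rw [pow_succ m (j + 2)]; ring
        _ ≤ m * S ^ (j + 2) := mul_le_mul_of_nonneg_left h9 hm0
    rw [hc₁, div_le_iff₀ (by positivity)]
    linarith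
  -- the tangent line inequality
  set r : ℝ := 10 / 3 * m / A with hr
  have hr0 : 0 ≤ r := by positivity
  have hT : ((j : ℝ) + 1) * r ^ j * (∫ z, φ z * f i z ^ 6) ≤
      X + j * r ^ (j + 1) * ∫ z, φ z * f i z ^ 4 := by
    have hle : ∫ z, ((j : ℝ) + 1) * r ^ j * (φ z * f i z ^ 6) ≤
        ∫ z, (φ z * f i z ^ (2 * (j + 3)) + j * r ^ (j + 1) * (φ z * f i z ^ 4)) := by
      apply integral_mono ((hint i 6).const_mul _) ((hint i _).add ((hint i 4).const_mul _))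
      intro z
      show ((j : ℝ) + 1) * r ^ j * (φ z * f i z ^ 6) ≤
        φ z * f i z ^ (2 * (j + 3)) + j * r ^ (j + 1) * (φ z * f i z ^ 4)
      have h5 := tang (sq_nonneg (f i z)) hr0 j
      have h6 := mul_le_mul_of_nonneg_left h5
        (mul_nonneg (hφ0 z) (by positivity : (0 : ℝ) ≤ f i z ^ 4))
      calc ((j : ℝ) + 1) * r ^ j * (φ z * f i z ^ 6) =
          φ z * f i z ^ 4 * (((j : ℝ) + 1) * r ^ j * f i z ^ 2) := by ring
        _ ≤ φ z * f i z ^ 4 * ((f i z ^ 2) ^ (j + 1) + j * r ^ (j + 1)) := h6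
        _ = φ z * f i z ^ (2 * (j + 3)) + j * r ^ (j + 1) * (φ z * f i z ^ 4) := by
          rw [← pow_mul, show 2 * (j + 3) = 4 + 2 * (j + 1) by ring, pow_add]
          ring
    rw [integral_const_mul, integral_add (hint i _) ((hint i 4).const_mul _),
      integral_const_mul] at hle
    exact hle
  have h4 := alg j hA1 hc0 hmc hmS hε₁0.le hr hT h3 h2 hEε
  linarith

end

end Pool.Agent.A54.B6
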