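import Pool.Agent.Lib.MP_a54f13_nt.B6.Spec

/-!
The local inequality `m_2 m_6 ≥ (10/9) m_4² - o(1)` (module Lo of the package B6).
-/

set_option autoImplicit false

namespace Pool.Agent.A54.B6

open MeasureTheory Filter Topology Set
open scoped ContDiff ComplexConjugate UpperHalfPlane MatrixGroups

noncomputable section

namespace LoM

variable {V : Set ℂ} {q : ℂ → ℝ}

/-- the moments -/
def mm (ζ f : ℂ → ℝ) (l : ℕ) : ℝ := ∫ z, ζ z ^ 8 * f z ^ l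

/-- the mixed moments -/
def II (ζ q : ℂ → ℝ) (h : ℝ) (f : ℂ → ℝ) (j : ℕ) : ℝ :=
  ∫ z, ζ z ^ 8 * (f z ^ (2 * j) * (‖gg h f 1 z‖ ^ 2 / q z))

lemma testR_pow {ζ : ℂ → ℝ} (hζ : TestR V ζ) (n : ℕ) (hn : n ≠ 0) :
    TestR V (fun z => ζ z ^ n) where
  smooth := hζ.smooth.pow n
  cpt := hζ.cpt.comp_left (g := fun x : ℝ => x ^ n) (zero_pow hn)
  sub := (tsupport_comp_subset (g := fun x : ℝ => x ^ n) (zero_pow hn) ζ).trans hζ.sub

lemma integrable8 {ζ : ℂ → ℝ} (hζ : TestR V ζ) {F : ℂ → ℝ} (hF : Continuous F) :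
    Integrable (fun z => ζ z ^ 8 * F z) :=
  Rel.integrable_testR (testR_pow hζ 8 (by norm_num)) hF

lemma continuous_N {f : ℂ → ℝ} (hq : Pot V q) (hf : ContDiff ℝ ∞ f) (h : ℝ) :
    Continuous (fun z => ‖gg h f 1 z‖ ^ 2 / q z) :=
  ((contDiff_gg hf h 1).continuous.norm.pow 2).div₀ hq.smooth.continuous
    fun z => (hq.pos z).ne'

lemma int3 {E F G H : ℂ → ℝ} (hF : Integrable F) (hG : Integrable G) (hH : Integrable H)
    (a b c : ℝ) (hE : ∀ z, E z = a * F z + b * G z + c * H z) :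
    ∫ z, E z = a * (∫ z, F z) + b * (∫ z, G z) + c * ∫ z, H z := by
  have e1 : ∫ z, E z = ∫ z, (a * F z + b * G z + c * H z) :=
    integral_congr_ae (Eventually.of_forall hE)
  have h1 : Integrable (fun z => a * F z) := hF.const_mul a
  have h2 : Integrable (fun z => b * G z) := hG.const_mul b
  have h3 : Integrable (fun z => c * H z) := hH.const_mul c
  have h12 : Integrable (fun z => a * F z + b * G z) := h1.add h2
  rw [e1, integral_add h12 h3, integral_add h1 h2, integral_const_mul, integral_const_mul,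
    integral_const_mul]

lemma expandL {ζ f : ℂ → ℝ} (hζ : TestR V ζ) (hq : Pot V q) (hf : ContDiff ℝ ∞ f) (h a b : ℝ) :
    ∫ z, ζ z ^ 8 * ((a + 3 * b * f z ^ 2) ^ 2 * (‖gg h f 1 z‖ ^ 2 / q z)) =
      a ^ 2 * II ζ q h f 0 + 6 * a * b * II ζ q h f 1 + 9 * b ^ 2 * II ζ q h f 2 := by
  have hN := continuous_N (q := q) hq hf h
  have hfc := hf.continuous
  have h0 : Integrable (fun z => ζ z ^ 8 * (f z ^ (2 * 0) * (‖gg h f 1 z‖ ^ 2 / q z))) :=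
    integrable8 hζ ((hfc.pow _).mul hN)
  have h1 : Integrable (fun z => ζ z ^ 8 * (f z ^ (2 * 1) * (‖gg h f 1 z‖ ^ 2 / q z))) :=
    integrable8 hζ ((hfc.pow _).mul hN)
  have h2 : Integrable (fun z => ζ z ^ 8 * (f z ^ (2 * 2) * (‖gg h f 1 z‖ ^ 2 / q z))) :=
    integrable8 hζ ((hfc.pow _).mul hN)
  exact int3 h0 h1 h2 _ _ _ fun z => by ring

lemma expandR {ζ f : ℂ → ℝ} (hζ : TestR V ζ) (hf : ContDiff ℝ ∞ f) (a b : ℝ) :
    ∫ z, ζ z ^ 8 * (a * f z + b * f z ^ 3) ^ 2 =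
      a ^ 2 * mm ζ f 2 + 2 * a * b * mm ζ f 4 + b ^ 2 * mm ζ f 6 := by
  have hfc := hf.continuous
  have h0 : Integrable (fun z => ζ z ^ 8 * f z ^ 2) := integrable8 hζ (hfc.pow _)
  have h1 : Integrable (fun z => ζ z ^ 8 * f z ^ 4) := integrable8 hζ (hfc.pow _)
  have h2 : Integrable (fun z => ζ z ^ 8 * f z ^ 6) := integrable8 hζ (hfc.pow _)
  exact int3 h0 h1 h2 _ _ _ fun z => by ring

lemma mm_nonneg {ζ f : ℂ → ℝ} (j : ℕ) : 0 ≤ mm ζ f (2 * j) := by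
  refine integral_nonneg fun z => ?_
  have h1 : (0 : ℝ) ≤ ζ z ^ 8 := by positivity
  have h2 : (0 : ℝ) ≤ f z ^ (2 * j) := by
    rw [pow_mul]
    positivity
  exact mul_nonneg h1 h2

lemma mm4_le {ζ f : ℂ → ℝ} (hζ : TestR V ζ) (hf : ContDiff ℝ ∞ f) :
    2 * mm ζ f 4 ≤ mm ζ f 2 + mm ζ f 6 := by
  have hfc := hf.continuous
  have h0 : Integrable (fun z => ζ z ^ 8 * f z ^ 2) := integrable8 hζ (hfc.pow _)
  have h1 : Integrable (fun z => ζ z ^ 8 * f z ^ 4) := integrable8 hζ (hfc.pow _)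
  have h2 : Integrable (fun z => ζ z ^ 8 * f z ^ 6) := integrable8 hζ (hfc.pow _)
  unfold mm
  rw [← integral_const_mul, ← integral_add h0 h2]
  refine integral_mono (h1.const_mul _) (h0.add h2) fun z => ?_
  simp only
  have e : ζ z ^ 8 * f z ^ 2 + ζ z ^ 8 * f z ^ 6 - 2 * (ζ z ^ 8 * f z ^ 4) =
      ζ z ^ 8 * (f z ^ 2 * (1 - f z ^ 2) ^ 2) := by ring
  have : 0 ≤ ζ z ^ 8 * (f z ^ 2 * (1 - f z ^ 2) ^ 2) := by positivity
  linarith

/-- the limit of the mixed moments -/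
lemma tendsto_II (hM : StmtMo) {h : ℕ → ℝ} {f : ℕ → ℂ → ℝ} {ζ : ℂ → ℝ} {M : ℝ}
    (hS : SB V q h f ζ M) (j : ℕ) (hj : j ≤ 2) {x : ℝ}
    (hx : Tendsto (fun i => mm ζ (f i) (2 * j + 2)) atTop (𝓝 x)) :
    Tendsto (fun i => II ζ q (h i) (f i) j) atTop (𝓝 (1 / (2 * (j : ℝ) + 1) * x)) := by
  have h1 := hM V q h f ζ M hS j hj
  have h2 := h1.add (hx.const_mul (1 / (2 * (j : ℝ) + 1)))
  rw [zero_add] at h2
  refine h2.congr fun i => ?_
  unfold II mm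
  ring

/-- the quadratic form of the limits is nonnegative -/
lemma form_nonneg (hB : StmtBn) (hM : StmtMo) {h : ℕ → ℝ} {f : ℕ → ℂ → ℝ} {ζ : ℂ → ℝ} {M : ℝ}
    (hS : SB V q h f ζ M) {x y w : ℝ}
    (hx : Tendsto (fun i => mm ζ (f i) 2) atTop (𝓝 x))
    (hy : Tendsto (fun i => mm ζ (f i) 4) atTop (𝓝 y))
    (hw : Tendsto (fun i => mm ζ (f i) 6) atTop (𝓝 w)) (a b : ℝ) :
    0 ≤ 8 * x * a ^ 2 + 16 * y * a * b + 36 / 5 * w * b ^ 2 := by
  have t0 := tendsto_II hM hS 0 (by norm_num) hx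
  have t1 := tendsto_II hM hS 1 (by norm_num) hy
  have t2 := tendsto_II hM hS 2 (by norm_num) hw
  have key : a ^ 2 * (1 / (2 * ((0 : ℕ) : ℝ) + 1) * x) +
      6 * a * b * (1 / (2 * ((1 : ℕ) : ℝ) + 1) * y) +
      9 * b ^ 2 * (1 / (2 * ((2 : ℕ) : ℝ) + 1) * w) ≤
      9 * (a ^ 2 * x + 2 * a * b * y + b ^ 2 * w) := by
    refine le_of_forall_pos_le_add fun η hη => ?_
    have hL := ((t0.const_mul (a ^ 2)).add (t1.const_mul (6 * a * b))).add
      (t2.const_mul (9 * b ^ 2))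
    have hR := (((((hx.const_mul (a ^ 2)).add (hy.const_mul (2 * a * b))).add
      (hw.const_mul (b ^ 2))).const_mul 9).add_const η)
    refine le_of_tendsto_of_tendsto hL hR ?_
    filter_upwards [hB V q h f ζ M hS a b η hη] with i hi
    rw [expandL hS.tz hS.seq.pot (hS.seq.sol i).smooth,
      expandR hS.tz (hS.seq.sol i).smooth] at hi
    exact hi
  push_cast at key
  linarith

lemma alg {x y w : ℝ} (hq : ∀ a b : ℝ, 0 ≤ 8 * x * a ^ 2 + 16 * y * a * b + 36 / 5 * w * b ^ 2) :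
    10 / 9 * y ^ 2 ≤ x * w := by
  have h1 : ∀ a : ℝ, 0 ≤ (8 * x) * (a * a) + (16 * y) * a + 36 / 5 * w := by
    intro a
    have := hq a 1
    linarith
  have h2 := discrim_le_zero h1
  unfold discrim at h2
  linarith

end LoM

open LoM

theorem stmtLo (hB : StmtBn) (hM : StmtMo) : StmtLo := by
  intro V q h f hS hL ζ hζ hζ0 M ε hε
  by_contra hcon
  have hfr : ∃ᶠ i in atTop, mm ζ (f i) 6 ≤ M ∧
      mm ζ (f i) 2 * mm ζ (f i) 6 < 10 / 9 * mm ζ (f i) 4 ^ 2 - ε := by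
    rw [Filter.not_eventually] at hcon
    refine hcon.mono fun i hi => ?_
    rw [Classical.not_imp, not_le] at hi
    exact hi
  obtain ⟨τ, hτ, hP⟩ := extraction_of_frequently_atTop hfr
  obtain ⟨C, hC⟩ := hL (fun z => ζ z ^ 4) (testR_pow hζ 4 (by norm_num))
  have h2 : ∀ i, mm ζ (f i) 2 ≤ C := by
    intro i
    refine le_trans (le_of_eq ?_) (hC i)
    unfold mm
    refine integral_congr_ae (Eventually.of_forall fun z => ?_)
    simp only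
    ring
  have n2 : ∀ i, 0 ≤ mm ζ (f i) 2 := fun i => mm_nonneg 1
  have n4 : ∀ i, 0 ≤ mm ζ (f i) 4 := fun i => mm_nonneg 2
  have n6 : ∀ i, 0 ≤ mm ζ (f i) 6 := fun i => mm_nonneg 3
  have hmem : ∀ n, ((mm ζ (f (τ n)) 2, mm ζ (f (τ n)) 4, mm ζ (f (τ n)) 6) : ℝ × ℝ × ℝ) ∈
      Icc (0 : ℝ) C ×ˢ (Icc (0 : ℝ) ((C + M) / 2) ×ˢ Icc (0 : ℝ) M) := by
    intro n
    have h4 := mm4_le hζ (hS.sol (τ n)).smooth
    have h6 := (hP n).1
    have h2' := h2 (τ n)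
    refine ⟨⟨n2 _, h2 _⟩, ⟨n4 _, ?_⟩, ⟨n6 _, h6⟩⟩
    simp only
    linarith
  obtain ⟨⟨x, y, w⟩, -, φ, hφ, hlim⟩ :=
    (isCompact_Icc.prod (isCompact_Icc.prod isCompact_Icc)).tendsto_subseq hmem
  have hx : Tendsto (fun n => mm ζ (f (τ (φ n))) 2) atTop (𝓝 x) := hlim.fst_nhds
  have hy : Tendsto (fun n => mm ζ (f (τ (φ n))) 4) atTop (𝓝 y) := hlim.snd_nhds.fst_nhds
  have hw : Tendsto (fun n => mm ζ (f (τ (φ n))) 6) atTop (𝓝 w) := hlim.snd_nhds.snd_nhds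
  have hSB : SB V q (fun n => h (τ (φ n))) (fun n => f (τ (φ n))) ζ M :=
    { seq := LocGen.Seq.sub (σ := fun n => τ (φ n)) hS hS.pot.isOpen Subset.rfl
        (hτ.comp hφ).tendsto_atTop
      l2 := fun ζ₁ hζ₁ => by
        obtain ⟨C₁, hC₁⟩ := hL ζ₁ hζ₁
        exact ⟨C₁, fun i => hC₁ _⟩
      tz := hζ
      z0 := hζ0
      bd := fun n => (hP (φ n)).1 }
  have h1 := alg (form_nonneg hB hM hSB hx hy hw)
  have h3 : x * w ≤ 10 / 9 * y ^ 2 - ε := by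
    refine le_of_tendsto_of_tendsto' (hx.mul hw) (((hy.pow 2).const_mul (10 / 9)).sub_const ε)
      fun n => ?_
    exact (hP (φ n)).2.le
  linarith

end

end Pool.Agent.A54.B6
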