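import Pool.Agent.Lib.MP_a54f13_nt.B6.Spec

/-!
# Rough bound for the iterated derivatives of `a f + b f³`
-/

set_option autoImplicit false

namespace Pool.Agent.A54.B6

open MeasureTheory Filter Topology Set
open scoped ContDiff ComplexConjugate UpperHalfPlane MatrixGroups

noncomputable section

namespace LrM

lemma smooth_it {u : ℂ → ℂ} (hu : ContDiff ℝ ∞ u) (h : ℝ) (n : ℕ) : ContDiff ℝ ∞ (it h u n) := by
  induction n with
  | zero => exact hu
  | succ n ih => exact contDiff_const.mul (contDiff_dz ih)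

lemma it_add {u v : ℂ → ℂ} (hu : ContDiff ℝ ∞ u) (hv : ContDiff ℝ ∞ v) (h : ℝ) (n : ℕ) :
    it h (fun z => u z + v z) n = fun z => it h u n z + it h v n z := by
  induction n with
  | zero => rfl
  | succ n ih =>
    funext z
    show (h : ℂ) * dz (it h (fun z => u z + v z) n) z = _
    rw [ih, dz_add (smooth_it hu h n) (smooth_it hv h n), mul_add]
    rfl

lemma it_cmul {u : ℂ → ℂ} (hu : ContDiff ℝ ∞ u) (c : ℂ) (h : ℝ) (n : ℕ) :
    it h (fun z => c * u z) n = fun z => c * it h u n z := by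
  induction n with
  | zero => rfl
  | succ n ih =>
    funext z
    show (h : ℂ) * dz (it h (fun z => c * u z) n) z = c * ((h : ℂ) * dz (it h u n) z)
    rw [ih, dz_const_mul c (smooth_it hu h n)]
    ring

lemma it_succ' (u : ℂ → ℂ) (h : ℝ) (n : ℕ) :
    it h u (n + 1) = it h (fun z => (h : ℂ) * dz u z) n := by
  induction n with
  | zero => rfl
  | succ n ih =>
    funext z
    show (h : ℂ) * dz (it h u (n + 1)) z = (h : ℂ) * dz (it h (fun z => (h : ℂ) * dz u z) n) z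
    rw [ih]

lemma it_gg (f : ℂ → ℝ) (h : ℝ) (n : ℕ) : it h (fun z => (f z : ℂ)) n = gg h f n := by
  induction n with
  | zero => rfl
  | succ n ih =>
    funext z
    show (h : ℂ) * dz (it h (fun z => (f z : ℂ)) n) z = (h : ℂ) * dz (gg h f n) z
    rw [ih]

/-- size of the `n`-th derivative, with its derivative -/
def NN (h : ℝ) (u : ℂ → ℂ) (n : ℕ) (z : ℂ) : ℝ := ‖it h u n z‖ + h * ‖fderiv ℝ (it h u n) z‖

lemma NN_nonneg {h : ℝ} (hh : 0 ≤ h) (u : ℂ → ℂ) (n : ℕ) (z : ℂ) : 0 ≤ NN h u n z :=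
  add_nonneg (norm_nonneg _) (mul_nonneg hh (norm_nonneg _))

lemma NN_add {h : ℝ} (hh : 0 ≤ h) {u v : ℂ → ℂ} (hu : ContDiff ℝ ∞ u) (hv : ContDiff ℝ ∞ v)
    (n : ℕ) (z : ℂ) : NN h (fun z => u z + v z) n z ≤ NN h u n z + NN h v n z := by
  unfold NN
  rw [it_add hu hv, fderiv_fun_add (diffAt (smooth_it hu h n)) (diffAt (smooth_it hv h n))]
  have h1 := norm_add_le (it h u n z) (it h v n z)
  have h2 := mul_le_mul_of_nonneg_left
    (norm_add_le (fderiv ℝ (it h u n) z) (fderiv ℝ (it h v n) z)) hh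
  linarith

lemma NN_cmul {h : ℝ} {u : ℂ → ℂ} (hu : ContDiff ℝ ∞ u) (c : ℂ)
    (n : ℕ) (z : ℂ) : NN h (fun z => c * u z) n z = ‖c‖ * NN h u n z := by
  unfold NN
  rw [it_cmul hu c, fderiv_const_mul (diffAt (smooth_it hu h n)), norm_mul, norm_smul]
  ring

lemma NN_mul0 {h : ℝ} (hh : 0 ≤ h) {u v : ℂ → ℂ} (hu : ContDiff ℝ ∞ u) (hv : ContDiff ℝ ∞ v)
    (z : ℂ) : NN h (fun z => u z * v z) 0 z ≤ NN h u 0 z * NN h v 0 z := by
  show ‖u z * v z‖ + h * ‖fderiv ℝ (fun z => u z * v z) z‖ ≤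
    (‖u z‖ + h * ‖fderiv ℝ u z‖) * (‖v z‖ + h * ‖fderiv ℝ v z‖)
  rw [fderiv_fun_mul (diffAt hu) (diffAt hv), norm_mul]
  have h1 : ‖u z • fderiv ℝ v z + v z • fderiv ℝ u z‖ ≤
      ‖u z‖ * ‖fderiv ℝ v z‖ + ‖v z‖ * ‖fderiv ℝ u z‖ := by
    refine (norm_add_le _ _).trans ?_
    rw [norm_smul, norm_smul]
  have h2 := mul_le_mul_of_nonneg_left h1 hh
  have h3 : 0 ≤ h * ‖fderiv ℝ u z‖ * (h * ‖fderiv ℝ v z‖) := by positivity
  nlinarith [h2, h3]

/-- the product -/
lemma prodBound {h : ℝ} (hh : 0 ≤ h) (z : ℂ) (m : ℕ) : ∀ (u v : ℂ → ℂ), ContDiff ℝ ∞ u →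
    ContDiff ℝ ∞ v → ∀ (A B : ℝ), (∀ j ≤ m, NN h u j z ≤ A) → (∀ j ≤ m, NN h v j z ≤ B) →
    NN h (fun z => u z * v z) m z ≤ 2 ^ m * (A * B) := by
  induction m with
  | zero =>
    intro u v hu hv A B hA hB
    have h1 := hA 0 le_rfl
    have h2 := hB 0 le_rfl
    have h3 := NN_nonneg hh u 0 z
    have h4 := NN_nonneg hh v 0 z
    have h5 := NN_mul0 hh hu hv z
    have h6 : NN h u 0 z * NN h v 0 z ≤ A * B := mul_le_mul h1 h2 h4 (h3.trans h1)
    rw [pow_zero, one_mul]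
    exact h5.trans h6
  | succ m ih =>
    intro u v hu hv A B hA hB
    have su : ContDiff ℝ ∞ (fun z => (h : ℂ) * dz u z) := contDiff_const.mul (contDiff_dz hu)
    have sv : ContDiff ℝ ∞ (fun z => (h : ℂ) * dz v z) := contDiff_const.mul (contDiff_dz hv)
    have e1 : (fun z => (h : ℂ) * dz (fun z => u z * v z) z) =
        fun z => ((h : ℂ) * dz u z) * v z + u z * ((h : ℂ) * dz v z) := by
      funext w
      rw [dz_mul hu hv]
      ring
    have e2 : NN h (fun z => u z * v z) (m + 1) z =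
        NN h (fun z => ((h : ℂ) * dz u z) * v z + u z * ((h : ℂ) * dz v z)) m z := by
      unfold NN
      rw [it_succ', e1]
    have e3 : ∀ j ≤ m, NN h (fun z => (h : ℂ) * dz u z) j z ≤ A := by
      intro j hj
      have h1 := hA (j + 1) (by omega)
      unfold NN at h1
      rw [it_succ'] at h1
      exact h1
    have e4 : ∀ j ≤ m, NN h (fun z => (h : ℂ) * dz v z) j z ≤ B := by
      intro j hj
      have h1 := hB (j + 1) (by omega)
      unfold NN at h1
      rw [it_succ'] at h1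
      exact h1
    have i1 := ih (fun z => (h : ℂ) * dz u z) v su hv A B e3 (fun j hj => hB j (by omega))
    have i2 := ih u (fun z => (h : ℂ) * dz v z) hu sv A B (fun j hj => hA j (by omega)) e4
    have i3 := NN_add hh (su.mul hv) (hu.mul sv) m z
    rw [e2]
    refine i3.trans ?_
    rw [pow_succ]
    linarith

end LrM

open LrM in
/-- **Lr** rough bound, with derivatives. -/
theorem stmtLr (hE : StmtErr) : StmtLr := by
  intro V q hP K hK hKV a b n
  -- bound for `f`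
  have hC : ∀ j : ℕ, ∃ C : ℝ, 0 ≤ C ∧ ∀ (h : ℝ) (f : ℂ → ℝ), Sol V q h f → ∀ z ∈ K,
      NN h (fun z => (f z : ℂ)) j z ≤ C * sm h f (j + 1) z := by
    intro j
    obtain ⟨C, hC0, hC⟩ := L4.fderiv_gg hE hP j hK hKV
    refine ⟨1 + C, by positivity, fun h f hf z hz => ?_⟩
    have h1 := hC h f hf z hz
    have h2 := L4.gg_le_sm (h := h) (f := f) (Nat.le_succ j) z
    unfold NN
    rw [it_gg]
    have h3 : ‖gg h f j z‖ ≤ sm h f (j + 1) z := h2
    linarith
  choose C hC0 hC1 using hC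
  set D : ℝ := ∑ j ∈ Finset.range (n + 1), C j with hD
  have hD0 : 0 ≤ D := Finset.sum_nonneg fun j _ => hC0 j
  have hCD : ∀ j ≤ n, C j ≤ D := fun j hj =>
    Finset.single_le_sum (f := C) (fun i _ => hC0 i) (Finset.mem_range.2 (by omega))
  set M : ℝ := |a| * D + |b| * (4 ^ n * D ^ 3) with hM
  have hM0 : 0 ≤ M := by positivity
  refine ⟨M ^ 2, by positivity, fun h f hf z hz => ?_⟩
  have hh := hf.hpos.le
  have hsm : ∀ j ≤ n, sm h f (j + 1) z ≤ sm h f (n + 1) z := fun j hj =>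
    Finset.sum_le_sum_of_subset_of_nonneg (Finset.range_mono (by omega))
      fun _ _ _ => norm_nonneg _
  set S : ℝ := sm h f (n + 1) z with hS
  have hS0 : 0 ≤ S := L4.sm_nonneg h f (n + 1) z
  have sf : ContDiff ℝ ∞ (fun z => (f z : ℂ)) := contDiff_ofReal hf.smooth
  have hf1 : ∀ j ≤ n, NN h (fun z => (f z : ℂ)) j z ≤ D * S := by
    intro j hj
    refine (hC1 j h f hf z hz).trans ?_
    exact mul_le_mul (hCD j hj) (hsm j hj) (L4.sm_nonneg h f _ z) hD0
  have hf2 : ∀ j ≤ n, NN h (fun z => (f z : ℂ) * (f z : ℂ)) j z ≤ 2 ^ n * ((D * S) * (D * S)) := by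
    intro j hj
    have h1 := prodBound hh z j _ _ sf sf (D * S) (D * S) (fun i hi => hf1 i (hi.trans hj))
      (fun i hi => hf1 i (hi.trans hj))
    refine h1.trans ?_
    refine mul_le_mul_of_nonneg_right ?_ (by positivity)
    exact pow_le_pow_right₀ (by norm_num) hj
  have hf3 : NN h (fun z => ((f z : ℂ) * (f z : ℂ)) * (f z : ℂ)) n z ≤
      2 ^ n * ((2 ^ n * ((D * S) * (D * S))) * (D * S)) :=
    prodBound hh z n _ _ (sf.mul sf) sf _ _ hf2 hf1
  have hu : uu a b f = fun z => (a : ℂ) * (f z : ℂ) + (b : ℂ) * (((f z : ℂ) * (f z : ℂ)) * (f z : ℂ)) := by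
    funext w
    unfold uu
    push_cast
    ring
  have hN : NN h (uu a b f) n z ≤ M * (S * (1 + S ^ 2)) := by
    rw [hu]
    refine (NN_add hh (contDiff_const.mul sf) (contDiff_const.mul ((sf.mul sf).mul sf)) n z).trans ?_
    rw [NN_cmul sf, NN_cmul ((sf.mul sf).mul sf), Complex.norm_real, Complex.norm_real,
      Real.norm_eq_abs, Real.norm_eq_abs]
    have h1 := mul_le_mul_of_nonneg_left (hf1 n le_rfl) (abs_nonneg a)
    have h2 := mul_le_mul_of_nonneg_left hf3 (abs_nonneg b)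
    have e1 : (2 : ℝ) ^ n * ((2 ^ n * ((D * S) * (D * S))) * (D * S)) = 4 ^ n * D ^ 3 * S ^ 3 := by
      have h4 : (4 : ℝ) ^ n = 2 ^ n * 2 ^ n := by
        rw [← mul_pow]
        norm_num
      rw [h4]
      ring
    rw [e1] at h2
    refine (add_le_add h1 h2).trans ?_
    rw [hM]
    have h5 : 0 ≤ |a| * D * S ^ 3 := by positivity
    have h6 : 0 ≤ |b| * (4 ^ n * D ^ 3) * S := by positivity
    nlinarith [h5, h6]
  have hN0 := NN_nonneg hh (uu a b f) n z
  have hfin : NN h (uu a b f) n z ^ 2 ≤ M ^ 2 * (1 + S ^ 2) ^ 3 := by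
    have h1 : NN h (uu a b f) n z ^ 2 ≤ (M * (S * (1 + S ^ 2))) ^ 2 := pow_le_pow_left₀ hN0 hN 2
    refine h1.trans ?_
    rw [mul_pow]
    refine mul_le_mul_of_nonneg_left ?_ (by positivity)
    have h2 : (S * (1 + S ^ 2)) ^ 2 = S ^ 2 * (1 + S ^ 2) ^ 2 := by ring
    have h3 : (1 + S ^ 2) ^ 3 = (1 + S ^ 2) * (1 + S ^ 2) ^ 2 := by ring
    rw [h2, h3]
    refine mul_le_mul_of_nonneg_right ?_ (by positivity)
    linarith
  exact hfin

end

end Pool.Agent.A54.B6
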