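import Pool.Agent.Lib.MP_a54f13_nt.B6.Spec

/-!
# Package `B6`: moment identities
-/

set_option autoImplicit false

namespace Pool.Agent.A54.B6

open MeasureTheory Filter Topology Set
open scoped ContDiff ComplexConjugate UpperHalfPlane MatrixGroups

noncomputable section

namespace MoM

variable {V : Set ℂ} {q : ℂ → ℝ}

/-- The derivative of a power. -/
lemma dzb_pow {a : ℂ → ℂ} (ha : ContDiff ℝ ∞ a) (n : ℕ) (z : ℂ) :
    dzb (fun w => a w ^ (n + 1)) z = ((n : ℂ) + 1) * a z ^ n * dzb a z := by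
  induction n with
  | zero => simp
  | succ n ih =>
    have h1 : (fun w => a w ^ (n + 1 + 1)) = fun w => a w ^ (n + 1) * a w := by
      ext w
      rw [pow_succ]
    rw [h1, dzb_mul (ha.pow (n + 1)) ha, ih]
    push_cast
    ring

/-- `conj g_1 = h ∂̄f` -/
lemma conj_gg {f : ℂ → ℝ} (hf : ContDiff ℝ ∞ f) (h : ℝ) (z : ℂ) :
    conj (gg h f 1 z) = (h : ℂ) * dzb (fun w => (f w : ℂ)) z := by
  have h1 : gg h f 1 z = (h : ℂ) * dz (fun w => (f w : ℂ)) z := rfl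
  have h2 : (fun w => conj ((f w : ℝ) : ℂ)) = fun w => ((f w : ℝ) : ℂ) := by
    ext w
    rw [Complex.conj_ofReal]
  have h3 := dzb_conj (z := z) (contDiff_ofReal hf)
  rw [h2] at h3
  rw [h1, map_mul, Complex.conj_ofReal, ← h3]

/-- The weight `ζ⁸/q`. -/
def ps (ζ q : ℂ → ℝ) (z : ℂ) : ℂ := (ζ z : ℂ) ^ 8 * (((q z)⁻¹ : ℝ) : ℂ)

lemma contDiff_qi (hP : Pot V q) : ContDiff ℝ ∞ (fun z => (((q z)⁻¹ : ℝ) : ℂ)) :=
  contDiff_ofReal (hP.smooth.inv fun z => (hP.pos z).ne')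

lemma contDiff_ps (hP : Pot V q) {ζ : ℂ → ℝ} (hζ : TestR V ζ) : ContDiff ℝ ∞ (ps ζ q) :=
  ((contDiff_ofReal hζ.smooth).pow 8).mul (contDiff_qi hP)

lemma cpt_ps {ζ : ℂ → ℝ} (hζ : TestR V ζ) : HasCompactSupport (ps ζ q) := by
  have h1 : HasCompactSupport (fun z => (ζ z : ℂ) ^ 8) :=
    hζ.cpt.comp_left (g := fun x : ℝ => (x : ℂ) ^ 8) (by simp)
  exact h1.mul_right

/-- `|∂̄(ζ⁸/q)| ≤ C ζ⁷` -/
lemma dzb_ps_le (hP : Pot V q) {ζ : ℂ → ℝ} (hζ : TestR V ζ) (h0 : ∀ z, 0 ≤ ζ z) :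
    ∃ C : ℝ, 0 ≤ C ∧ ∀ z, ‖dzb (ps ζ q) z‖ ≤ C * ζ z ^ 7 := by
  have hz := contDiff_ofReal hζ.smooth
  have hq := contDiff_qi hP
  set G : ℂ → ℂ := fun z => 8 * dzb (fun w => (ζ w : ℂ)) z * (((q z)⁻¹ : ℝ) : ℂ) +
    (ζ z : ℂ) * dzb (fun w => (((q w)⁻¹ : ℝ) : ℂ)) z with hG
  have hGc : Continuous G :=
    ((continuous_const.mul (contDiff_dzb hz).continuous).mul hq.continuous).add
      (hz.continuous.mul (contDiff_dzb hq).continuous)
  have hG0 : ∀ z, z ∉ tsupport (fun w => (ζ w : ℂ)) → G z = 0 := by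
    intro z hzn
    have h1 : (ζ z : ℂ) = 0 := image_eq_zero_of_notMem_tsupport (f := fun w => (ζ w : ℂ)) hzn
    simp only [hG]
    rw [dzb_eq_zero_of_notMem hzn, h1]
    ring
  have hc : IsCompact (tsupport (fun w => (ζ w : ℂ))) := hζ.toTest.cpt
  obtain ⟨C, hC⟩ := hc.exists_bound_of_continuousOn hGc.continuousOn
  refine ⟨|C|, abs_nonneg C, fun z => ?_⟩
  have h1 : dzb (ps ζ q) z = (ζ z : ℂ) ^ 7 * G z := by
    unfold ps
    rw [dzb_mul (hz.pow 8) hq, dzb_pow hz 7 z]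
    simp only [hG]
    push_cast
    ring
  have h2 : ‖G z‖ ≤ |C| := by
    by_cases hzn : z ∈ tsupport (fun w => (ζ w : ℂ))
    · exact (hC z hzn).trans (le_abs_self C)
    · rw [hG0 z hzn, norm_zero]
      exact abs_nonneg C
  rw [h1, norm_mul, norm_pow, Complex.norm_real, Real.norm_of_nonneg (h0 z), mul_comm]
  exact mul_le_mul_of_nonneg_right h2 (pow_nonneg (h0 z) 7)

/-- The identity, with the error term. -/
lemma key (hP : Pot V q) {ζ : ℂ → ℝ} (hζ : TestR V ζ) {h : ℝ} {f : ℂ → ℝ} (hS : Sol V q h f)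
    (j : ℕ) :
    (2 * (j : ℂ) + 1) * ∫ z, (ζ z : ℂ) ^ 8 * ((f z : ℂ) ^ (2 * j) *
        ((‖gg h f 1 z‖ : ℂ) ^ 2 / (q z : ℂ))) =
      (∫ z, (ζ z : ℂ) ^ 8 * (f z : ℂ) ^ (2 * j + 2)) -
        (h : ℂ) * ∫ z, dzb (ps ζ q) z * (gg h f 1 z * (f z : ℂ) ^ (2 * j + 1)) := by
  have hf := contDiff_ofReal hS.smooth
  have hg := contDiff_gg hS.smooth h 1
  have hp := contDiff_ps hP hζ
  have hcp : HasCompactSupport (ps ζ q) := cpt_ps hζ
  have hpg : ContDiff ℝ ∞ (fun z => ps ζ q z * gg h f 1 z) := hp.mul hg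
  have hpc : HasCompactSupport (fun z => ps ζ q z * gg h f 1 z) := hcp.mul_right
  have hibp := integral_mul_dzb hpg (hf.pow (2 * j + 1)) (Or.inl hpc)
  -- left side
  have e1 : ∀ z, (h : ℂ) * (ps ζ q z * gg h f 1 z * dzb (fun w => (f w : ℂ) ^ (2 * j + 1)) z) =
      (2 * (j : ℂ) + 1) * ((ζ z : ℂ) ^ 8 * ((f z : ℂ) ^ (2 * j) *
        ((‖gg h f 1 z‖ : ℂ) ^ 2 / (q z : ℂ)))) := by
    intro z
    have h1 : gg h f 1 z * conj (gg h f 1 z) = (‖gg h f 1 z‖ : ℂ) ^ 2 := Complex.mul_conj' _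
    rw [dzb_pow hf (2 * j) z, ← h1, conj_gg hS.smooth]
    unfold ps
    push_cast
    rw [div_eq_mul_inv]
    ring
  have e2 : ∫ z, (2 * (j : ℂ) + 1) * ((ζ z : ℂ) ^ 8 * ((f z : ℂ) ^ (2 * j) *
        ((‖gg h f 1 z‖ : ℂ) ^ 2 / (q z : ℂ)))) =
      (h : ℂ) * ∫ z, ps ζ q z * gg h f 1 z * dzb (fun w => (f w : ℂ) ^ (2 * j + 1)) z := by
    rw [← integral_const_mul]
    exact integral_congr_ae (Eventually.of_forall fun z => (e1 z).symm)
  rw [← integral_const_mul, e2, hibp]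
  -- right side
  have e3 : ∀ z, (h : ℂ) * (dzb (fun z => ps ζ q z * gg h f 1 z) z * (f z : ℂ) ^ (2 * j + 1)) =
      (h : ℂ) * (dzb (ps ζ q) z * (gg h f 1 z * (f z : ℂ) ^ (2 * j + 1))) -
        (ζ z : ℂ) ^ 8 * (f z : ℂ) ^ (2 * j + 2) := by
    intro z
    rw [dzb_mul hp hg]
    have h1 : (h : ℂ) * (ps ζ q z * dzb (gg h f 1) z) = -((ζ z : ℂ) ^ 8 * (f z : ℂ)) := by
      by_cases hz : z ∈ V
      · have h2 := hS.eq z hz
        have h3 : (q z : ℂ) ≠ 0 := by exact_mod_cast (hP.pos z).ne'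
        calc (h : ℂ) * (ps ζ q z * dzb (gg h f 1) z)
            = ps ζ q z * ((h : ℂ) * dzb (gg h f 1) z) := by ring
          _ = -((ζ z : ℂ) ^ 8 * (f z : ℂ)) := by
              rw [h2]
              unfold ps
              push_cast
              field_simp
      · have h2 : (ζ z : ℂ) = 0 := by
          rw [hζ.eq_zero hz, Complex.ofReal_zero]
        unfold ps
        rw [h2]
        ring
    calc (h : ℂ) * ((dzb (ps ζ q) z * gg h f 1 z + ps ζ q z * dzb (gg h f 1) z) *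
          (f z : ℂ) ^ (2 * j + 1))
        = (h : ℂ) * (dzb (ps ζ q) z * (gg h f 1 z * (f z : ℂ) ^ (2 * j + 1))) +
          ((h : ℂ) * (ps ζ q z * dzb (gg h f 1) z)) * (f z : ℂ) ^ (2 * j + 1) := by ring
      _ = _ := by
          rw [h1]
          ring
  have i1 : Integrable (fun z => (h : ℂ) *
      (dzb (ps ζ q) z * (gg h f 1 z * (f z : ℂ) ^ (2 * j + 1)))) := by
    refine Integrable.const_mul ?_ _
    exact integrable_of_cpt ((contDiff_dzb hp).continuous.mul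
      (hg.continuous.mul (hf.continuous.pow _))) (hasCompactSupport_dzb hcp).mul_right
  have i2 : Integrable (fun z => (ζ z : ℂ) ^ 8 * (f z : ℂ) ^ (2 * j + 2)) := by
    have h1 : HasCompactSupport (fun z => (ζ z : ℂ) ^ 8) :=
      hζ.cpt.comp_left (g := fun x : ℝ => (x : ℂ) ^ 8) (by simp)
    exact integrable_of_cpt (((contDiff_ofReal hζ.smooth).continuous.pow 8).mul
      (hf.continuous.pow _)) h1.mul_right
  have e4 : (h : ℂ) * ∫ z, dzb (fun z => ps ζ q z * gg h f 1 z) z * (f z : ℂ) ^ (2 * j + 1) =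
      ((h : ℂ) * ∫ z, dzb (ps ζ q) z * (gg h f 1 z * (f z : ℂ) ^ (2 * j + 1))) -
        ∫ z, (ζ z : ℂ) ^ 8 * (f z : ℂ) ^ (2 * j + 2) := by
    rw [← integral_const_mul, ← integral_const_mul, ← integral_sub i1 i2]
    exact integral_congr_ae (Eventually.of_forall fun z => e3 z)
  rw [mul_neg, e4]
  ring

/-- Bound for the integrand of the error term. -/
lemma pow_bd {s x y : ℝ} {j : ℕ} (hj : j ≤ 2) (hx : 0 ≤ x) (hy : 0 ≤ y) (hxs : x ≤ s)
    (hys : y ≤ s) : x * y ^ (2 * j + 1) ≤ (1 + s ^ 2) ^ 3 := by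
  have hs : 0 ≤ s := hx.trans hxs
  calc x * y ^ (2 * j + 1) ≤ s * s ^ (2 * j + 1) :=
        mul_le_mul hxs (pow_le_pow_left₀ hy hys _) (pow_nonneg hy _) hs
    _ = (s ^ 2) ^ (j + 1) := by ring
    _ ≤ (1 + s ^ 2) ^ (j + 1) := pow_le_pow_left₀ (sq_nonneg s) (by linarith) _
    _ ≤ (1 + s ^ 2) ^ 3 := pow_le_pow_right₀ (by nlinarith [sq_nonneg s]) (by omega)

end MoM

open MoM in
/-- Moment identities. -/
theorem stmtMo (hN : StmtNs) : StmtMo := by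
  intro V q h f ζ M hS j hj
  have hP := hS.seq.pot
  obtain ⟨C, hC0, hC⟩ := dzb_ps_le hP hS.tz hS.z0
  have hlim := (hN V q h f ζ M hS 1).2
  have hlim2 : Tendsto (fun i => C * (h i * ∫ z, ζ z ^ 7 *
      (1 + sm (h i) (f i) 1 z ^ 2) ^ 3)) atTop (𝓝 0) := by
    have := hlim.const_mul C
    rwa [mul_zero] at this
  rw [tendsto_zero_iff_norm_tendsto_zero]
  refine squeeze_zero (fun i => norm_nonneg _) (fun i => ?_) hlim2
  have hsol := hS.seq.sol i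
  have hh := hsol.hpos
  set E : ℂ := ∫ z, dzb (ps ζ q) z * (gg (h i) (f i) 1 z * (f i z : ℂ) ^ (2 * j + 1)) with hE
  set A : ℝ := ∫ z, ζ z ^ 8 * (f i z ^ (2 * j) * (‖gg (h i) (f i) 1 z‖ ^ 2 / q z)) with hA
  set B : ℝ := ∫ z, ζ z ^ 8 * f i z ^ (2 * j + 2) with hB
  have hk := key hP hS.tz hsol j
  have hA' : ∫ z, (ζ z : ℂ) ^ 8 * ((f i z : ℂ) ^ (2 * j) *
      ((‖gg (h i) (f i) 1 z‖ : ℂ) ^ 2 / (q z : ℂ))) = (A : ℂ) := by
    rw [hA, ← integral_complex_ofReal]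
    refine integral_congr_ae (Eventually.of_forall fun z => ?_)
    push_cast
    rfl
  have hB' : ∫ z, (ζ z : ℂ) ^ 8 * (f i z : ℂ) ^ (2 * j + 2) = (B : ℂ) := by
    rw [hB, ← integral_complex_ofReal]
    refine integral_congr_ae (Eventually.of_forall fun z => ?_)
    push_cast
    rfl
  rw [hA', hB', ← hE] at hk
  have hj0 : (0 : ℝ) < 2 * (j : ℝ) + 1 := by positivity
  have hnorm : (2 * (j : ℝ) + 1) * ‖A - 1 / (2 * (j : ℝ) + 1) * B‖ = h i * ‖E‖ := by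
    have h1 : (((2 * (j : ℝ) + 1) * (A - 1 / (2 * (j : ℝ) + 1) * B) : ℝ) : ℂ) =
        -((h i : ℂ) * E) := by
      have h2 : (2 * (j : ℝ) + 1) * (A - 1 / (2 * (j : ℝ) + 1) * B) =
          (2 * (j : ℝ) + 1) * A - B := by
        field_simp
      rw [h2]
      push_cast
      rw [hk]
      ring
    have h3 := congrArg norm h1
    rw [Complex.norm_real, norm_neg, norm_mul, norm_mul, Complex.norm_real,
      Real.norm_of_nonneg hj0.le, Real.norm_of_nonneg hh.le] at h3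
    exact h3
  have hEb : ‖E‖ ≤ C * ∫ z, ζ z ^ 7 * (1 + sm (h i) (f i) 1 z ^ 2) ^ 3 := by
    have hint : Integrable (fun z => ζ z ^ 7 * (1 + sm (h i) (f i) 1 z ^ 2) ^ 3) := by
      refine Continuous.integrable_of_hasCompactSupport ?_ ?_
      · exact (hS.tz.smooth.continuous.pow 7).mul
          ((continuous_const.add ((Rel.continuous_sm hsol.smooth (h i) 1).pow 2)).pow 3)
      · exact HasCompactSupport.mul_right
          (hS.tz.cpt.comp_left (g := fun x : ℝ => x ^ 7) (by simp))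
    rw [← integral_const_mul]
    refine norm_integral_le_of_norm_le (hint.const_mul C) (Eventually.of_forall fun z => ?_)
    have h0 : ‖(f i z : ℂ)‖ ≤ sm (h i) (f i) 1 z :=
      Rel.norm_gg_le_sm (h := h i) (f := f i) (n := 0) (by norm_num)
    have h1 : ‖gg (h i) (f i) 1 z‖ ≤ sm (h i) (f i) 1 z := Rel.norm_gg_le_sm (by norm_num)
    rw [norm_mul, norm_mul, norm_pow, ← mul_assoc C]
    exact mul_le_mul (hC z) (pow_bd hj (norm_nonneg _) (norm_nonneg _) h1 h0)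
      (by positivity) (mul_nonneg hC0 (pow_nonneg (hS.z0 z) 7))
  have h5 : ‖A - 1 / (2 * (j : ℝ) + 1) * B‖ ≤ h i * ‖E‖ := by
    rw [← hnorm]
    refine le_mul_of_one_le_left (norm_nonneg _) ?_
    have : (0 : ℝ) ≤ (j : ℝ) := Nat.cast_nonneg j
    linarith
  refine h5.trans ?_
  calc h i * ‖E‖ ≤ h i * (C * ∫ z, ζ z ^ 7 * (1 + sm (h i) (f i) 1 z ^ 2) ^ 3) :=
        mul_le_mul_of_nonneg_left hEb hh.le
    _ = _ := by ring

end

end Pool.Agent.A54.B6
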