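import Pool.Agent.Lib.MP_a54f13_nt.B6.Spec
import Pool.Agent.Lib.MP_a54f13_nt.Cacc

/-!
Growth of the weighted `L²` norms of the derivatives of a solution, subexponential in the order.
-/

set_option autoImplicit false

namespace Pool.Agent.A54.B6.OsM

open MeasureTheory Filter Topology Set
open scoped ContDiff ComplexConjugate

noncomputable section

variable {V : Set ℂ} {q : ℂ → ℝ}

/-- lower bound for the potential -/
lemma lower (hq : Pot V q) {K : Set ℂ} (hK : IsCompact K) :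
    ∃ r : ℝ, 0 < r ∧ ∀ z ∈ K, r ^ 2 ≤ q z := by
  rcases K.eq_empty_or_nonempty with rfl | hne
  · exact ⟨1, one_pos, fun z hz => absurd hz (by simp)⟩
  · obtain ⟨z0, hz0, hmin⟩ := hK.exists_isMinOn hne hq.smooth.continuous.continuousOn
    refine ⟨Real.sqrt (q z0), Real.sqrt_pos.mpr (hq.pos z0), fun z hz => ?_⟩
    rw [Real.sq_sqrt (hq.pos z0).le]
    exact hmin hz

/-- the one step inequality at a point -/
lemma pointwise {ψ wz G g D Er s S A B C₀ qz m r δ h : ℝ} (hψ : 0 ≤ ψ) (hψB : ψ ≤ B) (hG : 0 ≤ G)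
    (hg : 0 ≤ g) (hEr0 : 0 ≤ Er) (hA : 0 ≤ A) (hr : 0 < r) (hqr : r ^ 2 ≤ qz)
    (hh : 0 ≤ h) (hδ : 0 ≤ δ) (hC₀ : 0 ≤ C₀) (hm : 0 ≤ m)
    (hD : D ≤ h * (A * wz ^ 2) + 4 * δ * (ψ * wz ^ 2))
    (hErs : Er ≤ h * (C₀ * s)) (hGg : G * g ≤ S) (hsg : s * g ≤ m * S) :
    (D * G + ψ * wz ^ 2 * (qz * g + Er)) * g ≤
      ψ * wz ^ 2 * (qz * g ^ 2) + 2 / r * δ * (ψ * wz ^ 2 * (G ^ 2 + qz * g ^ 2)) +
        h * (A + B * C₀ * m) * (wz ^ 2 * S) := by
  have hw : 0 ≤ wz ^ 2 := sq_nonneg _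
  have hGg0 : 0 ≤ G * g := mul_nonneg hG hg
  have hS : 0 ≤ S := hGg0.trans hGg
  have hψw : 0 ≤ ψ * wz ^ 2 := mul_nonneg hψ hw
  have h1 : D * (G * g) ≤ (h * (A * wz ^ 2) + 4 * δ * (ψ * wz ^ 2)) * (G * g) :=
    mul_le_mul_of_nonneg_right hD hGg0
  have h2 : h * (A * wz ^ 2) * (G * g) ≤ h * (A * wz ^ 2) * S :=
    mul_le_mul_of_nonneg_left hGg (mul_nonneg hh (mul_nonneg hA hw))
  have h3 : 4 * (G * g) ≤ 2 / r * (G ^ 2 + qz * g ^ 2) := by
    rw [div_mul_eq_mul_div, le_div_iff₀ hr]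
    have : r ^ 2 * g ^ 2 ≤ qz * g ^ 2 := mul_le_mul_of_nonneg_right hqr (sq_nonneg g)
    nlinarith [sq_nonneg (G - r * g)]
  have h4 : δ * (ψ * wz ^ 2) * (4 * (G * g)) ≤
      δ * (ψ * wz ^ 2) * (2 / r * (G ^ 2 + qz * g ^ 2)) :=
    mul_le_mul_of_nonneg_left h3 (mul_nonneg hδ hψw)
  have h5 : Er * g ≤ h * (C₀ * (m * S)) := by
    calc Er * g ≤ h * (C₀ * s) * g := mul_le_mul_of_nonneg_right hErs hg
      _ = h * (C₀ * (s * g)) := by ring
      _ ≤ h * (C₀ * (m * S)) :=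
        mul_le_mul_of_nonneg_left (mul_le_mul_of_nonneg_left hsg hC₀) hh
  have h6 : ψ * wz ^ 2 * (Er * g) ≤ B * wz ^ 2 * (h * (C₀ * (m * S))) :=
    mul_le_mul (mul_le_mul_of_nonneg_right hψB hw) h5 (mul_nonneg hEr0 hg)
      (mul_nonneg (hψ.trans hψB) hw)
  calc (D * G + ψ * wz ^ 2 * (qz * g + Er)) * g
      = D * (G * g) + ψ * wz ^ 2 * (qz * g ^ 2) + ψ * wz ^ 2 * (Er * g) := by ring
    _ ≤ (h * (A * wz ^ 2) * S + δ * (ψ * wz ^ 2) * (2 / r * (G ^ 2 + qz * g ^ 2))) +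
        ψ * wz ^ 2 * (qz * g ^ 2) + B * wz ^ 2 * (h * (C₀ * (m * S))) := by
        have : D * (G * g) ≤ h * (A * wz ^ 2) * S +
            δ * (ψ * wz ^ 2) * (2 / r * (G ^ 2 + qz * g ^ 2)) := by
          calc D * (G * g) ≤ (h * (A * wz ^ 2) + 4 * δ * (ψ * wz ^ 2)) * (G * g) := h1
            _ = h * (A * wz ^ 2) * (G * g) + δ * (ψ * wz ^ 2) * (4 * (G * g)) := by ring
            _ ≤ _ := add_le_add h2 h4
        linarith
    _ = _ := by ring

/-- the function whose integral grows slowly -/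
def FF (ζ w q : ℂ → ℝ) (h : ℝ) (f : ℂ → ℝ) (n : ℕ) (z : ℂ) : ℝ :=
  ζ z ^ 2 * w z ^ 2 * (‖gg h f n z‖ ^ 2 / q z ^ n)

lemma FF_nonneg (hq : Pot V q) (ζ w : ℂ → ℝ) (h : ℝ) (f : ℂ → ℝ) (n : ℕ) (z : ℂ) :
    0 ≤ FF ζ w q h f n z := by
  have := hq.pos z
  unfold FF
  positivity

lemma FF_int (hq : Pot V q) {ζ w : ℂ → ℝ} (hζ : TestR V ζ) (hw : Continuous w) {h : ℝ}
    {f : ℂ → ℝ} (hf : ContDiff ℝ ∞ f) (n : ℕ) : Integrable (FF ζ w q h f n) := by
  refine Cacc.integ hζ.cpt ?_ (fun z hz => by simp [FF, hz])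
  unfold FF
  exact ((hζ.smooth.continuous.pow 2).mul (hw.pow 2)).mul
    (((contDiff_gg hf h n).continuous.norm.pow 2).div (hq.smooth.continuous.pow n)
      fun z => pow_ne_zero _ (hq.pos z).ne')

lemma sq_int {ξ w : ℂ → ℝ} (hξ : TestR V ξ) (hw : Continuous w) {F : ℂ → ℝ} (hF : Continuous F) :
    Integrable (fun z => ξ z ^ 2 * w z ^ 2 * F z) :=
  Cacc.integ hξ.cpt (((hξ.smooth.continuous.pow 2).mul (hw.pow 2)).mul hF)
    (fun z hz => by simp [hz])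

lemma one_step (hE : StmtErr) (hC : StmtCacc) (hq : Pot V q) {ζ : ℂ → ℝ} (hζ : TestR V ζ)
    {r : ℝ} (hr : 0 < r) (hqr : ∀ z ∈ tsupport ζ, r ^ 2 ≤ q z) (n : ℕ) :
    ∃ (ζ₁ : ℂ → ℝ) (C : ℝ), TestR V ζ₁ ∧ 0 ≤ C ∧ ∀ (δ h : ℝ) (f w : ℂ → ℝ), 0 < δ → δ ≤ 1 →
      8 / r * δ ≤ 1 → Sol V q h f → ContDiff ℝ ∞ w → (∀ z, 0 < w z) →
      (∀ z, h * ‖fderiv ℝ w z‖ ≤ δ * w z) →
      ∫ z, FF ζ w q h f (n + 1) z ≤ (1 + 8 / r * δ) * (∫ z, FF ζ w q h f n z) +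
        h * C * ∫ z, ζ₁ z ^ 2 * w z ^ 2 * f z ^ 2 := by
  obtain ⟨C₀, hC₀, hErr⟩ := hE V q hq n (tsupport ζ) hζ.cpt hζ.sub
  obtain ⟨χ, hχ, -, hone⟩ := exists_cutoff hζ.cpt hq.isOpen hζ.sub
  have hone' : ∀ z ∈ tsupport ζ, χ z = 1 := fun z hz => subset_of_mem_nhdsSet hone hz
  obtain ⟨ζ₁, C₁, hζ₁, hC₁, hcac⟩ := L4.cacc_all hC hq (n + 1) hχ
  obtain ⟨ψ, hψd⟩ : ∃ ψ : ℂ → ℝ, ψ = fun z => ζ z ^ 2 * (q z ^ (n + 1))⁻¹ := ⟨_, rfl⟩
  have hψs : ContDiff ℝ ∞ ψ := by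
    rw [hψd]
    exact (hζ.smooth.pow 2).mul ((hq.smooth.pow (n + 1)).inv fun z => pow_ne_zero _ (hq.pos z).ne')
  have hψc : HasCompactSupport ψ := by
    rw [hψd]
    have h1 : HasCompactSupport (fun z => ζ z ^ 2) :=
      hζ.cpt.comp_left (g := fun x : ℝ => x ^ 2) (by simp)
    exact h1.mul_right
  have hψ0 : ∀ z, 0 ≤ ψ z := by
    intro z
    have := hq.pos z
    rw [hψd]
    positivity
  have hψz : ∀ z, z ∉ tsupport ζ → ψ z = 0 := by
    intro z hz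
    rw [hψd]
    simp [image_eq_zero_of_notMem_tsupport hz]
  have hψC : ContDiff ℝ ∞ (fun z => (ψ z : ℂ)) := contDiff_ofReal hψs
  have hψCc : HasCompactSupport (fun z => (ψ z : ℂ)) :=
    hψc.comp_left (g := fun x : ℝ => (x : ℂ)) (by simp)
  obtain ⟨B, hB⟩ := hψc.exists_bound_of_continuous hψs.continuous
  obtain ⟨A, hA⟩ := (hasCompactSupport_dz hψCc).exists_bound_of_continuous
    (contDiff_dz hψC).continuous
  have hA0 : 0 ≤ A := (norm_nonneg _).trans (hA 0)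
  have hB0 : 0 ≤ B := (norm_nonneg _).trans (hB 0)
  have hψB : ∀ z, ψ z ≤ B := fun z => (le_abs_self _).trans (hB z)
  refine ⟨ζ₁, 4 / 3 * ((A + B * C₀ * ((n : ℝ) + 2)) * (((n : ℝ) + 2) * C₁)), hζ₁, by positivity,
    ?_⟩
  intro δ h f w hδ hδ1 hcδ hf hw hw0 hww
  have hh : 0 ≤ h := hf.hpos.le
  have hg : ContDiff ℝ ∞ (gg h f n) := contDiff_gg hf.smooth h n
  have hG : ContDiff ℝ ∞ (gg h f (n + 1)) := contDiff_gg hf.smooth h (n + 1)
  have hwC : ContDiff ℝ ∞ (fun z => (w z : ℂ)) := contDiff_ofReal hw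
  have hP : ContDiff ℝ ∞ (fun z => (ψ z : ℂ) * ((w z : ℂ) * (w z : ℂ))) :=
    hψC.mul (hwC.mul hwC)
  have hPc : HasCompactSupport (fun z => (ψ z : ℂ) * ((w z : ℂ) * (w z : ℂ))) :=
    hψCc.mul_right
  have ha : ContDiff ℝ ∞ (fun z => (ψ z : ℂ) * ((w z : ℂ) * (w z : ℂ)) *
      conj (gg h f (n + 1) z)) := hP.mul (contDiff_conj hG)
  have hac : HasCompactSupport (fun z => (ψ z : ℂ) * ((w z : ℂ) * (w z : ℂ)) *
      conj (gg h f (n + 1) z)) := hPc.mul_right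
  have hdzP : ∀ z, dz (fun z => (ψ z : ℂ) * ((w z : ℂ) * (w z : ℂ))) z =
      dz (fun z => (ψ z : ℂ)) z * (w z : ℂ) ^ 2 +
        2 * (ψ z : ℂ) * (w z : ℂ) * dz (fun z => (w z : ℂ)) z := by
    intro z
    rw [dz_mul hψC (hwC.mul hwC), dz_mul hwC hwC]
    ring
  have hdza : ∀ z, dz (fun z => (ψ z : ℂ) * ((w z : ℂ) * (w z : ℂ)) *
      conj (gg h f (n + 1) z)) z =
      dz (fun z => (ψ z : ℂ) * ((w z : ℂ) * (w z : ℂ))) z * conj (gg h f (n + 1) z) +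
      (ψ z : ℂ) * ((w z : ℂ) * (w z : ℂ)) * conj (dzb (gg h f (n + 1)) z) := by
    intro z
    rw [dz_mul hP (contDiff_conj hG), dz_conj hG]
  have hFn := FF_int hq hζ hw.continuous hf.smooth (h := h) n
  have hFn1 := FF_int hq hζ hw.continuous hf.smooth (h := h) (n + 1)
  have hSc : Continuous (fun z => ∑ j ∈ Finset.range (n + 2), ‖gg h f j z‖ ^ 2) :=
    continuous_finsetSum _ fun j _ => (contDiff_gg hf.smooth h j).continuous.norm.pow 2
  have hSi := sq_int hχ hw.continuous hSc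
  -- integration by parts
  have hid : ((∫ z, FF ζ w q h f (n + 1) z : ℝ) : ℂ) =
      ∫ z, -((h : ℂ) * (dz (fun z => (ψ z : ℂ) * ((w z : ℂ) * (w z : ℂ)) *
      conj (gg h f (n + 1) z)) z * gg h f n z)) := by
    have h0 : ((∫ z, FF ζ w q h f (n + 1) z : ℝ) : ℂ) =
        ∫ z, ((FF ζ w q h f (n + 1) z : ℝ) : ℂ) :=
      integral_complex_ofReal.symm
    rw [h0, integral_neg, integral_const_mul, ← mul_neg, ← integral_mul_dz ha hg (Or.inl hac),
      ← integral_const_mul]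
    refine integral_congr_ae (Filter.Eventually.of_forall fun z => ?_)
    have h1 : (‖gg h f (n + 1) z‖ : ℂ) ^ 2 = conj (gg h f (n + 1) z) * gg h f (n + 1) z := by
      rw [mul_comm, Complex.mul_conj, Complex.normSq_eq_norm_sq]
      push_cast
      rfl
    have h2 : gg h f (n + 1) z = (h : ℂ) * dz (gg h f n) z := gg_succ h f n z
    change ((FF ζ w q h f (n + 1) z : ℝ) : ℂ) =
      (h : ℂ) * ((ψ z : ℂ) * ((w z : ℂ) * (w z : ℂ)) *
      conj (gg h f (n + 1) z) * dz (gg h f n) z)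
    have h3 : (h : ℂ) * ((ψ z : ℂ) * ((w z : ℂ) * (w z : ℂ)) *
        conj (gg h f (n + 1) z) * dz (gg h f n) z) =
        (ψ z : ℂ) * (w z : ℂ) ^ 2 * (conj (gg h f (n + 1) z) *
        ((h : ℂ) * dz (gg h f n) z)) := by ring
    rw [h3, ← h2, ← h1, hψd]
    unfold FF
    push_cast
    ring
  have hΦi : Integrable (fun z => ‖-((h : ℂ) * (dz (fun z => (ψ z : ℂ) *
      ((w z : ℂ) * (w z : ℂ)) * conj (gg h f (n + 1) z)) z * gg h f n z))‖) := by
    refine Integrable.norm ?_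
    refine Continuous.integrable_of_hasCompactSupport
      (continuous_const.mul ((contDiff_dz ha).continuous.mul hg.continuous)).neg ?_
    refine (hasCompactSupport_dz hac).mono fun z hz hz0 => hz ?_
    change -((h : ℂ) * (_ * gg h f n z)) = 0
    rw [hz0]
    ring
  have hpt : ∀ z, ‖-((h : ℂ) * (dz (fun z => (ψ z : ℂ) * ((w z : ℂ) * (w z : ℂ)) *
      conj (gg h f (n + 1) z)) z * gg h f n z))‖ ≤
      FF ζ w q h f n z + 2 / r * δ * (FF ζ w q h f (n + 1) z + FF ζ w q h f n z) +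
      h * (A + B * C₀ * ((n : ℝ) + 2)) *
        (χ z ^ 2 * w z ^ 2 * ∑ j ∈ Finset.range (n + 2), ‖gg h f j z‖ ^ 2) := by
    intro z
    by_cases hz : z ∈ tsupport ζ
    · have h1 : χ z = 1 := hone' z hz
      rw [norm_neg, norm_mul, hdza z, Complex.norm_real, Real.norm_eq_abs, abs_of_nonneg hh,
        norm_mul, h1]
      have hqz := hq.pos z
      have hD : h * ‖dz (fun z => (ψ z : ℂ) * ((w z : ℂ) * (w z : ℂ))) z‖ ≤
          h * (A * w z ^ 2) + 4 * δ * (ψ z * w z ^ 2) := by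
        rw [hdzP z]
        have h4 : h * ‖dz (fun z => (w z : ℂ)) z‖ ≤ 2 * (δ * w z) := by
          have h5 := Cacc.norm_dz_ofReal_le hw z
          have h6 := hww z
          calc h * ‖dz (fun z => (w z : ℂ)) z‖ ≤ h * (2 * ‖fderiv ℝ w z‖) :=
                mul_le_mul_of_nonneg_left h5 hh
            _ = 2 * (h * ‖fderiv ℝ w z‖) := by ring
            _ ≤ _ := by linarith
        calc h * ‖dz (fun z => (ψ z : ℂ)) z * (w z : ℂ) ^ 2 +
              2 * (ψ z : ℂ) * (w z : ℂ) * dz (fun z => (w z : ℂ)) z‖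
            ≤ h * (‖dz (fun z => (ψ z : ℂ)) z‖ * w z ^ 2 +
              2 * ψ z * w z * ‖dz (fun z => (w z : ℂ)) z‖) := by
              refine mul_le_mul_of_nonneg_left ((norm_add_le _ _).trans (le_of_eq ?_)) hh
              rw [norm_mul, norm_mul, norm_mul, norm_mul, norm_pow, Complex.norm_real,
                Complex.norm_real, Real.norm_eq_abs, Real.norm_eq_abs, abs_of_pos (hw0 z),
                abs_of_nonneg (hψ0 z)]
              norm_num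
          _ = h * (‖dz (fun z => (ψ z : ℂ)) z‖ * w z ^ 2) +
              2 * ψ z * w z * (h * ‖dz (fun z => (w z : ℂ)) z‖) := by
              ring
          _ ≤ h * (A * w z ^ 2) + 2 * ψ z * w z * (2 * (δ * w z)) := by
              refine add_le_add ?_ ?_
              · exact mul_le_mul_of_nonneg_left
                  (mul_le_mul_of_nonneg_right (hA z) (sq_nonneg _)) hh
              · exact mul_le_mul_of_nonneg_left h4
                  (mul_nonneg (mul_nonneg zero_le_two (hψ0 z)) (hw0 z).le)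
          _ = _ := by ring
      have hGS : ‖gg h f (n + 1) z‖ * ‖gg h f n z‖ ≤
          ∑ j ∈ Finset.range (n + 2), ‖gg h f j z‖ ^ 2 := by
        rw [Finset.sum_range_succ, Finset.sum_range_succ]
        have h2 : 0 ≤ ∑ j ∈ Finset.range n, ‖gg h f j z‖ ^ 2 :=
          Finset.sum_nonneg fun j _ => sq_nonneg _
        nlinarith [sq_nonneg (‖gg h f (n + 1) z‖ - ‖gg h f n z‖),
          sq_nonneg (‖gg h f (n + 1) z‖), sq_nonneg (‖gg h f n z‖)]
      have hs0 : 0 ≤ ∑ j ∈ Finset.range n, ‖gg h f j z‖ :=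
        Finset.sum_nonneg fun j _ => norm_nonneg _
      have hsg : (∑ j ∈ Finset.range n, ‖gg h f j z‖) * ‖gg h f n z‖ ≤
          ((n : ℝ) + 2) * ∑ j ∈ Finset.range (n + 2), ‖gg h f j z‖ ^ 2 := by
        have h2 := Cacc.sum_sq_le n fun j => ‖gg h f j z‖
        have h3 : (∑ j ∈ Finset.range n, ‖gg h f j z‖) * ‖gg h f n z‖ ≤
            (∑ j ∈ Finset.range (n + 1), ‖gg h f j z‖) ^ 2 := by
          rw [Finset.sum_range_succ]
          nlinarith [norm_nonneg (gg h f n z)]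
        have h4 : (∑ j ∈ Finset.range (n + 1), ‖gg h f j z‖ ^ 2) ≤
            ∑ j ∈ Finset.range (n + 2), ‖gg h f j z‖ ^ 2 := by
          rw [Finset.sum_range_succ _ (n + 1)]
          nlinarith [sq_nonneg (‖gg h f (n + 1) z‖)]
        have h5 : 0 ≤ ∑ j ∈ Finset.range (n + 1), ‖gg h f j z‖ ^ 2 :=
          Finset.sum_nonneg fun j _ => sq_nonneg _
        have h6 : (0 : ℝ) ≤ (n : ℝ) + 1 := by positivity
        have h7 := mul_le_mul_of_nonneg_left h4 h6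
        nlinarith
      have hEr : ‖(h : ℂ) * dzb (gg h f (n + 1)) z + (q z : ℂ) * gg h f n z‖ ≤
          h * (C₀ * ∑ j ∈ Finset.range n, ‖gg h f j z‖) := hErr h f hf z hz
      have hdzb : h * ‖dzb (gg h f (n + 1)) z‖ ≤ q z * ‖gg h f n z‖ +
          ‖(h : ℂ) * dzb (gg h f (n + 1)) z + (q z : ℂ) * gg h f n z‖ := by
        have h8 : (h : ℂ) * dzb (gg h f (n + 1)) z =
            ((h : ℂ) * dzb (gg h f (n + 1)) z + (q z : ℂ) * gg h f n z) -
              (q z : ℂ) * gg h f n z := by ring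
        have h9 : ‖(h : ℂ) * dzb (gg h f (n + 1)) z‖ = h * ‖dzb (gg h f (n + 1)) z‖ := by
          rw [norm_mul, Complex.norm_real, Real.norm_eq_abs, abs_of_nonneg hh]
        rw [← h9]
        conv_lhs => rw [h8]
        refine (norm_sub_le _ _).trans (le_of_eq ?_)
        rw [norm_mul, Complex.norm_real, Real.norm_eq_abs, abs_of_pos (hq.pos z)]
        ring
      have hP' := pointwise (ψ := ψ z) (wz := w z) (G := ‖gg h f (n + 1) z‖)
        (g := ‖gg h f n z‖) (D := h * ‖dz (fun z => (ψ z : ℂ) * ((w z : ℂ) * (w z : ℂ))) z‖)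
        (Er := ‖(h : ℂ) * dzb (gg h f (n + 1)) z + (q z : ℂ) * gg h f n z‖)
        (s := ∑ j ∈ Finset.range n, ‖gg h f j z‖)
        (S := ∑ j ∈ Finset.range (n + 2), ‖gg h f j z‖ ^ 2) (A := A) (B := B)
        (C₀ := C₀) (qz := q z) (m := (n : ℝ) + 2) (r := r) (δ := δ) (h := h)
        (hψ0 z) (hψB z) (norm_nonneg _) (norm_nonneg _) (norm_nonneg _) hA0 hr (hqr z hz) hh
        hδ.le hC₀ (by positivity) hD hEr hGS hsg
      have hn : h * (‖dz (fun z => (ψ z : ℂ) * ((w z : ℂ) * (w z : ℂ))) z *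
          conj (gg h f (n + 1) z) + (ψ z : ℂ) * ((w z : ℂ) * (w z : ℂ)) *
            conj (dzb (gg h f (n + 1)) z)‖ * ‖gg h f n z‖) ≤
          (h * ‖dz (fun z => (ψ z : ℂ) * ((w z : ℂ) * (w z : ℂ))) z‖ * ‖gg h f (n + 1) z‖ +
          ψ z * w z ^ 2 * (q z * ‖gg h f n z‖ +
          ‖(h : ℂ) * dzb (gg h f (n + 1)) z + (q z : ℂ) * gg h f n z‖)) * ‖gg h f n z‖ := by
        rw [← mul_assoc]
        refine mul_le_mul_of_nonneg_right ?_ (norm_nonneg _)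
        calc h * ‖dz (fun z => (ψ z : ℂ) * ((w z : ℂ) * (w z : ℂ))) z *
            conj (gg h f (n + 1) z) + (ψ z : ℂ) * ((w z : ℂ) * (w z : ℂ)) *
              conj (dzb (gg h f (n + 1)) z)‖ ≤
            h * (‖dz (fun z => (ψ z : ℂ) * ((w z : ℂ) * (w z : ℂ))) z‖ *
              ‖gg h f (n + 1) z‖ + ψ z * w z ^ 2 * ‖dzb (gg h f (n + 1)) z‖) := by
              refine mul_le_mul_of_nonneg_left ((norm_add_le _ _).trans (le_of_eq ?_)) hh
              rw [norm_mul, norm_mul, norm_mul, norm_mul, Complex.norm_real, Complex.norm_real,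
                Real.norm_eq_abs, Real.norm_eq_abs, abs_of_pos (hw0 z), abs_of_nonneg (hψ0 z),
                RCLike.norm_conj, RCLike.norm_conj]
              ring
          _ = h * ‖dz (fun z => (ψ z : ℂ) * ((w z : ℂ) * (w z : ℂ))) z‖ *
              ‖gg h f (n + 1) z‖ + ψ z * w z ^ 2 * (h * ‖dzb (gg h f (n + 1)) z‖) := by
              ring
          _ ≤ _ := by
              have := mul_le_mul_of_nonneg_left hdzb (mul_nonneg (hψ0 z) (sq_nonneg (w z)))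
              linarith
      have e1 : ψ z * w z ^ 2 * (q z * ‖gg h f n z‖ ^ 2) = FF ζ w q h f n z := by
        have e0 : (q z ^ (n + 1))⁻¹ * q z = (q z ^ n)⁻¹ := by
          rw [pow_succ (q z) n, mul_inv, mul_assoc, inv_mul_cancel₀ hqz.ne', mul_one]
        rw [hψd]
        unfold FF
        rw [div_eq_mul_inv, ← e0]
        ring
      have e2 : ψ z * w z ^ 2 * ‖gg h f (n + 1) z‖ ^ 2 = FF ζ w q h f (n + 1) z := by
        rw [hψd]
        unfold FF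
        rw [div_eq_mul_inv]
        ring
      refine hn.trans (hP'.trans (le_of_eq ?_))
      rw [mul_add (ψ z * w z ^ 2), e1, e2]
      ring
    · have h1 : ψ z = 0 := hψz z hz
      have h2 : dz (fun z => (ψ z : ℂ) * ((w z : ℂ) * (w z : ℂ)) *
          conj (gg h f (n + 1) z)) z = 0 := by
        refine dz_eq_zero_of_notMem fun h3 => hz ?_
        have h4 : tsupport (fun z => (ψ z : ℂ) * ((w z : ℂ) * (w z : ℂ)) *
          conj (gg h f (n + 1) z)) ⊆ tsupport ζ := by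
          apply closure_minimal _ (isClosed_tsupport ζ)
          intro y hy
          by_contra hy'
          apply hy
          change (ψ y : ℂ) * ((w y : ℂ) * (w y : ℂ)) * conj (gg h f (n + 1) y) = 0
          rw [hψz y hy']
          simp
        exact h4 h3
      rw [h2]
      have h3 := FF_nonneg hq ζ w h f n z
      have h4 := FF_nonneg hq ζ w h f (n + 1) z
      have h5 : 0 ≤ 2 / r * δ * (FF ζ w q h f (n + 1) z + FF ζ w q h f n z) := by positivity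
      have h6 : 0 ≤ h * (A + B * C₀ * ((n : ℝ) + 2)) *
          (χ z ^ 2 * w z ^ 2 * ∑ j ∈ Finset.range (n + 2), ‖gg h f j z‖ ^ 2) := by
        refine mul_nonneg (by positivity) (mul_nonneg (by positivity) ?_)
        exact Finset.sum_nonneg fun j _ => sq_nonneg _
      simp only [zero_mul, mul_zero, neg_zero, norm_zero]
      linarith
  have hI0 : 0 ≤ ∫ z, FF ζ w q h f (n + 1) z := integral_nonneg fun z => FF_nonneg hq ζ w h f _ z
  have hJ0 : 0 ≤ ∫ z, FF ζ w q h f n z := integral_nonneg fun z => FF_nonneg hq ζ w h f _ z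
  have hfin : ∫ z, FF ζ w q h f (n + 1) z ≤
      (∫ z, FF ζ w q h f n z) +
      2 / r * δ * ((∫ z, FF ζ w q h f (n + 1) z) + ∫ z, FF ζ w q h f n z) +
      h * (A + B * C₀ * ((n : ℝ) + 2)) *
        ∫ z, χ z ^ 2 * w z ^ 2 * ∑ j ∈ Finset.range (n + 2), ‖gg h f j z‖ ^ 2 := by
    have h1 : ∫ z, FF ζ w q h f (n + 1) z =
        ‖((∫ z, FF ζ w q h f (n + 1) z : ℝ) : ℂ)‖ := by
      rw [Complex.norm_real, Real.norm_eq_abs, abs_of_nonneg hI0]
    have h2 : ∫ z, FF ζ w q h f (n + 1) z ≤ ∫ z, ‖-((h : ℂ) * (dz (fun z => (ψ z : ℂ) *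
      ((w z : ℂ) * (w z : ℂ)) * conj (gg h f (n + 1) z)) z * gg h f n z))‖ := by
      rw [h1, hid]
      exact norm_integral_le_integral_norm _
    refine h2.trans ?_
    have i1 : Integrable (fun z => FF ζ w q h f (n + 1) z + FF ζ w q h f n z) := hFn1.add hFn
    have i2 : Integrable (fun z => 2 / r * δ * (FF ζ w q h f (n + 1) z + FF ζ w q h f n z)) :=
      i1.const_mul _
    have i3 : Integrable (fun z => FF ζ w q h f n z +
        2 / r * δ * (FF ζ w q h f (n + 1) z + FF ζ w q h f n z)) := hFn.add i2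
    have i4 : Integrable (fun z => h * (A + B * C₀ * ((n : ℝ) + 2)) *
        (χ z ^ 2 * w z ^ 2 * ∑ j ∈ Finset.range (n + 2), ‖gg h f j z‖ ^ 2)) := hSi.const_mul _
    rw [← integral_const_mul (h * (A + B * C₀ * ((n : ℝ) + 2))), ← integral_add hFn1 hFn,
      ← integral_const_mul (2 / r * δ), ← integral_add hFn i2, ← integral_add i3 i4]
    exact integral_mono hΦi (i3.add i4) hpt
  have hS : ∫ z, χ z ^ 2 * w z ^ 2 * ∑ j ∈ Finset.range (n + 2), ‖gg h f j z‖ ^ 2 ≤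
      ((n : ℝ) + 2) * (C₁ * ∫ z, ζ₁ z ^ 2 * w z ^ 2 * f z ^ 2) := by
    have hWC : L4.WC h w := ⟨hw, hw0, fun z => (hww z).trans (by
      have := hw0 z
      nlinarith)⟩
    have h1 : ∀ j, Integrable (fun z => χ z ^ 2 * w z ^ 2 * ‖gg h f j z‖ ^ 2) := fun j =>
      sq_int hχ hw.continuous ((contDiff_gg hf.smooth h j).continuous.norm.pow 2)
    simp_rw [Finset.mul_sum]
    rw [integral_finsetSum _ fun j _ => h1 j]
    have h6 : ∑ j ∈ Finset.range (n + 2), ∫ z, χ z ^ 2 * w z ^ 2 * ‖gg h f j z‖ ^ 2 ≤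
        ∑ j ∈ Finset.range (n + 2), C₁ * ∫ z, ζ₁ z ^ 2 * w z ^ 2 * f z ^ 2 :=
      Finset.sum_le_sum fun j hj => hcac h f w hf hWC j (by
        have := Finset.mem_range.mp hj
        omega)
    rw [Finset.sum_const, Finset.card_range, nsmul_eq_mul] at h6
    push_cast at h6
    exact h6
  have hT0 : 0 ≤ ∫ z, ζ₁ z ^ 2 * w z ^ 2 * f z ^ 2 := integral_nonneg fun z => by positivity
  generalize (∫ z, ζ₁ z ^ 2 * w z ^ 2 * f z ^ 2) = T at hT0 hS ⊢
  generalize (∫ z, χ z ^ 2 * w z ^ 2 * ∑ j ∈ Finset.range (n + 2), ‖gg h f j z‖ ^ 2) = U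
    at hfin hS
  generalize (∫ z, FF ζ w q h f (n + 1) z) = X1 at hfin hI0 ⊢
  generalize (∫ z, FF ζ w q h f n z) = X0 at hfin hJ0 ⊢
  have hE0 : 0 ≤ A + B * C₀ * ((n : ℝ) + 2) := by positivity
  have hU : h * (A + B * C₀ * ((n : ℝ) + 2)) * U ≤
      h * ((A + B * C₀ * ((n : ℝ) + 2)) * (((n : ℝ) + 2) * C₁)) * T := by
    calc h * (A + B * C₀ * ((n : ℝ) + 2)) * U
        ≤ h * (A + B * C₀ * ((n : ℝ) + 2)) * (((n : ℝ) + 2) * (C₁ * T)) :=
          mul_le_mul_of_nonneg_left hS (mul_nonneg hh hE0)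
      _ = _ := by ring
  have hR0 : 0 ≤ h * ((A + B * C₀ * ((n : ℝ) + 2)) * (((n : ℝ) + 2) * C₁)) * T := by
    positivity
  have e3 : h * (4 / 3 * ((A + B * C₀ * ((n : ℝ) + 2)) * (((n : ℝ) + 2) * C₁))) * T =
      4 / 3 * (h * ((A + B * C₀ * ((n : ℝ) + 2)) * (((n : ℝ) + 2) * C₁)) * T) := by ring
  rw [e3]
  generalize h * ((A + B * C₀ * ((n : ℝ) + 2)) * (((n : ℝ) + 2) * C₁)) * T = R at hU hR0 ⊢
  have e4 : 8 / r * δ = 4 * (2 / r * δ) := by ring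
  rw [e4] at hcδ ⊢
  have hx0 : 0 ≤ 2 / r * δ := by positivity
  generalize 2 / r * δ = x at hcδ hx0 hfin ⊢
  have k1 : (1 - x) * X1 ≤ (1 + x) * X0 + R := by linarith
  have k2 : (1 - x) * X1 ≤ (1 - x) * ((1 + 4 * x) * X0 + 4 / 3 * R) := by
    refine k1.trans ?_
    have k3 : (1 + x) * X0 ≤ (1 - x) * ((1 + 4 * x) * X0) := by
      have : 0 ≤ (2 * x - 4 * x ^ 2) * X0 := mul_nonneg (by nlinarith) hJ0
      nlinarith
    have k4 : R ≤ (1 - x) * (4 / 3 * R) := by nlinarith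
    nlinarith
  exact le_of_mul_le_mul_left k2 (by linarith)

/-- A bounded common majorant of two test functions. -/
lemma dom (hV : IsOpen V) {ζ₁ ζ₂ : ℂ → ℝ} (h₁ : TestR V ζ₁) (h₂ : TestR V ζ₂) :
    ∃ (ζ' : ℂ → ℝ) (M : ℝ), TestR V ζ' ∧ (∀ z, 0 ≤ ζ' z ∧ ζ' z ≤ 1) ∧ 0 ≤ M ∧
      ∀ z, ζ₁ z ^ 2 ≤ M * ζ' z ^ 2 ∧ ζ₂ z ^ 2 ≤ M * ζ' z ^ 2 := by
  obtain ⟨ζ', hζ', hb, hone⟩ := exists_cutoff (h₁.cpt.union h₂.cpt) hV
    (union_subset h₁.sub h₂.sub)
  have hone' : ∀ z ∈ tsupport ζ₁ ∪ tsupport ζ₂, ζ' z = 1 :=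
    fun z hz => subset_of_mem_nhdsSet hone hz
  obtain ⟨M₁, hM₁⟩ := h₁.cpt.exists_bound_of_continuous h₁.smooth.continuous
  obtain ⟨M₂, hM₂⟩ := h₂.cpt.exists_bound_of_continuous h₂.smooth.continuous
  refine ⟨ζ', M₁ ^ 2 + M₂ ^ 2, hζ', hb, by positivity, fun z => ⟨?_, ?_⟩⟩
  · by_cases hz : z ∈ tsupport ζ₁
    · rw [hone' z (Or.inl hz)]
      have h3 : |ζ₁ z| ≤ M₁ := hM₁ z
      have h4 : ζ₁ z ^ 2 ≤ M₁ ^ 2 := by
        rw [← sq_abs]
        exact pow_le_pow_left₀ (abs_nonneg _) h3 2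
      nlinarith [sq_nonneg M₂]
    · rw [image_eq_zero_of_notMem_tsupport hz]
      have : 0 ≤ (M₁ ^ 2 + M₂ ^ 2) * ζ' z ^ 2 := by positivity
      simpa using this
  · by_cases hz : z ∈ tsupport ζ₂
    · rw [hone' z (Or.inr hz)]
      have h3 : |ζ₂ z| ≤ M₂ := hM₂ z
      have h4 : ζ₂ z ^ 2 ≤ M₂ ^ 2 := by
        rw [← sq_abs]
        exact pow_le_pow_left₀ (abs_nonneg _) h3 2
      nlinarith [sq_nonneg M₁]
    · rw [image_eq_zero_of_notMem_tsupport hz]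
      have : 0 ≤ (M₁ ^ 2 + M₂ ^ 2) * ζ' z ^ 2 := by positivity
      simpa using this

lemma all_steps (hE : StmtErr) (hC : StmtCacc) (hq : Pot V q) {ζ : ℂ → ℝ} (hζ : TestR V ζ)
    {r : ℝ} (hr : 0 < r) (hqr : ∀ z ∈ tsupport ζ, r ^ 2 ≤ q z) (n : ℕ) :
    ∃ (ζ' : ℂ → ℝ) (C : ℝ), TestR V ζ' ∧ (∀ z, 0 ≤ ζ' z ∧ ζ' z ≤ 1) ∧ 0 ≤ C ∧
      ∀ (δ h : ℝ) (f w : ℂ → ℝ), 0 < δ → δ ≤ 1 →
      8 / r * δ ≤ 1 → Sol V q h f → ContDiff ℝ ∞ w → (∀ z, 0 < w z) →
      (∀ z, h * ‖fderiv ℝ w z‖ ≤ δ * w z) →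
      ∫ z, FF ζ w q h f n z ≤ (1 + 8 / r * δ) ^ n * (∫ z, ζ z ^ 2 * w z ^ 2 * f z ^ 2) +
        h * C * ∫ z, ζ' z ^ 2 * w z ^ 2 * f z ^ 2 := by
  induction n with
  | zero =>
    obtain ⟨ζ', M, h1, h2, -, -⟩ := dom hq.isOpen hζ hζ
    refine ⟨ζ', 0, h1, h2, le_rfl, fun δ h f w _ _ _ hf hw hw0 hww => le_of_eq ?_⟩
    rw [pow_zero, one_mul, mul_zero, zero_mul, add_zero]
    refine integral_congr_ae (Filter.Eventually.of_forall fun z => ?_)
    change FF ζ w q h f 0 z = _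
    unfold FF
    rw [gg_zero, Complex.norm_real, Real.norm_eq_abs, sq_abs, pow_zero, div_one]
  | succ n ih =>
    obtain ⟨ζ₁, C₁, hζ₁, -, hC₁, h1⟩ := ih
    obtain ⟨ζ₂, C₂, hζ₂, hC₂, h2⟩ := one_step hE hC hq hζ hr hqr n
    obtain ⟨ζ', M, hζ', hb, hM, hdom⟩ := dom hq.isOpen hζ₁ hζ₂
    refine ⟨ζ', (2 * C₁ + C₂) * M, hζ', hb, by positivity, ?_⟩
    intro δ h f w hδ hδ1 hcδ hf hw hw0 hww
    have e1 := L4.int_dom hζ' (fun z => (hdom z).1) hw.continuous hf.smooth.continuous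
    have e2 := L4.int_dom hζ' (fun z => (hdom z).2) hw.continuous hf.smooth.continuous
    have a1 := h1 δ h f w hδ hδ1 hcδ hf hw hw0 hww
    have a2 := h2 δ h f w hδ hδ1 hcδ hf hw hw0 hww
    have hT1 : 0 ≤ ∫ z, ζ₁ z ^ 2 * w z ^ 2 * f z ^ 2 := integral_nonneg fun z => by positivity
    have hT : 0 ≤ ∫ z, ζ' z ^ 2 * w z ^ 2 * f z ^ 2 := integral_nonneg fun z => by positivity
    have hh := hf.hpos.le
    generalize (∫ z, ζ' z ^ 2 * w z ^ 2 * f z ^ 2) = T at e1 e2 hT ⊢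
    generalize (∫ z, ζ₁ z ^ 2 * w z ^ 2 * f z ^ 2) = T1 at e1 a1 hT1
    generalize (∫ z, ζ₂ z ^ 2 * w z ^ 2 * f z ^ 2) = T2 at e2 a2
    generalize (∫ z, ζ z ^ 2 * w z ^ 2 * f z ^ 2) = Y at a1 ⊢
    have hx0 : 0 ≤ 8 / r * δ := by positivity
    generalize 8 / r * δ = x at a1 a2 hcδ hx0 ⊢
    calc _ ≤ (1 + x) * (∫ z, FF ζ w q h f n z) + h * C₂ * T2 := a2
      _ ≤ (1 + x) * ((1 + x) ^ n * Y + h * C₁ * T1) + h * C₂ * (M * T) := by
          refine add_le_add (mul_le_mul_of_nonneg_left a1 (by linarith)) ?_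
          exact mul_le_mul_of_nonneg_left e2 (mul_nonneg hh hC₂)
      _ = (1 + x) ^ (n + 1) * Y + (1 + x) * (h * C₁ * T1) + h * C₂ * (M * T) := by ring
      _ ≤ (1 + x) ^ (n + 1) * Y + 2 * (h * C₁ * (M * T)) + h * C₂ * (M * T) := by
          have k1 : (1 + x) * (h * C₁ * T1) ≤ 2 * (h * C₁ * (M * T)) :=
            mul_le_mul (by linarith) (mul_le_mul_of_nonneg_left e1 (mul_nonneg hh hC₁))
              (mul_nonneg (mul_nonneg hh hC₁) hT1) zero_le_two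
          linarith
      _ = _ := by ring

end

end Pool.Agent.A54.B6.OsM

namespace Pool.Agent.A54.B6

open MeasureTheory

theorem stmtOs (hE : StmtErr) (hC : StmtCacc) : StmtOs := by
  intro V q hq ζ hζ
  obtain ⟨r, hr, hqr⟩ := OsM.lower hq hζ.cpt
  refine ⟨8 / r, by positivity, fun n => ?_⟩
  obtain ⟨ζ', C, h1, h2, h3, h4⟩ := OsM.all_steps hE hC hq hζ hr hqr n
  exact ⟨ζ', C, h1, h2, h3, fun δ h f w hδ hδ1 hcδ hf hw hw0 hww =>
    h4 δ h f w hδ hδ1 hcδ hf hw hw0 hww⟩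

end Pool.Agent.A54.B6
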