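import Pool.Agent.Lib.MP_a54f13_nt.B6.Spec

/-!
Package `B6`, module `Pt`: the pointwise bound.
-/

set_option autoImplicit false

namespace Pool.Agent.A54.B6

open MeasureTheory Filter Topology Set
open scoped ContDiff ComplexConjugate

noncomputable section

namespace PtM

variable {V : Set ℂ} {q : ℂ → ℝ}

/-- the integrand in Sobolev's inequality at the scale `h` -/
def PP (h : ℝ) (g : ℂ → ℂ) (y : ℂ) : ℝ :=
  ‖g y‖ ^ 2 + h ^ 2 * (‖dz g y‖ ^ 2 + ‖dzb g y‖ ^ 2) + h ^ 4 * ‖dzb (dz g) y‖ ^ 2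

lemma norm_sq_le {a b : ℂ} : ‖a - b‖ ^ 2 ≤ 2 * ‖a‖ ^ 2 + 2 * ‖b‖ ^ 2 := by
  have h1 := norm_sub_le a b
  have h2 : ‖a - b‖ ^ 2 ≤ (‖a‖ + ‖b‖) ^ 2 := pow_le_pow_left₀ (norm_nonneg _) h1 2
  nlinarith [sq_nonneg (‖a‖ - ‖b‖)]

lemma dzb_zero {f : ℂ → ℝ} (hf : ContDiff ℝ ∞ f) (h : ℝ) (y : ℂ) :
    ‖dzb (gg h f 0) y‖ = ‖dz (gg h f 0) y‖ := by
  have h2 : dzb (gg h f 0) y = conj (dz (gg h f 0) y) := by
    have h3 : gg h f 0 = fun w => conj (gg h f 0 w) := by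
      funext w
      rw [gg_zero, Complex.conj_ofReal]
    conv_lhs => rw [h3]
    exact dzb_conj (contDiff_gg hf h 0)
  rw [h2, Complex.norm_conj]

/-- pointwise bound of the integrand -/
lemma PP_le (hE : StmtErr) (hP : Pot V q) {K : Set ℂ} (hK : IsCompact K) (hKV : K ⊆ V) {Q : ℝ}
    (hQ : ∀ y ∈ K, q y ≤ Q) (N : ℕ) : ∃ C : ℝ, 0 ≤ C ∧ ∀ (h : ℝ) (f : ℂ → ℝ), Sol V q h f →
      ∀ y ∈ K, ∀ n ≤ N, PP h (gg h f n) y ≤
        (2 + 2 * Q ^ 2) * (‖gg h f (n - 1) y‖ ^ 2 + ‖gg h f n y‖ ^ 2 + ‖gg h f (n + 1) y‖ ^ 2) +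
          h * (C * ∑ j ∈ Finset.range (N + 2), ‖gg h f j y‖ ^ 2) := by
  have h0 : ∀ n : ℕ, ∃ C : ℝ, 0 ≤ C ∧ ∀ (h : ℝ) (f : ℂ → ℝ), Sol V q h f → ∀ z ∈ K,
      ‖(h : ℂ) * dzb (gg h f (n + 1)) z + (q z : ℂ) * gg h f n z‖ ≤
        h * (C * ∑ j ∈ Finset.range n, ‖gg h f j z‖) := fun n => hE V q hP n K hK hKV
  choose c hc0 hc using h0
  set A : ℝ := ∑ n ∈ Finset.range (N + 1), c n with hA
  have hA0 : 0 ≤ A := Finset.sum_nonneg fun n _ => hc0 n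
  have hcA : ∀ n ≤ N, c n ≤ A := fun n hn =>
    Finset.single_le_sum (f := c) (fun n _ => hc0 n) (Finset.mem_range.mpr (by omega))
  refine ⟨4 * (A ^ 2 * (N + 2)), by positivity, fun h f hf y hy n hn => ?_⟩
  have hh := hf.hpos
  have hh1 := hf.hle
  set S := ∑ j ∈ Finset.range (N + 2), ‖gg h f j y‖ ^ 2 with hS
  have hS0 : 0 ≤ S := Finset.sum_nonneg fun _ _ => by positivity
  -- the error terms
  have hEr : ∀ m ≤ N, ‖(h : ℂ) * dzb (gg h f (m + 1)) y‖ ^ 2 ≤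
      2 * Q ^ 2 * ‖gg h f m y‖ ^ 2 + 2 * (h * (A ^ 2 * (N + 2) * S)) := by
    intro m hm
    have h1 := hc m h f hf y hy
    have h2 : (h : ℂ) * dzb (gg h f (m + 1)) y = ((h : ℂ) * dzb (gg h f (m + 1)) y +
      (q y : ℂ) * gg h f m y) - (q y : ℂ) * gg h f m y := by ring
    have h3 : ‖(h : ℂ) * dzb (gg h f (m + 1)) y‖ ^ 2 ≤
        2 * ‖(h : ℂ) * dzb (gg h f (m + 1)) y + (q y : ℂ) * gg h f m y‖ ^ 2 +
        2 * ‖(q y : ℂ) * gg h f m y‖ ^ 2 := by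
      conv_lhs => rw [h2]
      exact norm_sq_le
    have h4 : ‖(q y : ℂ) * gg h f m y‖ ^ 2 ≤ Q ^ 2 * ‖gg h f m y‖ ^ 2 := by
      rw [norm_mul, mul_pow, Complex.norm_real, Real.norm_eq_abs, abs_of_pos (hP.pos y)]
      exact mul_le_mul_of_nonneg_right (pow_le_pow_left₀ (hP.pos y).le (hQ y hy) 2) (by positivity)
    have h5 : (∑ j ∈ Finset.range m, ‖gg h f j y‖) ^ 2 ≤ (N + 2) * S := by
      have h6 := sq_sum_le_card_mul_sum_sq (s := Finset.range m) (f := fun j => ‖gg h f j y‖)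
      rw [Finset.card_range] at h6
      refine h6.trans ?_
      refine mul_le_mul ?_ ?_ (Finset.sum_nonneg fun _ _ => by positivity) (by positivity)
      · have : (m : ℝ) ≤ N := by exact_mod_cast hm
        linarith
      · exact Finset.sum_le_sum_of_subset_of_nonneg (Finset.range_mono (by omega))
          fun _ _ _ => by positivity
    have h6 : ‖(h : ℂ) * dzb (gg h f (m + 1)) y + (q y : ℂ) * gg h f m y‖ ^ 2 ≤
        h * (A ^ 2 * (N + 2) * S) := by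
      have h7 : 0 ≤ ∑ j ∈ Finset.range m, ‖gg h f j y‖ := Finset.sum_nonneg fun _ _ => norm_nonneg _
      calc ‖(h : ℂ) * dzb (gg h f (m + 1)) y + (q y : ℂ) * gg h f m y‖ ^ 2
          ≤ (h * (c m * ∑ j ∈ Finset.range m, ‖gg h f j y‖)) ^ 2 :=
            pow_le_pow_left₀ (norm_nonneg _) h1 2
        _ = (h * h) * (c m ^ 2 * (∑ j ∈ Finset.range m, ‖gg h f j y‖) ^ 2) := by ring
        _ ≤ (h * 1) * (A ^ 2 * ((N + 2) * S)) := by
            refine mul_le_mul (mul_le_mul_of_nonneg_left hh1 hh.le) ?_ (by positivity)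
              (by positivity)
            exact mul_le_mul (pow_le_pow_left₀ (hc0 m) (hcA m hm) 2) h5 (by positivity)
              (by positivity)
        _ = _ := by ring
    linarith
  -- the terms
  have e1 : h ^ 2 * ‖dz (gg h f n) y‖ ^ 2 = ‖gg h f (n + 1) y‖ ^ 2 := by
    rw [gg_succ, norm_mul, mul_pow, Complex.norm_real, Real.norm_eq_abs, sq_abs]
  have e2 : h ^ 4 * ‖dzb (dz (gg h f n)) y‖ ^ 2 = ‖(h : ℂ) * dzb (gg h f (n + 1)) y‖ ^ 2 := by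
    have h1 : dzb (gg h f (n + 1)) y = (h : ℂ) * dzb (dz (gg h f n)) y :=
      dzb_const_mul (h : ℂ) (contDiff_dz (contDiff_gg hf.smooth h n))
    rw [h1, norm_mul, norm_mul, Complex.norm_real, Real.norm_eq_abs, mul_pow, mul_pow, sq_abs]
    ring
  have e3 : h ^ 2 * ‖dzb (gg h f n) y‖ ^ 2 ≤ (2 + 2 * Q ^ 2) * ‖gg h f (n - 1) y‖ ^ 2 +
      ‖gg h f (n + 1) y‖ ^ 2 + 2 * (h * (A ^ 2 * (N + 2) * S)) := by
    have p1 : 0 ≤ 2 * (h * (A ^ 2 * (N + 2) * S)) := by positivity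
    cases n with
    | zero =>
      rw [dzb_zero hf.smooth, e1]
      have : 0 ≤ (2 + 2 * Q ^ 2) * ‖gg h f (0 - 1) y‖ ^ 2 := by positivity
      linarith
    | succ m =>
      have h1 := hEr m (by omega)
      rw [norm_mul, mul_pow, Complex.norm_real, Real.norm_eq_abs, sq_abs] at h1
      have h2 : m + 1 - 1 = m := rfl
      rw [h2]
      have : 0 ≤ ‖gg h f m y‖ ^ 2 := by positivity
      have : 0 ≤ ‖gg h f (m + 1 + 1) y‖ ^ 2 := by positivity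
      linarith
  have e4 := hEr n hn
  unfold PP
  rw [mul_add, e1, e2]
  have p1 : 0 ≤ ‖gg h f n y‖ ^ 2 := by positivity
  have p2 : 0 ≤ 2 * Q ^ 2 * ‖gg h f (n + 1) y‖ ^ 2 := by positivity
  have e5 : h * (4 * (A ^ 2 * (N + 2)) * S) = 2 * (h * (A ^ 2 * (N + 2) * S)) +
    2 * (h * (A ^ 2 * (N + 2) * S)) := by ring
  rw [e5]
  nlinarith

/-- powers of `q` at neighbouring points -/
lemma q_pow {a b q₀ Q ε E : ℝ} {N n m : ℕ} (hq0 : 0 < q₀) (ha : q₀ ≤ a) (haQ : a ≤ Q) (hb : 0 < b)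
    (hε : 0 ≤ ε) (hab : a ≤ (1 + ε) * b) (hE : (1 + ε) ^ N ≤ E) (hn : n ≤ N) (h1 : n ≤ m + 1)
    (h2 : m ≤ n + 1) : a ^ m ≤ E * (1 + Q + q₀⁻¹) * b ^ n := by
  have ha0 : 0 < a := hq0.trans_le ha
  have hQ0 : 0 < Q := ha0.trans_le haQ
  have k1 : a ^ n ≤ E * b ^ n := by
    calc a ^ n ≤ ((1 + ε) * b) ^ n := pow_le_pow_left₀ ha0.le hab n
      _ = (1 + ε) ^ n * b ^ n := mul_pow _ _ _
      _ ≤ (1 + ε) ^ N * b ^ n := mul_le_mul_of_nonneg_right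
          (pow_le_pow_right₀ (by linarith) hn) (by positivity)
      _ ≤ _ := mul_le_mul_of_nonneg_right hE (by positivity)
  have k0 : 0 ≤ E * b ^ n := le_trans (by positivity) k1
  have k2 : 0 < q₀⁻¹ := inv_pos.mpr hq0
  have k3 : E * (1 + Q + q₀⁻¹) * b ^ n = E * b ^ n + Q * (E * b ^ n) + q₀⁻¹ * (E * b ^ n) := by
    ring
  have k4 : 0 ≤ Q * (E * b ^ n) := mul_nonneg hQ0.le k0
  have k5 : 0 ≤ q₀⁻¹ * (E * b ^ n) := mul_nonneg k2.le k0
  rw [k3]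
  rcases Nat.lt_trichotomy m n with h | h | h
  · obtain rfl : n = m + 1 := by omega
    have k6 : a ^ m = a⁻¹ * a ^ (m + 1) := by
      rw [pow_succ]
      field_simp
    have k7 : a ^ m ≤ q₀⁻¹ * (E * b ^ (m + 1)) := by
      rw [k6]
      exact mul_le_mul (inv_anti₀ hq0 ha) k1 (by positivity) k2.le
    linarith
  · subst h
    linarith
  · obtain rfl : m = n + 1 := by omega
    have k7 : a ^ (n + 1) ≤ Q * (E * b ^ n) := by
      rw [pow_succ, mul_comm]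
      exact mul_le_mul haQ k1 (by positivity) hQ0.le
    linarith

/-- comparison of the integral over the disc with weighted integrals -/
lemma int_le (hP : Pot V q) {ζ : ℂ → ℝ} (hζ : TestR V ζ) {h : ℝ} {f : ℂ → ℝ}
    (hf : ContDiff ℝ ∞ f) {w : ℂ → ℝ} (hw : Continuous w) {z : ℂ} {κ A D : ℝ} (hκ : 0 < κ)
    (hA : 0 ≤ A) (hD : 0 ≤ D) {n M : ℕ} {P : ℂ → ℝ} (hP0 : ∀ y, 0 ≤ P y)
    (hζ1 : ∀ y ∈ Metric.closedBall z h, ζ y = 1) (hwκ : ∀ y ∈ Metric.closedBall z h, κ ≤ w y)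
    (hPle : ∀ y ∈ Metric.closedBall z h, P y ≤
      A * (‖gg h f (n - 1) y‖ ^ 2 / q y ^ (n - 1) + ‖gg h f n y‖ ^ 2 / q y ^ n +
        ‖gg h f (n + 1) y‖ ^ 2 / q y ^ (n + 1)) +
      D * ∑ j ∈ Finset.range M, ‖gg h f j y‖ ^ 2) :
    ∫ y in Metric.closedBall z h, P y ≤ (κ ^ 2)⁻¹ *
      (A * ((∫ y, ζ y ^ 2 * w y ^ 2 * (‖gg h f (n - 1) y‖ ^ 2 / q y ^ (n - 1))) +
          (∫ y, ζ y ^ 2 * w y ^ 2 * (‖gg h f n y‖ ^ 2 / q y ^ n)) +
          ∫ y, ζ y ^ 2 * w y ^ 2 * (‖gg h f (n + 1) y‖ ^ 2 / q y ^ (n + 1))) +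
        D * ∑ j ∈ Finset.range M, ∫ y, ζ y ^ 2 * w y ^ 2 * ‖gg h f j y‖ ^ 2) := by
  have hg : ∀ j, Continuous (gg h f j) := fun j => (contDiff_gg hf h j).continuous
  have hqc : ∀ m : ℕ, Continuous fun y => q y ^ m := fun m => hP.smooth.continuous.pow m
  have hqne : ∀ (m : ℕ) (y : ℂ), q y ^ m ≠ 0 := fun m y => (pow_pos (hP.pos y) m).ne'
  have iN : ∀ m, Integrable fun y => ζ y ^ 2 * w y ^ 2 * (‖gg h f m y‖ ^ 2 / q y ^ m) := by
    intro m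
    have hc : Continuous fun y => w y ^ 2 * (‖gg h f m y‖ ^ 2 / q y ^ m) :=
      (hw.pow 2).mul (((hg m).norm.pow 2).div₀ (hqc m) (hqne m))
    refine (L4.integrable_test hζ hc 1).congr (ae_of_all _ fun y => ?_)
    simp only
    ring
  have iG : ∀ j, Integrable fun y => ζ y ^ 2 * w y ^ 2 * ‖gg h f j y‖ ^ 2 := by
    intro j
    have hc : Continuous fun y => w y ^ 2 * ‖gg h f j y‖ ^ 2 := (hw.pow 2).mul ((hg j).norm.pow 2)
    refine (L4.integrable_test hζ hc 1).congr (ae_of_all _ fun y => ?_)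
    simp only
    ring
  set F : ℂ → ℝ := fun y => (κ ^ 2)⁻¹ *
      (A * ((ζ y ^ 2 * w y ^ 2 * (‖gg h f (n - 1) y‖ ^ 2 / q y ^ (n - 1)) +
          ζ y ^ 2 * w y ^ 2 * (‖gg h f n y‖ ^ 2 / q y ^ n)) +
          ζ y ^ 2 * w y ^ 2 * (‖gg h f (n + 1) y‖ ^ 2 / q y ^ (n + 1))) +
        D * ∑ j ∈ Finset.range M, ζ y ^ 2 * w y ^ 2 * ‖gg h f j y‖ ^ 2) with hF
  have iS : Integrable fun y => ∑ j ∈ Finset.range M, ζ y ^ 2 * w y ^ 2 * ‖gg h f j y‖ ^ 2 :=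
    integrable_finsetSum _ fun j _ => iG j
  have iF : Integrable F := ((((iN _).add (iN _)).add (iN _)).const_mul A |>.add
    (iS.const_mul D)).const_mul _
  have hnn : ∀ (m : ℕ) (y : ℂ), 0 ≤ ‖gg h f m y‖ ^ 2 / q y ^ m := fun m y =>
    div_nonneg (by positivity) (pow_pos (hP.pos y) m).le
  have hF0 : ∀ y, 0 ≤ F y := by
    intro y
    have h1 := hnn (n - 1) y
    have h2 := hnn n y
    have h3 := hnn (n + 1) y
    have h4 : 0 ≤ ∑ j ∈ Finset.range M, ζ y ^ 2 * w y ^ 2 * ‖gg h f j y‖ ^ 2 :=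
      Finset.sum_nonneg fun _ _ => by positivity
    rw [hF]
    positivity
  have step : ∫ y in Metric.closedBall z h, P y ≤ ∫ y in Metric.closedBall z h, F y := by
    refine integral_mono_of_nonneg (ae_of_all _ hP0) iF.integrableOn ?_
    refine (ae_restrict_iff' Metric.isClosed_closedBall.measurableSet).mpr
      (ae_of_all _ fun y hy => ?_)
    refine (hPle y hy).trans ?_
    have h1 := hζ1 y hy
    have h2 := hwκ y hy
    have h3 : 1 ≤ (κ ^ 2)⁻¹ * w y ^ 2 := by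
      rw [inv_mul_eq_div, one_le_div (by positivity)]
      exact pow_le_pow_left₀ hκ.le h2 2
    have n1 := hnn (n - 1) y
    have n2 := hnn n y
    have n3 := hnn (n + 1) y
    have n4 : 0 ≤ ∑ j ∈ Finset.range M, ‖gg h f j y‖ ^ 2 :=
      Finset.sum_nonneg fun _ _ => by positivity
    have e1 : F y = ((κ ^ 2)⁻¹ * w y ^ 2) *
        (A * (‖gg h f (n - 1) y‖ ^ 2 / q y ^ (n - 1) + ‖gg h f n y‖ ^ 2 / q y ^ n +
        ‖gg h f (n + 1) y‖ ^ 2 / q y ^ (n + 1)) +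
        D * ∑ j ∈ Finset.range M, ‖gg h f j y‖ ^ 2) := by
      rw [hF]
      simp only [h1, one_pow, one_mul, ← Finset.mul_sum]
      ring
    rw [e1]
    have e2 : 0 ≤ A * (‖gg h f (n - 1) y‖ ^ 2 / q y ^ (n - 1) + ‖gg h f n y‖ ^ 2 / q y ^ n +
        ‖gg h f (n + 1) y‖ ^ 2 / q y ^ (n + 1)) +
        D * ∑ j ∈ Finset.range M, ‖gg h f j y‖ ^ 2 := by positivity
    nlinarith
  refine step.trans ((setIntegral_le_integral iF (ae_of_all _ hF0)).trans (le_of_eq ?_))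
  have i2 : Integrable fun y => ζ y ^ 2 * w y ^ 2 * (‖gg h f (n - 1) y‖ ^ 2 / q y ^ (n - 1)) +
      ζ y ^ 2 * w y ^ 2 * (‖gg h f n y‖ ^ 2 / q y ^ n) := (iN _).add (iN _)
  have i3 : Integrable fun y => (ζ y ^ 2 * w y ^ 2 * (‖gg h f (n - 1) y‖ ^ 2 / q y ^ (n - 1)) +
      ζ y ^ 2 * w y ^ 2 * (‖gg h f n y‖ ^ 2 / q y ^ n)) +
      ζ y ^ 2 * w y ^ 2 * (‖gg h f (n + 1) y‖ ^ 2 / q y ^ (n + 1)) := i2.add (iN _)
  have i4 : Integrable fun y => A * ((ζ y ^ 2 * w y ^ 2 *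
      (‖gg h f (n - 1) y‖ ^ 2 / q y ^ (n - 1)) +
      ζ y ^ 2 * w y ^ 2 * (‖gg h f n y‖ ^ 2 / q y ^ n)) +
      ζ y ^ 2 * w y ^ 2 * (‖gg h f (n + 1) y‖ ^ 2 / q y ^ (n + 1))) := i3.const_mul A
  have i5 : Integrable fun y => D * ∑ j ∈ Finset.range M, ζ y ^ 2 * w y ^ 2 *
      ‖gg h f j y‖ ^ 2 := iS.const_mul D
  rw [hF, integral_const_mul, integral_add i4 i5, integral_const_mul, integral_const_mul,
    integral_add i2 (iN _), integral_add (iN _) (iN _), integral_finsetSum _ fun j _ => iG j]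

/-- powers of `1 + 1/(N+1)` -/
lemma exp_bound (N : ℕ) : (1 + 1 / ((N : ℝ) + 1)) ^ N ≤ Real.exp 1 := by
  have h1 : 1 + 1 / ((N : ℝ) + 1) ≤ Real.exp (1 / ((N : ℝ) + 1)) := by
    have := Real.add_one_le_exp (1 / ((N : ℝ) + 1))
    linarith
  have h0 : (0 : ℝ) < (N : ℝ) + 1 := by positivity
  calc (1 + 1 / ((N : ℝ) + 1)) ^ N ≤ (Real.exp (1 / ((N : ℝ) + 1))) ^ N :=
        pow_le_pow_left₀ (by positivity) h1 N
    _ = Real.exp (N * (1 / ((N : ℝ) + 1))) := (Real.exp_nat_mul _ _).symm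
    _ ≤ Real.exp 1 := by
        refine Real.exp_le_exp.mpr ?_
        rw [mul_one_div, div_le_one h0]
        linarith

end PtM

open PtM

theorem stmtPt (hE : StmtErr) (hC : StmtCacc) (hW : StmtWt) (hS : StmtSb) (hO : StmtOs) :
    StmtPt := by
  classical
  intro V q hP K hK hKV
  obtain ⟨CS, hCS0, hCS⟩ := hS
  obtain ⟨d, hd, hdV⟩ := hK.exists_cthickening_subset_open hP.isOpen hKV
  set K' := Metric.cthickening d K with hK'def
  have hK' : IsCompact K' := hK.cthickening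
  have hKK' : K ⊆ K' := Metric.self_subset_cthickening K
  obtain ⟨ζ, hζ, hζ01, hζ1⟩ := exists_cutoff hK' hP.isOpen hdV
  have hζ1' : ∀ y ∈ K', ζ y = 1 := fun y hy => hζ1.self_of_nhdsSet y hy
  have hqcont : ContinuousOn q K' := hP.smooth.continuous.continuousOn
  obtain ⟨q₀, hq₀, hq₀'⟩ : ∃ q₀ : ℝ, 0 < q₀ ∧ ∀ y ∈ K', q₀ ≤ q y := by
    rcases K'.eq_empty_or_nonempty with h | h
    · exact ⟨1, one_pos, fun y hy => absurd (h ▸ hy) (Set.notMem_empty y)⟩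
    · obtain ⟨y₀, -, hy₀⟩ := hK'.exists_isMinOn h hqcont
      exact ⟨q y₀, hP.pos y₀, fun y hy => hy₀ hy⟩
  obtain ⟨Q, hQ0, hQ⟩ : ∃ Q : ℝ, 0 ≤ Q ∧ ∀ y ∈ K', q y ≤ Q := by
    obtain ⟨Q, hQ⟩ := hK'.exists_bound_of_continuousOn hqcont
    exact ⟨|Q|, abs_nonneg _, fun y hy => ((le_abs_self _).trans (hQ y hy)).trans (le_abs_self _)⟩
  obtain ⟨c₀, hc₀, hOs⟩ := hO V q hP ζ hζ
  choose ζs Cs hζs hζs01 hCs0 hCs using hOs
  refine ⟨12 * c₀, by positivity, fun δ hδ hδ1 hcδ => ?_⟩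
  obtain ⟨hW1, -⟩ := hW δ hδ
  set κ : ℝ := (((1 + δ ^ 2) ^ 2)⁻¹) ^ 3 with hκdef
  have hκ : 0 < κ := by positivity
  set R : ℝ := Real.exp 1 * (1 + Q + q₀⁻¹) with hR
  have hq₀i : 0 < q₀⁻¹ := inv_pos.mpr hq₀
  have hR0 : 0 ≤ R := by positivity
  refine ⟨CS * (κ ^ 2)⁻¹ * (9 * ((2 + 2 * Q ^ 2) * R) + 1), by positivity, fun N => ?_⟩
  obtain ⟨ζc, Cc, hζc, hCc0, hCc⟩ := L4.cacc_all hC hP (N + 1) hζ
  obtain ⟨CP, hCP0, hCP⟩ := PP_le hE hP hK' hdV hQ N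
  -- the cutoff
  set T : Set ℂ := (tsupport ζ ∪ tsupport ζc) ∪ ⋃ m ∈ Finset.range (N + 2), tsupport (ζs m) with hT
  have hTc : IsCompact T := (hζ.cpt.isCompact.union hζc.cpt.isCompact).union
    ((Finset.range (N + 2)).isCompact_biUnion fun m _ => (hζs m).cpt.isCompact)
  have hTV : T ⊆ V := by
    refine Set.union_subset (Set.union_subset hζ.sub hζc.sub) ?_
    exact Set.iUnion₂_subset fun m _ => (hζs m).sub
  obtain ⟨ρ, hρ, hρ01, hρ1⟩ := exists_cutoff hTc hP.isOpen hTV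
  have hρ1' : ∀ y ∈ T, ρ y = 1 := fun y hy => hρ1.self_of_nhdsSet y hy
  have dom : ∀ (η : ℂ → ℝ) (B : ℝ), (∀ y, |η y| ≤ B) → tsupport η ⊆ T →
      ∀ y, η y ^ 2 ≤ B ^ 2 * ρ y ^ 2 := by
    intro η B hB hs y
    by_cases hy : y ∈ tsupport η
    · rw [hρ1' y (hs hy), one_pow, mul_one, ← sq_abs]
      exact pow_le_pow_left₀ (abs_nonneg _) (hB y) 2
    · rw [image_eq_zero_of_notMem_tsupport hy, zero_pow two_ne_zero]
      positivity
  have abs1 : ∀ {η : ℂ → ℝ}, (∀ y, 0 ≤ η y ∧ η y ≤ 1) → ∀ y, |η y| ≤ 1 := by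
    intro η hη y
    rw [abs_of_nonneg (hη y).1]
    exact (hη y).2
  obtain ⟨Bc, hBc⟩ := hζc.cpt.exists_bound_of_continuous hζc.smooth.continuous
  have dζ := dom ζ 1 (abs1 hζ01) (fun y hy => Or.inl (Or.inl hy))
  have dc := dom ζc Bc hBc (fun y hy => Or.inl (Or.inr hy))
  have ds : ∀ m ≤ N + 1, ∀ y, ζs m y ^ 2 ≤ 1 ^ 2 * ρ y ^ 2 := fun m hm =>
    dom (ζs m) 1 (abs1 (hζs01 m)) (fun y hy => Or.inr (Set.mem_iUnion₂.mpr
      ⟨m, Finset.mem_range.mpr (by omega), hy⟩))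
  -- constants
  obtain ⟨h₁, hh₁, hh₁'⟩ := Metric.uniformContinuousOn_iff.mp
    (hK'.uniformContinuousOn_of_continuous hqcont) (q₀ * (1 / ((N : ℝ) + 1))) (by positivity)
  set μ : ℝ := (min 1 q₀) ^ N with hμ
  have hμ0 : 0 < μ := pow_pos (lt_min one_pos hq₀) N
  set SC : ℝ := ∑ m ∈ Finset.range (N + 2), Cs m with hSC
  have hSC0 : 0 ≤ SC := Finset.sum_nonneg fun m _ => hCs0 m
  have hCsle : ∀ m ≤ N + 1, Cs m ≤ SC := fun m hm =>
    Finset.single_le_sum (f := Cs) (fun m _ => hCs0 m) (Finset.mem_range.mpr (by omega))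
  set X : ℝ := CP * (((N : ℝ) + 2) * (Cc * Bc ^ 2)) with hX
  have hX0 : 0 ≤ X := by positivity
  refine ⟨ρ, min (min d (h₁ / 2)) (min (1 / (1 + SC)) (μ / (1 + X))), hρ, hρ01, ?_, ?_⟩
  · refine lt_min (lt_min hd (by positivity)) (lt_min (by positivity) (by positivity))
  intro h f hf hh z hz n hn
  have hhd : h ≤ d := hh.trans ((min_le_left _ _).trans (min_le_left _ _))
  have hhh : h ≤ h₁ / 2 := hh.trans ((min_le_left _ _).trans (min_le_right _ _))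
  have hhS : h * SC ≤ 1 := by
    have h1 : h ≤ 1 / (1 + SC) := hh.trans ((min_le_right _ _).trans (min_le_left _ _))
    rw [le_div_iff₀ (by positivity)] at h1
    have := hf.hpos
    linarith
  have hhX : h * X ≤ μ := by
    have h1 : h ≤ μ / (1 + X) := hh.trans ((min_le_right _ _).trans (min_le_right _ _))
    rw [le_div_iff₀ (by positivity)] at h1
    have := hf.hpos
    linarith
  have hpos := hf.hpos
  have hball : Metric.closedBall z h ⊆ K' := by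
    intro y hy
    exact Metric.closedBall_subset_cthickening hz d (Metric.closedBall_subset_closedBall hhd hy)
  have hzK' : z ∈ K' := hKK' hz
  -- the weight
  set w : ℂ → ℝ := ww δ h z with hwdef
  obtain ⟨hw1, hw2⟩ := hW1 h z hpos
  have hwc : Continuous w := hw1.continuous
  have hw0 : ∀ y, 0 < w y := fun y => (hw2 y).1
  have hwD : ∀ y, h * ‖fderiv ℝ w y‖ ≤ 12 * δ * w y := fun y => (hw2 y).2.2.2.1
  have hwκ : ∀ y ∈ Metric.closedBall z h, κ ≤ w y := by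
    intro y hy
    refine (hw2 y).2.2.2.2 ?_
    rw [← dist_eq_norm, dist_comm]
    exact hy
  have h12 : 12 * δ ≤ 1 := by linarith
  have hfc := hf.smooth.continuous
  set I : ℝ := ∫ y, ρ y ^ 2 * w y ^ 2 * f y ^ 2 with hI
  have hI0 : 0 ≤ I := integral_nonneg fun y => by positivity
  -- the integrals
  have hcδ' : 12 * c₀ * δ ≤ 1 := hcδ
  have hb1 : 1 ≤ 1 + 12 * c₀ * δ := by
    have : 0 ≤ 12 * c₀ * δ := by positivity
    linarith
  set G : ℝ := (1 + 12 * c₀ * δ) ^ n with hG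
  have hG1 : 1 ≤ G := one_le_pow₀ hb1
  have hIN : ∀ m ≤ n + 1, ∫ y, ζ y ^ 2 * w y ^ 2 * (‖gg h f m y‖ ^ 2 / q y ^ m) ≤ 3 * G * I := by
    intro m hm
    have h1 := hCs m (12 * δ) h f w (by positivity) h12 (by linarith) hf hw1 hw0 hwD
    have h2 : ∫ y, ζ y ^ 2 * w y ^ 2 * f y ^ 2 ≤ 1 ^ 2 * I := L4.int_dom hρ dζ hwc hfc
    have h3 : ∫ y, ζs m y ^ 2 * w y ^ 2 * f y ^ 2 ≤ 1 ^ 2 * I :=
      L4.int_dom hρ (ds m (by omega)) hwc hfc
    rw [one_pow, one_mul] at h2 h3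
    have h4 : (1 + c₀ * (12 * δ)) ^ m ≤ 2 * G := by
      have e1 : 1 + c₀ * (12 * δ) = 1 + 12 * c₀ * δ := by ring
      rw [e1]
      have e2 : (1 + 12 * c₀ * δ) ^ m ≤ (1 + 12 * c₀ * δ) ^ (n + 1) := pow_le_pow_right₀ hb1 hm
      rw [pow_succ] at e2
      have e3 : 1 + 12 * c₀ * δ ≤ 2 := by linarith
      have e4 : G * (1 + 12 * c₀ * δ) ≤ G * 2 := mul_le_mul_of_nonneg_left e3 (by positivity)
      linarith
    have h5 : h * Cs m ≤ 1 := (mul_le_mul_of_nonneg_left (hCsle m (by omega)) hpos.le).trans hhS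
    have h6 : (1 + c₀ * (12 * δ)) ^ m * (∫ y, ζ y ^ 2 * w y ^ 2 * f y ^ 2) ≤ 2 * G * I :=
      mul_le_mul h4 h2 (integral_nonneg fun y => by positivity) (by positivity)
    have h7 : h * Cs m * (∫ y, ζs m y ^ 2 * w y ^ 2 * f y ^ 2) ≤ 1 * I :=
      mul_le_mul h5 h3 (integral_nonneg fun y => by positivity) zero_le_one
    have h8 : 1 * I ≤ G * I := mul_le_mul_of_nonneg_right hG1 hI0
    linarith
  have hIG : ∑ j ∈ Finset.range (N + 2), ∫ y, ζ y ^ 2 * w y ^ 2 * ‖gg h f j y‖ ^ 2 ≤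
      ((N : ℝ) + 2) * (Cc * Bc ^ 2) * I := by
    have h1 : ∀ j ∈ Finset.range (N + 2), ∫ y, ζ y ^ 2 * w y ^ 2 * ‖gg h f j y‖ ^ 2 ≤
        Cc * Bc ^ 2 * I := by
      intro j hj
      have hWC : L4.WC h w := ⟨hw1, hw0, fun y => (hwD y).trans
        (mul_le_mul_of_nonneg_right (by linarith) (hw0 y).le)⟩
      have h2 := hCc h f w hf hWC j (by
        have := Finset.mem_range.mp hj
        omega)
      have h3 : ∫ y, ζc y ^ 2 * w y ^ 2 * f y ^ 2 ≤ Bc ^ 2 * I := L4.int_dom hρ dc hwc hfc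
      refine h2.trans ?_
      rw [mul_assoc]
      exact mul_le_mul_of_nonneg_left h3 hCc0
    refine (Finset.sum_le_sum h1).trans (le_of_eq ?_)
    rw [Finset.sum_const, Finset.card_range, nsmul_eq_mul]
    push_cast
    ring
  -- the pointwise bound on the disc
  have hqz := hP.pos z
  have hqn : 0 < q z ^ n := pow_pos hqz n
  have hμle : μ ≤ q z ^ n := by
    have h1 : min 1 q₀ ≤ q z := (min_le_right _ _).trans (hq₀' z hzK')
    have h2 : 0 ≤ min 1 q₀ := (lt_min one_pos hq₀).le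
    calc μ ≤ (min 1 q₀) ^ n := pow_le_pow_of_le_one h2 (min_le_left _ _) hn
      _ ≤ q z ^ n := pow_le_pow_left₀ h2 h1 n
  have hqq : ∀ y ∈ Metric.closedBall z h, ∀ m : ℕ, n ≤ m + 1 → m ≤ n + 1 →
      q y ^ m ≤ R * q z ^ n := by
    intro y hy m h1 h2
    have h3 : dist (q y) (q z) < q₀ * (1 / ((N : ℝ) + 1)) := by
      refine hh₁' y (hball hy) z hzK' ?_
      have : dist y z ≤ h := hy
      linarith
    have h4 : q y ≤ (1 + 1 / ((N : ℝ) + 1)) * q z := by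
      have h5 : q y - q z ≤ q₀ * (1 / ((N : ℝ) + 1)) := by
        rw [Real.dist_eq] at h3
        exact (le_abs_self _).trans h3.le
      have h6 : q₀ * (1 / ((N : ℝ) + 1)) ≤ q z * (1 / ((N : ℝ) + 1)) :=
        mul_le_mul_of_nonneg_right (hq₀' z hzK') (by positivity)
      nlinarith
    exact q_pow hq₀ (hq₀' y (hball hy)) (hQ y (hball hy)) hqz (by positivity) h4 (exp_bound N) hn
      h1 h2
  have hPle : ∀ y ∈ Metric.closedBall z h, PP h (gg h f n) y ≤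
      ((2 + 2 * Q ^ 2) * (R * q z ^ n)) * (‖gg h f (n - 1) y‖ ^ 2 / q y ^ (n - 1) +
        ‖gg h f n y‖ ^ 2 / q y ^ n + ‖gg h f (n + 1) y‖ ^ 2 / q y ^ (n + 1)) +
      (h * CP) * ∑ j ∈ Finset.range (N + 2), ‖gg h f j y‖ ^ 2 := by
    intro y hy
    refine (hCP h f hf y (hball hy) n hn).trans ?_
    have h1 : ∀ m : ℕ, n ≤ m + 1 → m ≤ n + 1 →
        ‖gg h f m y‖ ^ 2 ≤ R * q z ^ n * (‖gg h f m y‖ ^ 2 / q y ^ m) := by
      intro m h1 h2
      have h3 := hqq y hy m h1 h2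
      have h4 : 0 < q y ^ m := pow_pos (hP.pos y) m
      rw [← mul_div_assoc, le_div_iff₀ h4, mul_comm]
      exact mul_le_mul_of_nonneg_right h3 (by positivity)
    have k1 := h1 (n - 1) (by omega) (by omega)
    have k2 := h1 n (by omega) (by omega)
    have k3 := h1 (n + 1) (by omega) (by omega)
    have k4 : (2 + 2 * Q ^ 2) * (‖gg h f (n - 1) y‖ ^ 2 + ‖gg h f n y‖ ^ 2 +
        ‖gg h f (n + 1) y‖ ^ 2) ≤ (2 + 2 * Q ^ 2) * (R * q z ^ n *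
        (‖gg h f (n - 1) y‖ ^ 2 / q y ^ (n - 1)) + R * q z ^ n * (‖gg h f n y‖ ^ 2 / q y ^ n) +
        R * q z ^ n * (‖gg h f (n + 1) y‖ ^ 2 / q y ^ (n + 1))) :=
      mul_le_mul_of_nonneg_left (by linarith) (by positivity)
    have k5 : h * (CP * ∑ j ∈ Finset.range (N + 2), ‖gg h f j y‖ ^ 2) =
        (h * CP) * ∑ j ∈ Finset.range (N + 2), ‖gg h f j y‖ ^ 2 := by ring
    rw [k5]
    nlinarith
  have main := int_le hP hζ hf.smooth hwc (z := z) (κ := κ) hκ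
    (A := (2 + 2 * Q ^ 2) * (R * q z ^ n)) (D := h * CP) (by positivity) (by positivity)
    (n := n) (M := N + 2) (P := PP h (gg h f n)) (fun y => by unfold PP; positivity)
    (fun y hy => hζ1' y (hball hy)) hwκ hPle
  have hSb := hCS (gg h f n) (contDiff_gg hf.smooth h n) z h hpos
  have a1 := hIN (n - 1) (by omega)
  have a2 := hIN n (by omega)
  have a3 := hIN (n + 1) le_rfl
  have b1 : (2 + 2 * Q ^ 2) * (R * q z ^ n) *
      ((∫ y, ζ y ^ 2 * w y ^ 2 * (‖gg h f (n - 1) y‖ ^ 2 / q y ^ (n - 1))) +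
          (∫ y, ζ y ^ 2 * w y ^ 2 * (‖gg h f n y‖ ^ 2 / q y ^ n)) +
          ∫ y, ζ y ^ 2 * w y ^ 2 * (‖gg h f (n + 1) y‖ ^ 2 / q y ^ (n + 1))) ≤
      (2 + 2 * Q ^ 2) * (R * q z ^ n) * (9 * G * I) :=
    mul_le_mul_of_nonneg_left (by linarith) (by positivity)
  have b2 : (h * CP) * ∑ j ∈ Finset.range (N + 2), (∫ y, ζ y ^ 2 * w y ^ 2 * ‖gg h f j y‖ ^ 2) ≤
      (q z ^ n * G) * I := by
    calc (h * CP) * ∑ j ∈ Finset.range (N + 2), (∫ y, ζ y ^ 2 * w y ^ 2 * ‖gg h f j y‖ ^ 2)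
        ≤ (h * CP) * (((N : ℝ) + 2) * (Cc * Bc ^ 2) * I) :=
          mul_le_mul_of_nonneg_left hIG (by positivity)
      _ = (h * X) * I := by rw [hX]; ring
      _ ≤ (q z ^ n * G) * I := by
          refine mul_le_mul_of_nonneg_right ?_ hI0
          refine (hhX.trans hμle).trans ?_
          exact le_mul_of_one_le_right hqn.le hG1
  have b3 : ∫ y in Metric.closedBall z h, PP h (gg h f n) y ≤
      (κ ^ 2)⁻¹ * (((2 + 2 * Q ^ 2) * (R * q z ^ n) * (9 * G * I)) + (q z ^ n * G) * I) :=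
    main.trans (mul_le_mul_of_nonneg_left (add_le_add b1 b2) (by positivity))
  have b4 : ‖gg h f n z‖ ^ 2 ≤ CS * (h ^ 2)⁻¹ * ∫ y in Metric.closedBall z h, PP h (gg h f n) y :=
    hSb
  refine b4.trans ((mul_le_mul_of_nonneg_left b3 (by positivity)).trans (le_of_eq ?_))
  unfold WW
  rw [← hwdef, ← hI]
  ring

end

end Pool.Agent.A54.B6
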