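import Pool.Agent.Lib.MP_a54f13_nt.B6.Spec

/-!
# Package `B6`: Sobolev's inequality in the plane
-/

set_option autoImplicit false

namespace Pool.Agent.A54.B6

open MeasureTheory Filter Topology Set
open scoped ContDiff ComplexConjugate

noncomputable section

namespace SbM

/-! ### The pointwise bound by the mixed derivative -/

lemma one_dim {φ : ℝ → ℂ} (hφ : ContDiff ℝ 1 φ) (hc : HasCompactSupport φ) (b : ℝ) :
    ‖φ b‖ ≤ ∫ x, ‖deriv φ x‖ := by
  have h1 := hc.integral_Iic_deriv_eq hφ b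
  have h2 : Integrable (fun x => ‖deriv φ x‖) := by
    refine ((hφ.continuous_deriv (by simp)).integrable_of_hasCompactSupport hc.deriv).norm
  calc ‖φ b‖ = ‖∫ x in Iic b, deriv φ x‖ := by rw [h1]
    _ ≤ ∫ x in Iic b, ‖deriv φ x‖ := norm_integral_le_integral_norm _
    _ ≤ ∫ x, ‖deriv φ x‖ := setIntegral_le_integral h2 (ae_of_all _ fun _ => norm_nonneg _)

/-- the mixed derivative -/
def mx (u : ℂ → ℂ) (y : ℂ) : ℂ := fderiv ℝ (fun t => fderiv ℝ u t 1) y Complex.I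

lemma contDiff_mx {u : ℂ → ℂ} (hu : ContDiff ℝ ∞ u) : ContDiff ℝ ∞ (mx u) :=
  contDiff_apply (contDiff_apply hu 1) Complex.I

lemma hor {u : ℂ → ℂ} (hu : ContDiff ℝ ∞ u) (hc : HasCompactSupport u) (x0 y0 : ℝ) :
    ‖u (x0 + y0 * Complex.I)‖ ≤ ∫ x : ℝ, ‖fderiv ℝ u (x + y0 * Complex.I) 1‖ := by
  have hd : ∀ x : ℝ, HasDerivAt (fun x : ℝ => u (x + y0 * Complex.I)) (fderiv ℝ u (x + y0 * Complex.I) 1) x := by
    intro x
    have h1 : HasDerivAt (fun x : ℝ => ((x : ℂ) + y0 * Complex.I)) 1 x :=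
      (Complex.ofRealCLM.hasDerivAt (x := x)).add_const _
    exact (diffAt (z := (x : ℂ) + y0 * Complex.I) hu).hasFDerivAt.comp_hasDerivAt x h1
  have hcd : ContDiff ℝ 1 (fun x : ℝ => u (x + y0 * Complex.I)) :=
    (hu.of_le (by simp)).comp (Complex.ofRealCLM.contDiff.add contDiff_const)
  have hcs : HasCompactSupport (fun x : ℝ => u (x + y0 * Complex.I)) := by
    refine hc.comp_isClosedEmbedding (g := fun x : ℝ => ((x : ℂ) + y0 * Complex.I)) ?_
    exact ((Homeomorph.addRight ((y0 : ℂ) * Complex.I)).isClosedEmbedding).comp Complex.isometry_ofReal.isClosedEmbedding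
  refine (one_dim hcd hcs x0).trans (le_of_eq ?_)
  refine integral_congr_ae (ae_of_all _ fun x => ?_)
  change ‖deriv (fun x : ℝ => u (x + y0 * Complex.I)) x‖ = _
  rw [(hd x).deriv]

lemma ver {u : ℂ → ℂ} (hu : ContDiff ℝ ∞ u) (hc : HasCompactSupport u) (x0 y0 : ℝ) :
    ‖u (x0 + y0 * Complex.I)‖ ≤ ∫ y : ℝ, ‖fderiv ℝ u (x0 + y * Complex.I) Complex.I‖ := by
  have hd : ∀ y : ℝ, HasDerivAt (fun y : ℝ => u (x0 + y * Complex.I)) (fderiv ℝ u (x0 + y * Complex.I) Complex.I) y := by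
    intro y
    have h1 : HasDerivAt (fun y : ℝ => ((x0 : ℂ) + y * Complex.I)) Complex.I y := by
      have h2 := (((Complex.ofRealCLM.hasDerivAt (x := y)).mul_const Complex.I).const_add (x0 : ℂ))
      simpa using h2
    exact (diffAt (z := (x0 : ℂ) + y * Complex.I) hu).hasFDerivAt.comp_hasDerivAt y h1
  have hcd : ContDiff ℝ 1 (fun y : ℝ => u (x0 + y * Complex.I)) :=
    (hu.of_le (by simp)).comp (contDiff_const.add (Complex.ofRealCLM.contDiff.mul contDiff_const))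
  have hcs : HasCompactSupport (fun y : ℝ => u (x0 + y * Complex.I)) := by
    refine hc.comp_isClosedEmbedding (g := fun y : ℝ => ((x0 : ℂ) + y * Complex.I)) ?_
    have e1 := ((Homeomorph.addLeft (x0 : ℂ)).isClosedEmbedding)
    have e2 := ((Homeomorph.mulRight₀ Complex.I Complex.I_ne_zero).isClosedEmbedding)
    exact e1.comp (e2.comp Complex.isometry_ofReal.isClosedEmbedding)
  refine (one_dim hcd hcs y0).trans (le_of_eq ?_)
  refine integral_congr_ae (ae_of_all _ fun y => ?_)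
  change ‖deriv (fun y : ℝ => u (x0 + y * Complex.I)) y‖ = _
  rw [(hd y).deriv]

lemma hc_apply {u : ℂ → ℂ} (hc : HasCompactSupport u) (v : ℂ) : HasCompactSupport (fun t => fderiv ℝ u t v) :=
  hc.fderiv_apply ℝ v

lemma point {u : ℂ → ℂ} (hu : ContDiff ℝ ∞ u) (hc : HasCompactSupport u) (z : ℂ) :
    ‖u z‖ ≤ ∫ y, ‖mx u y‖ := by
  have hmi : Integrable (fun y => ‖mx u y‖) :=
    ((contDiff_mx hu).continuous.integrable_of_hasCompactSupport (hc_apply (hc_apply hc 1) Complex.I)).norm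
  have hmp := Complex.volume_preserving_equiv_real_prod.symm
  have hW : Integrable (fun p : ℝ × ℝ => ‖mx u (Complex.measurableEquivRealProd.symm p)‖) (volume.prod volume) := by
    have := hmp.integrable_comp_emb (g := fun y => ‖mx u y‖) Complex.measurableEquivRealProd.symm.measurableEmbedding
    exact this.2 hmi
  have e0 : ∫ y, ‖mx u y‖ = ∫ p : ℝ × ℝ, ‖mx u (Complex.measurableEquivRealProd.symm p)‖ ∂(volume.prod volume) := by
    have := hmp.integral_comp Complex.measurableEquivRealProd.symm.measurableEmbedding (fun y => ‖mx u y‖)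
    exact this.symm
  rw [e0, integral_prod _ hW]
  have e1 : ∀ x y : ℝ, (Complex.measurableEquivRealProd.symm (x, y) : ℂ) = x + y * Complex.I := by
    intro x y
    rw [Complex.measurableEquivRealProd_symm_apply]
    exact Complex.mk_eq_add_mul_I x y
  have h1 := hor hu hc z.re z.im
  rw [Complex.re_add_im] at h1
  refine h1.trans ?_
  refine integral_mono_of_nonneg (ae_of_all _ fun _ => norm_nonneg _) hW.integral_prod_left (ae_of_all _ fun x => ?_)
  have h2 := ver (contDiff_apply hu 1) (hc_apply hc 1) x z.im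
  refine h2.trans (le_of_eq ?_)
  refine integral_congr_ae (ae_of_all _ fun y => ?_)
  change _ = ‖mx u (Complex.measurableEquivRealProd.symm (x, y))‖
  rw [e1]
  rfl

/-! ### Energy identities -/

lemma int_sq {v : ℂ → ℂ} (hv : Continuous v) (hc : HasCompactSupport v) : Integrable (fun z => ‖v z‖ ^ 2) := by
  refine Continuous.integrable_of_hasCompactSupport (by fun_prop) ?_
  exact hc.comp_left (g := fun w : ℂ => ‖w‖ ^ 2) (by simp)

lemma cplx_sq (v : ℂ → ℂ) : ((∫ z, ‖v z‖ ^ 2 : ℝ) : ℂ) = ∫ z, v z * conj (v z) := by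
  rw [← integral_complex_ofReal]
  refine integral_congr_ae (ae_of_all _ fun z => ?_)
  change ((‖v z‖ ^ 2 : ℝ) : ℂ) = v z * conj (v z)
  rw [Complex.mul_conj']
  push_cast
  rfl

lemma energy {v : ℂ → ℂ} (hv : ContDiff ℝ ∞ v) (hc : HasCompactSupport v) :
    ∫ z, ‖dz v z‖ ^ 2 = ∫ z, ‖dzb v z‖ ^ 2 := by
  have h : ((∫ z, ‖dz v z‖ ^ 2 : ℝ) : ℂ) = ((∫ z, ‖dzb v z‖ ^ 2 : ℝ) : ℂ) := by
    rw [cplx_sq, cplx_sq]
    have e1 : ∫ z, dz v z * conj (dz v z) = -∫ z, dzb (dz v) z * conj (v z) := by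
      rw [← integral_mul_dzb (contDiff_dz hv) (contDiff_conj hv) (Or.inl (hasCompactSupport_dz hc))]
      refine integral_congr_ae (ae_of_all _ fun z => ?_)
      change dz v z * conj (dz v z) = dz v z * dzb (fun w => conj (v w)) z
      rw [dzb_conj hv]
    have e2 : ∫ z, dzb v z * conj (dzb v z) = -∫ z, dz (dzb v) z * conj (v z) := by
      rw [← integral_mul_dz (contDiff_dzb hv) (contDiff_conj hv) (Or.inl (hasCompactSupport_dzb hc))]
      refine integral_congr_ae (ae_of_all _ fun z => ?_)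
      change dzb v z * conj (dzb v z) = dzb v z * dz (fun w => conj (v w)) z
      rw [dz_conj hv]
    rw [e1, e2]
    congr 1
    refine integral_congr_ae (ae_of_all _ fun z => ?_)
    change dzb (dz v) z * conj (v z) = dz (dzb v) z * conj (v z)
    rw [dz_dzb_comm hv]
  exact_mod_cast h

lemma mx_eq {u : ℂ → ℂ} (hu : ContDiff ℝ ∞ u) (y : ℂ) :
    4 * Complex.I * mx u y = dzb (dzb u) y - dz (dz u) y := by
  have h1 := contDiff_apply hu 1
  have hI := contDiff_apply hu Complex.I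
  have e1 : dzb (dzb u) y = dzb (fun w => fderiv ℝ u w 1) y + Complex.I * dzb (fun w => fderiv ℝ u w Complex.I) y := by
    change dzb (fun w => fderiv ℝ u w 1 + Complex.I * fderiv ℝ u w Complex.I) y = _
    rw [dzb_add h1 (contDiff_const.mul hI), dzb_const_mul _ hI]
  have e2 : dz (dz u) y = dz (fun w => fderiv ℝ u w 1) y - Complex.I * dz (fun w => fderiv ℝ u w Complex.I) y := by
    change dz (fun w => fderiv ℝ u w 1 - Complex.I * fderiv ℝ u w Complex.I) y = _
    rw [dz_sub h1 (contDiff_const.mul hI), dz_const_mul _ hI]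
  rw [e1, e2]
  unfold dz dzb mx
  rw [fderiv_fderiv_comm hu Complex.I 1]
  ring

lemma mx_sq {u : ℂ → ℂ} (hu : ContDiff ℝ ∞ u) (y : ℂ) :
    ‖mx u y‖ ^ 2 ≤ 1 / 8 * ‖dzb (dzb u) y‖ ^ 2 + 1 / 8 * ‖dz (dz u) y‖ ^ 2 := by
  have h := congrArg norm (mx_eq hu y)
  rw [norm_mul, norm_mul, Complex.norm_I] at h
  have h2 : ‖(4 : ℂ)‖ = 4 := by norm_num
  rw [h2] at h
  have h3 : 4 * ‖mx u y‖ ≤ ‖dzb (dzb u) y‖ + ‖dz (dz u) y‖ := by
    calc 4 * ‖mx u y‖ = 4 * 1 * ‖mx u y‖ := by ring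
      _ = _ := h
      _ ≤ _ := norm_sub_le _ _
  have h4 : (4 * ‖mx u y‖) ^ 2 ≤ (‖dzb (dzb u) y‖ + ‖dz (dz u) y‖) ^ 2 :=
    pow_le_pow_left₀ (by positivity) h3 2
  nlinarith [sq_nonneg (‖dzb (dzb u) y‖ - ‖dz (dz u) y‖)]

lemma mx_int {u : ℂ → ℂ} (hu : ContDiff ℝ ∞ u) (hc : HasCompactSupport u) :
    ∫ y, ‖mx u y‖ ^ 2 ≤ 1 / 4 * ∫ y, ‖dzb (dz u) y‖ ^ 2 := by
  have c1 := contDiff_dz hu
  have c2 := contDiff_dzb hu
  have s1 := hasCompactSupport_dz hc
  have s2 := hasCompactSupport_dzb hc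
  have i1 := int_sq (contDiff_dzb c2).continuous (hasCompactSupport_dzb s2)
  have i2 := int_sq (contDiff_dz c1).continuous (hasCompactSupport_dz s1)
  have i3 := int_sq (contDiff_mx hu).continuous (hc_apply (hc_apply hc 1) Complex.I)
  have h1 : ∫ y, ‖mx u y‖ ^ 2 ≤ ∫ y, (1 / 8 * ‖dzb (dzb u) y‖ ^ 2 + 1 / 8 * ‖dz (dz u) y‖ ^ 2) :=
    integral_mono i3 ((i1.const_mul _).add (i2.const_mul _)) (mx_sq hu)
  rw [integral_add (i1.const_mul _) (i2.const_mul _), integral_const_mul, integral_const_mul] at h1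
  have h2 := energy c1 s1
  have h3 := energy c2 s2
  have h4 : ∫ y, ‖dz (dzb u) y‖ ^ 2 = ∫ y, ‖dzb (dz u) y‖ ^ 2 := by
    refine integral_congr_ae (ae_of_all _ fun z => ?_)
    change ‖dz (dzb u) z‖ ^ 2 = ‖dzb (dz u) z‖ ^ 2
    rw [dz_dzb_comm hu]
  rw [← h3, h4, h2] at h1
  linarith

/-- Cauchy-Schwarz on a set -/
lemma cs_set {w : ℂ → ℂ} (hw : Continuous w) (hc : HasCompactSupport w) {B : Set ℂ} (hB : MeasurableSet B)
    (h0 : ∀ y ∉ B, w y = 0) {m : ℝ} (hm : 0 < m) (hv : volume.real B ≤ m) (hfin : volume B ≠ ⊤) :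
    (∫ y, ‖w y‖) ^ 2 ≤ m * ∫ y, ‖w y‖ ^ 2 := by
  have i1 : Integrable (fun y => ‖w y‖) := (hw.integrable_of_hasCompactSupport hc).norm
  have i2 := int_sq hw hc
  set a : ℝ := ∫ y, ‖w y‖ with ha
  set b : ℝ := ∫ y, ‖w y‖ ^ 2 with hb
  have e1 : ∫ y in B, ‖w y‖ = a := setIntegral_eq_integral_of_forall_compl_eq_zero fun y hy => by rw [h0 y hy, norm_zero]
  have e2 : ∫ y in B, ‖w y‖ ^ 2 = b := setIntegral_eq_integral_of_forall_compl_eq_zero fun y hy => by
    rw [h0 y hy, norm_zero]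
    norm_num
  have ic : IntegrableOn (fun _ : ℂ => (a / m) ^ 2) B := integrableOn_const hfin
  have h1 : 0 ≤ ∫ y in B, (‖w y‖ ^ 2 - 2 * (a / m) * ‖w y‖ + (a / m) ^ 2) := by
    refine setIntegral_nonneg hB fun y _ => ?_
    nlinarith [sq_nonneg (‖w y‖ - a / m)]
  have i3 : IntegrableOn (fun y => 2 * (a / m) * ‖w y‖) B := i1.integrableOn.const_mul _
  have i4 : IntegrableOn (fun y => ‖w y‖ ^ 2 - 2 * (a / m) * ‖w y‖) B := i2.integrableOn.sub i3
  have e3 : ∫ y in B, (‖w y‖ ^ 2 - 2 * (a / m) * ‖w y‖ + (a / m) ^ 2) =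
      b - 2 * (a / m) * a + volume.real B * (a / m) ^ 2 := by
    rw [integral_add i4 ic, integral_sub i2.integrableOn i3, integral_const_mul, e1, e2, setIntegral_const, smul_eq_mul]
  rw [e3] at h1
  have h2 : volume.real B * (a / m) ^ 2 ≤ m * (a / m) ^ 2 := mul_le_mul_of_nonneg_right hv (sq_nonneg _)
  have h3 : m * (a / m) ^ 2 = a ^ 2 / m := by
    field_simp
  have h4 : 2 * (a / m) * a = 2 * (a ^ 2 / m) := by ring
  have h5 : a ^ 2 / m ≤ b := by
    rw [h3] at h2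
    rw [h4] at h1
    linarith
  rw [div_le_iff₀ hm] at h5
  linarith

/-- the Sobolev inequality for compactly supported functions in the unit disc -/
lemma sob {u : ℂ → ℂ} (hu : ContDiff ℝ ∞ u) (hs : tsupport u ⊆ Metric.closedBall 0 1) (z : ℂ) :
    ‖u z‖ ^ 2 ≤ Real.pi / 4 * ∫ y, ‖dzb (dz u) y‖ ^ 2 := by
  have hc : HasCompactSupport u := (isCompact_closedBall (0 : ℂ) 1).of_isClosed_subset (isClosed_tsupport u) hs
  have hm := mx_int hu hc
  have hp := point hu hc z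
  have h0 : ∀ y ∉ Metric.closedBall (0 : ℂ) 1, mx u y = 0 := by
    intro y hy
    have h1 : y ∉ tsupport u := fun h => hy (hs h)
    have h2 : y ∉ tsupport (fun t => fderiv ℝ u t 1) := by
      intro h
      apply h1
      have h3 : tsupport (fun t => fderiv ℝ u t 1) ⊆ tsupport u := by
        apply closure_minimal _ (isClosed_tsupport u)
        intro t ht
        by_contra h4
        exact ht (by simp [fderiv_eq_zero_of_notMem h4])
      exact h3 h
    unfold mx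
    rw [fderiv_eq_zero_of_notMem h2]
    simp
  have hvol : volume.real (Metric.closedBall (0 : ℂ) 1) ≤ Real.pi := by
    rw [Measure.real, Complex.volume_closedBall]
    simp
  have h2 := cs_set (contDiff_mx hu).continuous (hc_apply (hc_apply hc 1) Complex.I)
    measurableSet_closedBall h0 Real.pi_pos hvol (by
      rw [Complex.volume_closedBall]
      simp)
  have h3 : ‖u z‖ ^ 2 ≤ (∫ y, ‖mx u y‖) ^ 2 := pow_le_pow_left₀ (norm_nonneg _) hp 2
  have h4 := mul_le_mul_of_nonneg_left hm Real.pi_pos.le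
  calc ‖u z‖ ^ 2 ≤ _ := h3
    _ ≤ _ := h2
    _ ≤ _ := h4
    _ = _ := by ring

/-! ### Unit scale -/

lemma lap_mul {β g : ℂ → ℂ} (hβ : ContDiff ℝ ∞ β) (hg : ContDiff ℝ ∞ g) (y : ℂ) :
    dzb (dz (fun w => β w * g w)) y =
      dzb (dz β) y * g y + dz β y * dzb g y + (dzb β y * dz g y + β y * dzb (dz g) y) := by
  have e1 : dz (fun w => β w * g w) = fun w => dz β w * g w + β w * dz g w := by
    ext1 w
    exact dz_mul hβ hg
  rw [e1, dzb_add ((contDiff_dz hβ).mul hg) (hβ.mul (contDiff_dz hg)), dzb_mul (contDiff_dz hβ) hg,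
    dzb_mul hβ (contDiff_dz hg)]

/-- the integrand -/
def F (g : ℂ → ℂ) (y : ℂ) : ℝ := ‖g y‖ ^ 2 + (‖dz g y‖ ^ 2 + ‖dzb g y‖ ^ 2) + ‖dzb (dz g) y‖ ^ 2

lemma cont_F {g : ℂ → ℂ} (hg : ContDiff ℝ ∞ g) : Continuous (F g) := by
  have h0 := hg.continuous
  have h1 := (contDiff_dz hg).continuous
  have h2 := (contDiff_dzb hg).continuous
  have h3 := (contDiff_dzb (contDiff_dz hg)).continuous
  unfold F
  fun_prop

lemma four_sq {a b c d : ℂ} {A B C D M : ℝ} (ha : ‖a‖ ≤ M * A) (hb : ‖b‖ ≤ M * B) (hc : ‖c‖ ≤ M * C) (hd : ‖d‖ ≤ M * D) :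
    ‖a + b + (c + d)‖ ^ 2 ≤ 4 * M ^ 2 * (A ^ 2 + (C ^ 2 + B ^ 2) + D ^ 2) := by
  have h1 : ‖a + b + (c + d)‖ ≤ M * A + M * B + (M * C + M * D) :=
    (norm_add_le _ _).trans (add_le_add ((norm_add_le _ _).trans (add_le_add ha hb))
      ((norm_add_le _ _).trans (add_le_add hc hd)))
  have h2 : ‖a + b + (c + d)‖ ^ 2 ≤ (M * A + M * B + (M * C + M * D)) ^ 2 := pow_le_pow_left₀ (norm_nonneg _) h1 2
  have h3 : (M * A + M * B + (M * C + M * D)) ^ 2 ≤ 4 * M ^ 2 * (A ^ 2 + (C ^ 2 + B ^ 2) + D ^ 2) := by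
    have h4 : (A + B + (C + D)) ^ 2 ≤ 4 * (A ^ 2 + (C ^ 2 + B ^ 2) + D ^ 2) := by
      nlinarith [sq_nonneg (A - B), sq_nonneg (A - C), sq_nonneg (A - D), sq_nonneg (B - C), sq_nonneg (B - D),
        sq_nonneg (C - D)]
    calc (M * A + M * B + (M * C + M * D)) ^ 2 = M ^ 2 * (A + B + (C + D)) ^ 2 := by ring
      _ ≤ M ^ 2 * (4 * (A ^ 2 + (C ^ 2 + B ^ 2) + D ^ 2)) := mul_le_mul_of_nonneg_left h4 (sq_nonneg _)
      _ = _ := by ring
  exact h2.trans h3

lemma unit_scale : ∃ C : ℝ, 0 ≤ C ∧ ∀ g : ℂ → ℂ, ContDiff ℝ ∞ g →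
    ‖g 0‖ ^ 2 ≤ C * ∫ y in Metric.closedBall (0 : ℂ) 1, F g y := by
  obtain ⟨b, hb, hb01, hb1⟩ := exists_cutoff (K := {(0 : ℂ)}) (V := Metric.ball 0 1) isCompact_singleton
    Metric.isOpen_ball (by simp)
  have hbT := hb.toTest
  set β : ℂ → ℂ := fun z => (b z : ℂ) with hβdef
  have hβ : ContDiff ℝ ∞ β := hbT.smooth
  have hβc : HasCompactSupport β := hbT.cpt
  have hβs : tsupport β ⊆ Metric.closedBall 0 1 := hbT.sub.trans Metric.ball_subset_closedBall
  have hβ0 : β 0 = 1 := by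
    have h1 : ∀ᶠ z in 𝓝 (0 : ℂ), b z = 1 := by
      have := hb1
      rwa [nhdsSet_singleton] at this
    have h2 := h1.self_of_nhds
    rw [hβdef]
    simp [h2]
  have hβ1 : ∀ y, ‖β y‖ ≤ 1 := by
    intro y
    rw [hβdef]
    simp only [Complex.norm_real, Real.norm_eq_abs]
    rw [abs_of_nonneg (hb01 y).1]
    exact (hb01 y).2
  obtain ⟨M1, hM1⟩ := (contDiff_dz hβ).continuous.bounded_above_of_compact_support (hasCompactSupport_dz hβc)
  obtain ⟨M2, hM2⟩ := (contDiff_dzb hβ).continuous.bounded_above_of_compact_support (hasCompactSupport_dzb hβc)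
  obtain ⟨M3, hM3⟩ := (contDiff_dzb (contDiff_dz hβ)).continuous.bounded_above_of_compact_support
    (hasCompactSupport_dzb (hasCompactSupport_dz hβc))
  set M : ℝ := max 1 (max M1 (max M2 M3)) with hM
  have m0 : 1 ≤ M := le_max_left _ _
  have m1 : M1 ≤ M := (le_max_left _ _).trans (le_max_right _ _)
  have m2 : M2 ≤ M := ((le_max_left _ _).trans (le_max_right _ _)).trans (le_max_right _ _)
  have m3 : M3 ≤ M := ((le_max_right _ _).trans (le_max_right _ _)).trans (le_max_right _ _)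
  refine ⟨Real.pi / 4 * (4 * M ^ 2), by positivity, fun g hg => ?_⟩
  have hu : ContDiff ℝ ∞ (fun w => β w * g w) := hβ.mul hg
  have hus : tsupport (fun w => β w * g w) ⊆ Metric.closedBall 0 1 := (tsupport_mul_subset_left (f := β) (g := g)).trans hβs
  have huc : HasCompactSupport (fun w => β w * g w) := hβc.mul_right
  have h1 := sob hu hus 0
  simp only [hβ0, one_mul] at h1
  have h2 : ∫ y, ‖dzb (dz (fun w => β w * g w)) y‖ ^ 2 =
      ∫ y in Metric.closedBall (0 : ℂ) 1, ‖dzb (dz (fun w => β w * g w)) y‖ ^ 2 := by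
    refine (setIntegral_eq_integral_of_forall_compl_eq_zero fun y hy => ?_).symm
    have h3 : y ∉ tsupport (fun w => β w * g w) := fun h => hy (hus h)
    have h4 : y ∉ tsupport (dz (fun w => β w * g w)) := fun h => h3 (tsupport_dz h)
    rw [dzb_eq_zero_of_notMem h4]
    simp
  have h5 : ∫ y in Metric.closedBall (0 : ℂ) 1, ‖dzb (dz (fun w => β w * g w)) y‖ ^ 2 ≤
      ∫ y in Metric.closedBall (0 : ℂ) 1, 4 * M ^ 2 * F g y := by
    refine setIntegral_mono_on ?_ ?_ measurableSet_closedBall fun y _ => ?_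
    · exact (int_sq (contDiff_dzb (contDiff_dz hu)).continuous
        (hasCompactSupport_dzb (hasCompactSupport_dz huc))).integrableOn
    · exact ((continuous_const.mul (cont_F hg)).continuousOn).integrableOn_compact (isCompact_closedBall _ _)
    · rw [lap_mul hβ hg]
      refine four_sq (A := ‖g y‖) (B := ‖dzb g y‖) (C := ‖dz g y‖) (D := ‖dzb (dz g) y‖) ?_ ?_ ?_ ?_
      · rw [norm_mul]
        exact mul_le_mul_of_nonneg_right ((hM3 y).trans m3) (norm_nonneg _)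
      · rw [norm_mul]
        exact mul_le_mul_of_nonneg_right ((hM1 y).trans m1) (norm_nonneg _)
      · rw [norm_mul]
        exact mul_le_mul_of_nonneg_right ((hM2 y).trans m2) (norm_nonneg _)
      · rw [norm_mul]
        exact mul_le_mul_of_nonneg_right ((hβ1 y).trans m0) (norm_nonneg _)
  rw [integral_const_mul] at h5
  rw [h2] at h1
  have h6 := mul_le_mul_of_nonneg_left h5 (by positivity : (0 : ℝ) ≤ Real.pi / 4)
  calc ‖g 0‖ ^ 2 ≤ _ := h1
    _ ≤ _ := h6
    _ = _ := by ring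

/-! ### Scaling -/

lemma fderiv_aff {g : ℂ → ℂ} (hg : ContDiff ℝ ∞ g) (z : ℂ) (r : ℝ) (y v : ℂ) :
    fderiv ℝ (fun y => g (z + r • y)) y v = r * fderiv ℝ g (z + r • y) v := by
  have h1 : HasFDerivAt (fun y : ℂ => z + r • y) (r • ContinuousLinearMap.id ℝ ℂ) y :=
    ((hasFDerivAt_id y).const_smul r).const_add z
  have h2 := (diffAt (z := z + r • y) hg).hasFDerivAt.comp y h1
  have h3 : HasFDerivAt (fun y => g (z + r • y)) ((fderiv ℝ g (z + r • y)).comp (r • ContinuousLinearMap.id ℝ ℂ)) y := h2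
  rw [h3.fderiv]
  simp

lemma cd_aff {g : ℂ → ℂ} (hg : ContDiff ℝ ∞ g) (z : ℂ) (r : ℝ) : ContDiff ℝ ∞ (fun y => g (z + r • y)) :=
  hg.comp (contDiff_const.add (contDiff_id.const_smul r))

lemma dz_aff {g : ℂ → ℂ} (hg : ContDiff ℝ ∞ g) (z : ℂ) (r : ℝ) (y : ℂ) :
    dz (fun y => g (z + r • y)) y = r * dz g (z + r • y) := by
  unfold dz
  rw [fderiv_aff hg, fderiv_aff hg]
  ring

lemma dzb_aff {g : ℂ → ℂ} (hg : ContDiff ℝ ∞ g) (z : ℂ) (r : ℝ) (y : ℂ) :
    dzb (fun y => g (z + r • y)) y = r * dzb g (z + r • y) := by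
  unfold dzb
  rw [fderiv_aff hg, fderiv_aff hg]
  ring

lemma lap_aff {g : ℂ → ℂ} (hg : ContDiff ℝ ∞ g) (z : ℂ) (r : ℝ) (y : ℂ) :
    dzb (dz (fun y => g (z + r • y))) y = r * (r * dzb (dz g) (z + r • y)) := by
  have e1 : dz (fun y => g (z + r • y)) = fun y => (r : ℂ) * dz g (z + r • y) := by
    ext1 w
    exact dz_aff hg z r w
  rw [e1, dzb_const_mul _ (cd_aff (contDiff_dz hg) z r), dzb_aff (contDiff_dz hg)]

/-- the scaled integrand -/
def G (g : ℂ → ℂ) (r : ℝ) (y : ℂ) : ℝ :=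
  ‖g y‖ ^ 2 + r ^ 2 * (‖dz g y‖ ^ 2 + ‖dzb g y‖ ^ 2) + r ^ 4 * ‖dzb (dz g) y‖ ^ 2

lemma F_aff {g : ℂ → ℂ} (hg : ContDiff ℝ ∞ g) (z : ℂ) {r : ℝ} (hr : 0 < r) (y : ℂ) :
    F (fun y => g (z + r • y)) y = G g r (z + r • y) := by
  unfold F G
  rw [dz_aff hg, dzb_aff hg, lap_aff hg]
  simp only [norm_mul, Complex.norm_real, Real.norm_eq_abs, abs_of_pos hr]
  ring

lemma change {f : ℂ → ℝ} (z : ℂ) {r : ℝ} (hr : 0 < r) :
    ∫ y in Metric.closedBall (0 : ℂ) 1, f (z + r • y) = (r ^ 2)⁻¹ * ∫ y in Metric.closedBall z r, f y := by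
  have h1 : ∫ y in Metric.closedBall (0 : ℂ) 1, f (z + r • y) =
      ∫ y, (Metric.closedBall z r).indicator f (z + r • y) := by
    rw [← integral_indicator measurableSet_closedBall]
    refine integral_congr_ae (ae_of_all _ fun y => ?_)
    change (Metric.closedBall (0 : ℂ) 1).indicator (fun y => f (z + r • y)) y = (Metric.closedBall z r).indicator f (z + r • y)
    have h2 : y ∈ Metric.closedBall (0 : ℂ) 1 ↔ z + r • y ∈ Metric.closedBall z r := by
      rw [mem_closedBall_zero_iff, mem_closedBall_iff_norm, add_sub_cancel_left, norm_smul, Real.norm_eq_abs,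
        abs_of_pos hr]
      constructor
      · intro h
        nlinarith
      · intro h
        by_contra h3
        push Not at h3
        nlinarith
    by_cases h3 : y ∈ Metric.closedBall (0 : ℂ) 1
    · rw [indicator_of_mem h3, indicator_of_mem (h2.1 h3)]
    · rw [indicator_of_notMem h3, indicator_of_notMem (fun h => h3 (h2.2 h))]
  rw [h1]
  have h4 := Measure.integral_comp_smul (volume : Measure ℂ) (fun y => (Metric.closedBall z r).indicator f (z + y)) r
  rw [h4, Complex.finrank_real_complex, integral_add_left_eq_self (fun y => (Metric.closedBall z r).indicator f y) z,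
    integral_indicator measurableSet_closedBall, abs_of_pos (by positivity), smul_eq_mul]

end SbM

/-- Sobolev's inequality -/
theorem stmtSb : StmtSb := by
  obtain ⟨C, hC, h⟩ := SbM.unit_scale
  refine ⟨C, hC, fun g hg z r hr => ?_⟩
  have h1 := h (fun y => g (z + r • y)) (SbM.cd_aff hg z r)
  simp only [smul_zero, add_zero] at h1
  have h2 : ∫ y in Metric.closedBall (0 : ℂ) 1, SbM.F (fun y => g (z + r • y)) y =
      ∫ y in Metric.closedBall (0 : ℂ) 1, SbM.G g r (z + r • y) :=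
    integral_congr_ae (ae_of_all _ fun y => SbM.F_aff hg z hr y)
  rw [h2, SbM.change z hr] at h1
  rw [mul_assoc]
  exact h1

end

end Pool.Agent.A54.B6
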