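import Pool.Agent.Lib.MP_a54f13_nt.B6.Spec

/-!
Continuity of the local means `WW`.
-/

set_option autoImplicit false

namespace Pool.Agent.A54.B6

open MeasureTheory Filter Topology Set
open scoped ContDiff ComplexConjugate UpperHalfPlane MatrixGroups

noncomputable section

namespace WcM

lemma w1_le (y : ℂ) : L4.w1 y ≤ 1 := by
  rw [L4.w1_eq]
  refine inv_le_one_of_one_le₀ ?_
  nlinarith [sq_nonneg ‖y‖]

lemma ww_nonneg (δ h : ℝ) (z y : ℂ) : 0 ≤ ww δ h z y := pow_nonneg (L4.wt_pos _ _ _).le 3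

lemma ww_le (δ h : ℝ) (z y : ℂ) : ww δ h z y ≤ 1 :=
  pow_le_one₀ (L4.wt_pos _ _ _).le (w1_le _)

lemma ww_sq_le (δ h : ℝ) (z y : ℂ) : ww δ h z y ^ 2 ≤ 1 :=
  pow_le_one₀ (ww_nonneg _ _ _ _) (ww_le _ _ _ _)

lemma cont_right (δ h : ℝ) (z : ℂ) : Continuous (ww δ h z) := by
  have h1 : Continuous (L4.wt (h / δ) z) := (L4.contDiff_wt _ _).continuous
  exact h1.pow 3

lemma cont_left (δ h : ℝ) (y : ℂ) : Continuous fun z => ww δ h z y := by
  have h1 : Continuous L4.w1 := L4.contDiff_w1.continuous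
  have h2 : Continuous fun z : ℂ => (h / δ)⁻¹ • (z - y) := by fun_prop
  exact (h1.comp h2).pow 3

end WcM

open WcM in
theorem stmtWc : StmtWc := by
  intro δ h hδ hh ρ f hρ hρc hf
  have hb : Integrable fun y => ρ y ^ 2 * f y ^ 2 := by
    refine ((hρ.pow 2).mul (hf.pow 2)).integrable_of_hasCompactSupport ?_
    have h1 : HasCompactSupport fun y => ρ y ^ 2 :=
      hρc.comp_left (g := fun x : ℝ => x ^ 2) (by simp)
    exact h1.mul_right
  have hle : ∀ z y, ρ y ^ 2 * ww δ h z y ^ 2 * f y ^ 2 ≤ ρ y ^ 2 * f y ^ 2 := by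
    intro z y
    have h1 := ww_sq_le δ h z y
    have h2 : 0 ≤ ρ y ^ 2 * f y ^ 2 := by positivity
    calc ρ y ^ 2 * ww δ h z y ^ 2 * f y ^ 2 = (ρ y ^ 2 * f y ^ 2) * ww δ h z y ^ 2 := by ring
      _ ≤ (ρ y ^ 2 * f y ^ 2) * 1 := mul_le_mul_of_nonneg_left h1 h2
      _ = _ := mul_one _
  have hnn : ∀ z y, 0 ≤ ρ y ^ 2 * ww δ h z y ^ 2 * f y ^ 2 := by
    intro z y
    positivity
  refine ⟨?_, fun z => ⟨?_, ?_⟩⟩
  · unfold WW
    refine continuous_const.mul ?_
    refine continuous_of_dominated (bound := fun y => ρ y ^ 2 * f y ^ 2) ?_ ?_ hb ?_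
    · intro z
      exact (((hρ.pow 2).mul ((cont_right δ h z).pow 2)).mul (hf.pow 2)).aestronglyMeasurable
    · intro z
      refine ae_of_all _ fun y => ?_
      rw [Real.norm_eq_abs, abs_of_nonneg (hnn z y)]
      exact hle z y
    · refine ae_of_all _ fun y => ?_
      exact (continuous_const.mul ((cont_left δ h y).pow 2)).mul continuous_const
  · unfold WW
    exact mul_nonneg (by positivity) (integral_nonneg fun y => hnn z y)
  · unfold WW
    refine mul_le_mul_of_nonneg_left ?_ (by positivity)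
    exact integral_mono_of_nonneg (ae_of_all _ fun y => hnn z y) hb (ae_of_all _ fun y => hle z y)

end

end Pool.Agent.A54.B6
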