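import Pool.Agent.Lib.MP_a54f13_nt.B6.Spec

/-!
# Package `B6`: properties of the weight (`StmtWt`)
-/

set_option autoImplicit false

namespace Pool.Agent.A54.B6.WtM

open MeasureTheory Filter Topology Set
open scoped ContDiff ComplexConjugate

noncomputable section

lemma w1_le_one (y : ℂ) : L4.w1 y ≤ 1 := by
  rw [L4.w1_eq]
  refine inv_le_one_of_one_le₀ ?_
  have : (1 : ℝ) ≤ 1 + ‖y‖ ^ 2 := by nlinarith [sq_nonneg ‖y‖]
  exact one_le_pow₀ this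

lemma wt_le_one (H : ℝ) (z y : ℂ) : L4.wt H z y ≤ 1 := w1_le_one _

lemma wt_symm (H : ℝ) (z y : ℂ) : L4.wt H z y = L4.wt H y z := by
  unfold L4.wt
  rw [L4.w1_eq, L4.w1_eq, norm_smul, norm_smul, norm_sub_rev]

lemma norm_scale {H : ℝ} (hH : 0 < H) (z y : ℂ) : ‖H⁻¹ • (z - y)‖ = H⁻¹ * ‖z - y‖ := by
  rw [norm_smul, Real.norm_eq_abs, abs_of_pos (inv_pos.mpr hH)]

lemma ww_deriv {δ h : ℝ} (hδ : 0 < δ) (hh : 0 < h) (z y : ℂ) :
    h * ‖fderiv ℝ (ww δ h z) y‖ ≤ 12 * δ * ww δ h z y := by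
  have hH : 0 < h / δ := div_pos hh hδ
  have hd : HasFDerivAt (L4.wt (h / δ) z) (fderiv ℝ (L4.wt (h / δ) z) y) y :=
    (((L4.contDiff_wt (h / δ) z).differentiable (by simp)) y).hasFDerivAt
  have hp : HasFDerivAt (ww δ h z)
      ((3 * L4.wt (h / δ) z y ^ 2) • fderiv ℝ (L4.wt (h / δ) z) y) y := by
    have h3 := hd.pow 3
    have e : ww δ h z = fun x => L4.wt (h / δ) z x ^ 3 := rfl
    rw [e]
    simpa using h3
  rw [hp.fderiv, norm_smul, Real.norm_eq_abs,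
    abs_of_nonneg (by positivity : (0 : ℝ) ≤ 3 * L4.wt (h / δ) z y ^ 2)]
  have h1 := L4.fderiv_wt hH z y
  have h2 : h * ‖fderiv ℝ (L4.wt (h / δ) z) y‖ ≤ 4 * δ * L4.wt (h / δ) z y := by
    have e : h = δ * (h / δ) := by field_simp
    calc h * ‖fderiv ℝ (L4.wt (h / δ) z) y‖
        = δ * ((h / δ) * ‖fderiv ℝ (L4.wt (h / δ) z) y‖) := by
          rw [← mul_assoc, ← e]
      _ ≤ δ * (4 * L4.wt (h / δ) z y) := mul_le_mul_of_nonneg_left h1 hδ.le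
      _ = _ := by ring
  calc h * (3 * L4.wt (h / δ) z y ^ 2 * ‖fderiv ℝ (L4.wt (h / δ) z) y‖)
      = 3 * L4.wt (h / δ) z y ^ 2 * (h * ‖fderiv ℝ (L4.wt (h / δ) z) y‖) := by ring
    _ ≤ 3 * L4.wt (h / δ) z y ^ 2 * (4 * δ * L4.wt (h / δ) z y) :=
        mul_le_mul_of_nonneg_left h2 (by positivity)
    _ = 12 * δ * ww δ h z y := by
        unfold ww
        ring

lemma ww_lower {δ h : ℝ} (hδ : 0 < δ) (hh : 0 < h) {z y : ℂ} (hzy : ‖z - y‖ ≤ h) :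
    (((1 + δ ^ 2) ^ 2)⁻¹) ^ 3 ≤ ww δ h z y := by
  have hH : 0 < h / δ := div_pos hh hδ
  unfold ww
  refine pow_le_pow_left₀ (by positivity) ?_ 3
  unfold L4.wt
  rw [L4.w1_eq, norm_scale hH]
  have h1 : (h / δ)⁻¹ * ‖z - y‖ ≤ δ := by
    calc (h / δ)⁻¹ * ‖z - y‖ ≤ (h / δ)⁻¹ * h :=
          mul_le_mul_of_nonneg_left hzy (inv_pos.mpr hH).le
      _ = δ := by field_simp
  have h0 : 0 ≤ (h / δ)⁻¹ * ‖z - y‖ := by positivity
  have h2 : ((h / δ)⁻¹ * ‖z - y‖) ^ 2 ≤ δ ^ 2 := pow_le_pow_left₀ h0 h1 2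
  refine inv_anti₀ (by positivity) ?_
  exact pow_le_pow_left₀ (by positivity) (by linarith) 2

lemma ww_sq (δ h : ℝ) (z y : ℂ) : ww δ h z y ^ 2 = L4.wt (h / δ) z y ^ 6 := by
  unfold ww
  ring

lemma w1_moment (v : ℂ) : ‖v‖ ^ 8 * L4.w1 v ^ 6 ≤ L4.w1 v ^ 4 := by
  have hw := L4.w1_pos v
  have h1 : ‖v‖ ^ 8 * L4.w1 v ^ 2 ≤ 1 := by
    rw [L4.w1_eq, inv_pow, ← div_eq_mul_inv]
    rw [div_le_one (by positivity)]
    have h2 : ‖v‖ ^ 2 ≤ 1 + ‖v‖ ^ 2 := by linarith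
    calc ‖v‖ ^ 8 = (‖v‖ ^ 2) ^ 4 := by ring
      _ ≤ (1 + ‖v‖ ^ 2) ^ 4 := pow_le_pow_left₀ (by positivity) h2 4
      _ = ((1 + ‖v‖ ^ 2) ^ 2) ^ 2 := by ring
  calc ‖v‖ ^ 8 * L4.w1 v ^ 6 = (‖v‖ ^ 8 * L4.w1 v ^ 2) * L4.w1 v ^ 4 := by ring
    _ ≤ 1 * L4.w1 v ^ 4 := mul_le_mul_of_nonneg_right h1 (by positivity)
    _ = _ := one_mul _

lemma moment_le {δ h : ℝ} (hδ : 0 < δ) (hh : 0 < h) (z y : ℂ) :
    ‖z - y‖ ^ 8 * ww δ h z y ^ 2 ≤ (h / δ) ^ 8 * L4.wt (h / δ) z y ^ 4 := by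
  have hH : 0 < h / δ := div_pos hh hδ
  have e : ‖z - y‖ = (h / δ) * ‖(h / δ)⁻¹ • (z - y)‖ := by
    rw [norm_scale hH]
    field_simp
  have h1 := w1_moment ((h / δ)⁻¹ • (z - y))
  rw [ww_sq]
  calc ‖z - y‖ ^ 8 * L4.wt (h / δ) z y ^ 6
      = (h / δ) ^ 8 * (‖(h / δ)⁻¹ • (z - y)‖ ^ 8 * L4.w1 ((h / δ)⁻¹ • (z - y)) ^ 6) := by
        conv_lhs => rw [e]
        unfold L4.wt
        ring
    _ ≤ (h / δ) ^ 8 * L4.w1 ((h / δ)⁻¹ • (z - y)) ^ 4 :=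
        mul_le_mul_of_nonneg_left h1 (by positivity)
    _ = _ := rfl

lemma continuous_ww (δ h : ℝ) (z : ℂ) : Continuous (ww δ h z) :=
  (((L4.contDiff_wt (h / δ) z).continuous).pow 3)

lemma integrable_moment {δ h : ℝ} (hδ : 0 < δ) (hh : 0 < h) (z : ℂ) :
    Integrable (fun y => ‖z - y‖ ^ 8 * ww δ h z y ^ 2) := by
  have hH : 0 < h / δ := div_pos hh hδ
  have hi : Integrable (fun y => (h / δ) ^ 8 * L4.wt (h / δ) z y ^ 4) :=
    (L4.integrable_wt_pow hH z 4 (by norm_num)).const_mul _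
  have hc : Continuous (fun y => ‖z - y‖ ^ 8 * ww δ h z y ^ 2) :=
    ((continuous_const.sub continuous_id).norm.pow 8).mul ((continuous_ww δ h z).pow 2)
  refine hi.mono' hc.aestronglyMeasurable (ae_of_all _ fun y => ?_)
  rw [Real.norm_eq_abs, abs_of_nonneg (by positivity)]
  exact moment_le hδ hh z y

end

end Pool.Agent.A54.B6.WtM

namespace Pool.Agent.A54.B6

open MeasureTheory

theorem stmtWt : StmtWt := by
  intro δ hδ
  refine ⟨fun h z hh => ⟨(L4.contDiff_wt (h / δ) z).pow 3, fun y => ⟨pow_pos (L4.wt_pos _ _ _) 3,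
    pow_le_one₀ (L4.wt_pos _ _ _).le (WtM.wt_le_one _ _ _), ?_, WtM.ww_deriv hδ hh z y,
    fun hzy => WtM.ww_lower hδ hh hzy⟩⟩, ?_⟩
  · unfold ww
    rw [WtM.wt_symm]
  · set I6 : ℝ := ∫ y, L4.w1 y ^ 6 with hI6
    set I4 : ℝ := ∫ y, L4.w1 y ^ 4 with hI4
    have p6 : 0 ≤ I6 := (L4.integral_w1_pow_pos 6 (by norm_num)).le
    have p4 : 0 ≤ I4 := (L4.integral_w1_pow_pos 4 (by norm_num)).le
    refine ⟨(δ ^ 2)⁻¹ * I6 + (δ ^ 10)⁻¹ * I4, by positivity, fun h z hh => ?_⟩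
    have hH : 0 < h / δ := div_pos hh hδ
    have e2 : (fun y => ww δ h z y ^ 2) = fun y => L4.wt (h / δ) z y ^ 6 :=
      funext fun y => WtM.ww_sq δ h z y
    refine ⟨?_, ?_, WtM.integrable_moment hδ hh z, ?_⟩
    · rw [e2]
      exact L4.integrable_wt_pow hH z 6 (by norm_num)
    · rw [e2, L4.integral_wt_pow hH z 6, ← hI6]
      have h1 : 0 ≤ (δ ^ 10)⁻¹ * I4 * h ^ 2 := by positivity
      have h2 : (h / δ) ^ 2 * I6 = (δ ^ 2)⁻¹ * I6 * h ^ 2 := by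
        rw [div_pow]
        ring
      rw [h2]
      nlinarith
    · have hi : Integrable (fun y => (h / δ) ^ 8 * L4.wt (h / δ) z y ^ 4) :=
        (L4.integrable_wt_pow hH z 4 (by norm_num)).const_mul _
      calc (∫ y, ‖z - y‖ ^ 8 * ww δ h z y ^ 2)
          ≤ ∫ y, (h / δ) ^ 8 * L4.wt (h / δ) z y ^ 4 :=
            integral_mono (WtM.integrable_moment hδ hh z) hi fun y => WtM.moment_le hδ hh z y
        _ = (h / δ) ^ 8 * ((h / δ) ^ 2 * I4) := by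
            rw [integral_const_mul, L4.integral_wt_pow hH z 4]
        _ = (δ ^ 10)⁻¹ * I4 * h ^ 10 := by
            rw [div_pow, div_pow]
            field_simp
        _ ≤ _ := by
            have h1 : 0 ≤ (δ ^ 2)⁻¹ * I6 * h ^ 10 := by positivity
            nlinarith

end Pool.Agent.A54.B6
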