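import Pool.Agent.Lib.MP_a54f13_nt.B6.Spec

/-!
# Yg: local means in `L³`
-/

set_option autoImplicit false

namespace Pool.Agent.A54.B6

open MeasureTheory Filter Topology Set
open scoped ContDiff ComplexConjugate UpperHalfPlane MatrixGroups

noncomputable section

namespace YgM

/-- joint continuity of the weight -/
private theorem cont_ww (δ h : ℝ) : Continuous (fun p : ℂ × ℂ => ww δ h p.1 p.2) := by
  have h0 : Continuous (fun p : ℂ × ℂ => p.1 - p.2) := continuous_fst.sub continuous_snd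
  have h1 : Continuous (fun p : ℂ × ℂ => (h / δ)⁻¹ • (p.1 - p.2)) := h0.const_smul ((h / δ)⁻¹)
  have h2 : Continuous (fun p : ℂ × ℂ => L4.w1 ((h / δ)⁻¹ • (p.1 - p.2))) := L4.contDiff_w1.continuous.comp h1
  exact h2.pow 3

/-- Hölder's inequality, by tangent lines -/
private theorem holder {I J m : ℝ} (hm : 0 < m) (hI : 0 ≤ I) (h : ∀ c : ℝ, 0 ≤ c → 3 * c ^ 2 * I - 2 * c ^ 3 * m ≤ J) :
    I ^ 3 ≤ m ^ 2 * J := by
  have h1 := h (I / m) (by positivity)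
  have h2 : 3 * (I / m) ^ 2 * I - 2 * (I / m) ^ 3 * m = I ^ 3 / m ^ 2 := by
    field_simp
    ring
  rw [h2, div_le_iff₀ (by positivity)] at h1
  linarith

private theorem tang {g c : ℝ} (hg : 0 ≤ g) (hc : 0 ≤ c) : 3 * c ^ 2 * g - 2 * c ^ 3 ≤ g ^ 3 := by
  have h1 : g ^ 3 - (3 * c ^ 2 * g - 2 * c ^ 3) = (g - c) ^ 2 * (g + 2 * c) := by ring
  have h2 : 0 ≤ (g - c) ^ 2 * (g + 2 * c) := by positivity
  linarith

/-- the cube of a weighted integral -/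
private theorem cube {w g : ℂ → ℝ} (hw : Integrable fun y => w y ^ 2) (hwc : Continuous w) (hg : Continuous g)
    (hgc : HasCompactSupport g) (hg0 : ∀ y, 0 ≤ g y) {m : ℝ} (hm : 0 < m) (hwm : ∫ y, w y ^ 2 ≤ m) :
    (∫ y, w y ^ 2 * g y) ^ 3 ≤ m ^ 2 * ∫ y, w y ^ 2 * g y ^ 3 := by
  have hi1 : Integrable fun y => w y ^ 2 * g y :=
    ((hwc.pow 2).mul hg).integrable_of_hasCompactSupport hgc.mul_left
  have hg3 : HasCompactSupport fun y => g y ^ 3 := by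
    refine hgc.mono' (fun y hy => subset_tsupport _ ?_)
    intro h0
    exact hy (by simp only [h0]; norm_num)
  have hi3 : Integrable fun y => w y ^ 2 * g y ^ 3 :=
    ((hwc.pow 2).mul (hg.pow 3)).integrable_of_hasCompactSupport hg3.mul_left
  refine holder hm (integral_nonneg fun y => mul_nonneg (sq_nonneg _) (hg0 y)) ?_
  intro c hc
  have h1 : 3 * c ^ 2 * (∫ y, w y ^ 2 * g y) - 2 * c ^ 3 * (∫ y, w y ^ 2) ≤ ∫ y, w y ^ 2 * g y ^ 3 := by
    rw [← integral_const_mul, ← integral_const_mul, ← integral_sub (hi1.const_mul _) (hw.const_mul _)]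
    refine integral_mono ((hi1.const_mul _).sub (hw.const_mul _)) hi3 ?_
    intro y
    have h2 := mul_le_mul_of_nonneg_left (tang (hg0 y) hc) (sq_nonneg (w y))
    show 3 * c ^ 2 * (w y ^ 2 * g y) - 2 * c ^ 3 * w y ^ 2 ≤ w y ^ 2 * g y ^ 3
    linarith
  have h2 : 2 * c ^ 3 * (∫ y, w y ^ 2) ≤ 2 * c ^ 3 * m := mul_le_mul_of_nonneg_left hwm (by positivity)
  linarith

/-- the weighted integral of `ζ⁸` -/
private theorem inner {ζ : ℂ → ℝ} {L : NNReal} (hL : LipschitzWith L ζ) (hζc : HasCompactSupport ζ)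
    (hζ0 : ∀ z, 0 ≤ ζ z) (hζ : Continuous ζ) {w : ℂ → ℝ} (hwc : Continuous w) {y : ℂ}
    (h1 : Integrable fun z => w z ^ 2) (h2 : Integrable fun z => ‖y - z‖ ^ 8 * w z ^ 2) {a b : ℝ}
    (ha : ∫ z, w z ^ 2 ≤ a) (hb : ∫ z, ‖y - z‖ ^ 8 * w z ^ 2 ≤ b) :
    ∫ z, ζ z ^ 8 * w z ^ 2 ≤ 2 ^ 7 * (ζ y ^ 8 * a + (L : ℝ) ^ 8 * b) := by
  have hz8 : HasCompactSupport fun y => ζ y ^ 8 := by
    refine hζc.mono' (fun y hy => subset_tsupport _ ?_)
    intro h0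
    exact hy (by simp only [h0]; norm_num)
  have h0 : Integrable fun z => ζ z ^ 8 * w z ^ 2 :=
    ((hζ.pow 8).mul (hwc.pow 2)).integrable_of_hasCompactSupport hz8.mul_right
  have h3 : ∫ z, ζ z ^ 8 * w z ^ 2 ≤
      2 ^ 7 * (ζ y ^ 8 * (∫ z, w z ^ 2) + (L : ℝ) ^ 8 * ∫ z, ‖y - z‖ ^ 8 * w z ^ 2) := by
    rw [← integral_const_mul, ← integral_const_mul, ← integral_add (h1.const_mul _) (h2.const_mul _),
      ← integral_const_mul]
    refine integral_mono h0 (((h1.const_mul _).add (h2.const_mul _)).const_mul _) ?_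
    intro z
    show ζ z ^ 8 * w z ^ 2 ≤ 2 ^ 7 * (ζ y ^ 8 * w z ^ 2 + (L : ℝ) ^ 8 * (‖y - z‖ ^ 8 * w z ^ 2))
    have h4 : ζ z ≤ ζ y + L * ‖y - z‖ := by
      have h5 := hL.dist_le_mul z y
      rw [Real.dist_eq, dist_comm, dist_eq_norm] at h5
      have h6 := le_abs_self (ζ z - ζ y)
      linarith
    have h5 : ζ z ^ 8 ≤ (ζ y + L * ‖y - z‖) ^ 8 := pow_le_pow_left₀ (hζ0 z) h4 8
    have h6 : (ζ y + L * ‖y - z‖) ^ 8 ≤ 2 ^ (8 - 1) * (ζ y ^ 8 + (L * ‖y - z‖) ^ 8) :=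
      add_pow_le (hζ0 y) (by positivity) 8
    have h7 : ζ z ^ 8 ≤ 2 ^ 7 * (ζ y ^ 8 + (L * ‖y - z‖) ^ 8) := h5.trans h6
    have h8 := mul_le_mul_of_nonneg_right h7 (sq_nonneg (w z))
    rw [mul_pow] at h8
    calc ζ z ^ 8 * w z ^ 2 ≤ _ := h8
      _ = _ := by ring
  have h9 : ζ y ^ 8 * (∫ z, w z ^ 2) ≤ ζ y ^ 8 * a := mul_le_mul_of_nonneg_left ha (by positivity)
  have h10 : (L : ℝ) ^ 8 * (∫ z, ‖y - z‖ ^ 8 * w z ^ 2) ≤ (L : ℝ) ^ 8 * b :=
    mul_le_mul_of_nonneg_left hb (by positivity)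
  linarith

/-- the double integral -/
private theorem swap {ζ g : ℂ → ℝ} (hζ : Continuous ζ) (hζc : HasCompactSupport ζ) (hg : Continuous g)
    (hgc : HasCompactSupport g) {w : ℂ → ℂ → ℝ} (hw : Continuous fun p : ℂ × ℂ => w p.1 p.2) :
    Integrable (fun z => ζ z ^ 8 * ∫ y, w z y ^ 2 * g y) ∧
      Integrable (fun y => g y * ∫ z, ζ z ^ 8 * w z y ^ 2) ∧
      ∫ z, ζ z ^ 8 * ∫ y, w z y ^ 2 * g y = ∫ y, g y * ∫ z, ζ z ^ 8 * w z y ^ 2 := by
  have hF : Continuous (fun p : ℂ × ℂ => ζ p.1 ^ 8 * (w p.1 p.2 ^ 2 * g p.2)) :=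
    ((hζ.comp continuous_fst).pow 8).mul ((hw.pow 2).mul (hg.comp continuous_snd))
  have hFc : HasCompactSupport (fun p : ℂ × ℂ => ζ p.1 ^ 8 * (w p.1 p.2 ^ 2 * g p.2)) := by
    refine HasCompactSupport.intro (hζc.isCompact.prod hgc.isCompact) ?_
    intro p hp
    rw [Set.mem_prod, not_and_or] at hp
    rcases hp with hp | hp
    · rw [image_eq_zero_of_notMem_tsupport hp]
      norm_num
    · rw [image_eq_zero_of_notMem_tsupport hp]
      norm_num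
  have hI : Integrable (fun p : ℂ × ℂ => ζ p.1 ^ 8 * (w p.1 p.2 ^ 2 * g p.2))
      ((volume : Measure ℂ).prod (volume : Measure ℂ)) :=
    hF.integrable_of_hasCompactSupport hFc
  have h1 := hI.integral_prod_left
  have h2 := hI.integral_prod_right
  have e1 : ∀ z : ℂ, ∫ y, ζ z ^ 8 * (w z y ^ 2 * g y) = ζ z ^ 8 * ∫ y, w z y ^ 2 * g y := fun z =>
    integral_const_mul _ _
  have e2 : ∀ y : ℂ, ∫ z, ζ z ^ 8 * (w z y ^ 2 * g y) = g y * ∫ z, ζ z ^ 8 * w z y ^ 2 := by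
    intro y
    rw [← integral_const_mul]
    refine integral_congr_ae (Eventually.of_forall fun z => ?_)
    show ζ z ^ 8 * (w z y ^ 2 * g y) = g y * (ζ z ^ 8 * w z y ^ 2)
    ring
  simp only [e1] at h1
  simp only [e2] at h2
  refine ⟨h1, h2, ?_⟩
  have h3 := integral_integral_swap (f := fun z y => ζ z ^ 8 * (w z y ^ 2 * g y)) hI
  simp only [e1, e2] at h3
  exact h3

end YgM

open YgM in
theorem stmtYg (hW : StmtWt) (hc : StmtWc) : StmtYg := by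
  intro ζ hζs hζc hζ0 δ hδ
  obtain ⟨hw1, C₁, hC₁, hw2⟩ := hW δ hδ
  obtain ⟨L, hL⟩ := hζs.lipschitzWith_of_hasCompactSupport hζc (by simp)
  have hζ := hζs.continuous
  refine ⟨(C₁ + 1) ^ 2 * (2 ^ 7 * C₁) * (1 + (L : ℝ) ^ 8), by positivity, ?_⟩
  intro ρ hρ hρc hρ0 h hh hh1 f hf
  set g : ℂ → ℝ := fun y => ρ y ^ 2 * f y ^ 2 with hgdef
  have hg : Continuous g := (hρ.pow 2).mul (hf.pow 2)
  have hgc : HasCompactSupport g := by
    refine hρc.mono' (fun y hy => subset_tsupport _ ?_)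
    intro h0
    exact hy (by simp only [hgdef, h0]; norm_num)
  have hg0 : ∀ y, 0 ≤ g y := fun y => by simp only [hgdef]; positivity
  have hg3 : Continuous fun y => g y ^ 3 := hg.pow 3
  have hg3c : HasCompactSupport fun y => g y ^ 3 := by
    refine hgc.mono' (fun y hy => subset_tsupport _ ?_)
    intro h0
    exact hy (by simp only [h0]; norm_num)
  have hwc : ∀ z, Continuous (ww δ h z) := fun z => (hw1 h z hh).1.continuous
  obtain ⟨s1, s2, s3⟩ := swap hζ hζc hg3 hg3c (cont_ww δ h)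
  -- pointwise bound of the cube
  have hA : ∀ z, WW ρ δ h f z ^ 3 ≤ ((h ^ 2)⁻¹ * (C₁ + 1) ^ 2) * ∫ y, ww δ h z y ^ 2 * g y ^ 3 := by
    intro z
    have h1 := cube (w := ww δ h z) (hw2 h z hh).1 (hwc z) hg hgc hg0 (m := (C₁ + 1) * h ^ 2) (by positivity)
      (by
        have := (hw2 h z hh).2.1
        nlinarith [sq_nonneg h])
    have h2 : WW ρ δ h f z = (h ^ 2)⁻¹ * ∫ y, ww δ h z y ^ 2 * g y := by
      unfold WW
      congr 1
      refine integral_congr_ae (Eventually.of_forall fun y => ?_)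
      show ρ y ^ 2 * ww δ h z y ^ 2 * f y ^ 2 = ww δ h z y ^ 2 * (ρ y ^ 2 * f y ^ 2)
      ring
    rw [h2, mul_pow]
    refine (mul_le_mul_of_nonneg_left h1 (by positivity)).trans (le_of_eq ?_)
    have hne : h ≠ 0 := hh.ne'
    field_simp
  have hB : ∀ y, ∫ z, ζ z ^ 8 * ww δ h z y ^ 2 ≤ 2 ^ 7 * (ζ y ^ 8 * (C₁ * h ^ 2) + (L : ℝ) ^ 8 * (C₁ * h ^ 10)) := by
    intro y
    have e : (fun z => ζ z ^ 8 * ww δ h z y ^ 2) = fun z => ζ z ^ 8 * ww δ h y z ^ 2 := by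
      funext z
      rw [((hw1 h z hh).2 y).2.2.1]
    rw [e]
    obtain ⟨i1, i2, i3, i4⟩ := hw2 h y hh
    exact inner hL hζc hζ0 hζ (hwc y) i1 i3 i2 i4
  have hz8 : HasCompactSupport fun y => ζ y ^ 8 := by
    refine hζc.mono' (fun y hy => subset_tsupport _ ?_)
    intro h0
    exact hy (by simp only [h0]; norm_num)
  have hr2 : HasCompactSupport fun y => ρ y ^ 2 := by
    refine hρc.mono' (fun y hy => subset_tsupport _ ?_)
    intro h0
    exact hy (by simp only [h0]; norm_num)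
  have I1 : Integrable fun y => ζ y ^ 8 * f y ^ 6 :=
    ((hζ.pow 8).mul (hf.pow 6)).integrable_of_hasCompactSupport hz8.mul_right
  have I2 : Integrable fun y => ρ y ^ 2 * f y ^ 6 :=
    ((hρ.pow 2).mul (hf.pow 6)).integrable_of_hasCompactSupport hr2.mul_right
  have hgle : ∀ y, g y ^ 3 ≤ f y ^ 6 ∧ g y ^ 3 ≤ ρ y ^ 2 * f y ^ 6 := by
    intro y
    obtain ⟨r0, r1⟩ := hρ0 y
    have e : g y ^ 3 = ρ y ^ 6 * f y ^ 6 := by simp only [hgdef]; ring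
    have r6 : ρ y ^ 6 ≤ ρ y ^ 2 := pow_le_pow_of_le_one r0 r1 (by norm_num)
    have r61 : ρ y ^ 6 ≤ 1 := pow_le_one₀ r0 r1
    have f6 : 0 ≤ f y ^ 6 := by positivity
    rw [e]
    constructor
    · nlinarith
    · exact mul_le_mul_of_nonneg_right r6 f6
  have hWc := hc δ h hδ hh ρ f hρ hρc hf
  have hlhs : Integrable fun z => ζ z ^ 8 * WW ρ δ h f z ^ 3 :=
    ((hζ.pow 8).mul (hWc.1.pow 3)).integrable_of_hasCompactSupport hz8.mul_right
  calc ∫ z, ζ z ^ 8 * WW ρ δ h f z ^ 3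
      ≤ ∫ z, ((h ^ 2)⁻¹ * (C₁ + 1) ^ 2) * (ζ z ^ 8 * ∫ y, ww δ h z y ^ 2 * g y ^ 3) := by
        refine integral_mono hlhs (s1.const_mul _) ?_
        intro z
        have h1 := mul_le_mul_of_nonneg_left (hA z) (show (0 : ℝ) ≤ ζ z ^ 8 by positivity)
        refine h1.trans (le_of_eq ?_)
        ring
    _ = ((h ^ 2)⁻¹ * (C₁ + 1) ^ 2) * ∫ y, g y ^ 3 * ∫ z, ζ z ^ 8 * ww δ h z y ^ 2 := by
        rw [integral_const_mul, s3]
    _ ≤ ((h ^ 2)⁻¹ * (C₁ + 1) ^ 2) * ∫ y, ((2 ^ 7 * (C₁ * h ^ 2)) * (ζ y ^ 8 * f y ^ 6) +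
          (2 ^ 7 * ((L : ℝ) ^ 8 * (C₁ * h ^ 10))) * (ρ y ^ 2 * f y ^ 6)) := by
        refine mul_le_mul_of_nonneg_left ?_ (by positivity)
        refine integral_mono s2 ((I1.const_mul _).add (I2.const_mul _)) ?_
        intro y
        have h1 := mul_le_mul_of_nonneg_left (hB y) (show (0 : ℝ) ≤ g y ^ 3 by have := hg0 y; positivity)
        refine h1.trans ?_
        obtain ⟨g1, g2⟩ := hgle y
        have c1 : 0 ≤ 2 ^ 7 * (C₁ * h ^ 2) * ζ y ^ 8 := by positivity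
        have c2 : 0 ≤ 2 ^ 7 * ((L : ℝ) ^ 8 * (C₁ * h ^ 10)) := by positivity
        have k1 := mul_le_mul_of_nonneg_left g1 c1
        have k2 := mul_le_mul_of_nonneg_left g2 c2
        have e : g y ^ 3 * (2 ^ 7 * (ζ y ^ 8 * (C₁ * h ^ 2) + (L : ℝ) ^ 8 * (C₁ * h ^ 10))) =
            2 ^ 7 * (C₁ * h ^ 2) * ζ y ^ 8 * g y ^ 3 + 2 ^ 7 * ((L : ℝ) ^ 8 * (C₁ * h ^ 10)) * g y ^ 3 := by
          ring
        rw [e]
        refine (add_le_add k1 k2).trans (le_of_eq ?_)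
        ring
    _ = (C₁ + 1) ^ 2 * (2 ^ 7 * C₁) * ((∫ z, ζ z ^ 8 * f z ^ 6) +
          (L : ℝ) ^ 8 * (h ^ 8 * ∫ z, ρ z ^ 2 * f z ^ 6)) := by
        rw [integral_add (I1.const_mul _) (I2.const_mul _), integral_const_mul, integral_const_mul]
        have hne : h ≠ 0 := hh.ne'
        field_simp
    _ ≤ (C₁ + 1) ^ 2 * (2 ^ 7 * C₁) * (1 + (L : ℝ) ^ 8) *
          ((∫ z, ζ z ^ 8 * f z ^ 6) + h ^ 8 * ∫ z, ρ z ^ 2 * f z ^ 6) := by
        have n1 : 0 ≤ ∫ z, ζ z ^ 8 * f z ^ 6 := integral_nonneg fun z => by positivity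
        have n2 : 0 ≤ ∫ z, ρ z ^ 2 * f z ^ 6 := integral_nonneg fun z => by positivity
        have n3 : 0 ≤ h ^ 8 * ∫ z, ρ z ^ 2 * f z ^ 6 := mul_nonneg (by positivity) n2
        have n4 : (0 : ℝ) ≤ (L : ℝ) ^ 8 := by positivity
        rw [mul_assoc ((C₁ + 1) ^ 2 * (2 ^ 7 * C₁))]
        refine mul_le_mul_of_nonneg_left ?_ (by positivity)
        nlinarith [mul_nonneg n4 n1]

end

end Pool.Agent.A54.B6
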