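import Pool.Agent.Lib.MP_a54f13_nt.Dyn.Main
import Pool.Agent.Lib.MP_a54f13_nt.B6.Wt
import Pool.Agent.Lib.MP_a54f13_nt.B6.Sb
import Pool.Agent.Lib.MP_a54f13_nt.B6.Os
import Pool.Agent.Lib.MP_a54f13_nt.B6.Pt
import Pool.Agent.Lib.MP_a54f13_nt.B6.Wc
import Pool.Agent.Lib.MP_a54f13_nt.B6.Yg
import Pool.Agent.Lib.MP_a54f13_nt.B6.Lb
import Pool.Agent.Lib.MP_a54f13_nt.B6.Lr
import Pool.Agent.Lib.MP_a54f13_nt.B6.Bw
import Pool.Agent.Lib.MP_a54f13_nt.B6.Ns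
import Pool.Agent.Lib.MP_a54f13_nt.B6.Ib
import Pool.Agent.Lib.MP_a54f13_nt.B6.Gr
import Pool.Agent.Lib.MP_a54f13_nt.B6.Lc
import Pool.Agent.Lib.MP_a54f13_nt.B6.Mo
import Pool.Agent.Lib.MP_a54f13_nt.B6.Bn
import Pool.Agent.Lib.MP_a54f13_nt.B6.Lo
import Pool.Agent.Lib.MP_a54f13_nt.B6.Ap
import Pool.Agent.Lib.MP_a54f13_nt.B6.Lk
import Pool.Agent.Lib.MP_a54f13_nt.B6.Hk
import Pool.Agent.Lib.MP_a54f13_nt.B6.Xk

/-!
Assembly of package `B6`.
-/

set_option autoImplicit false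

namespace Pool.Agent.A54.B6

open MeasureTheory Filter Topology Set
open scoped ContDiff ComplexConjugate UpperHalfPlane MatrixGroups

theorem pOs : StmtOs := stmtOs stmtErr (stmtCacc stmtErr)

theorem pPt : StmtPt := stmtPt stmtErr (stmtCacc stmtErr) stmtWt stmtSb pOs

theorem pYg : StmtYg := stmtYg stmtWt stmtWc

theorem pLr : StmtLr := stmtLr stmtErr

theorem pBw : StmtBw := stmtBw pPt stmtWc pYg

theorem pNs : StmtNs := stmtNs pPt stmtWc pBw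

theorem pIb : StmtIb := stmtIb pNs pLr

theorem pGr : StmtGr := stmtGr pPt stmtWc pBw stmtLb

theorem pMo : StmtMo := stmtMo pNs

theorem pBn : StmtBn := stmtBn pGr pIb stmtLc

theorem pLo : StmtLo := stmtLo pBn pMo

theorem pAp : StmtAp := stmtAp pLo

theorem pLk : StmtLk := stmtLk pAp

theorem pHk : StmtHk := stmtHk stmtInt stmtLap

variable {f : ℕ → ℍ → ℝ} {t : ℕ → ℝ}

/-- lower bounds for all even moments, for every sequence of Hecke–Maass forms -/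
theorem finalK (hf : ∀ i, IsHeckeMaass (f i) (t i)) (ht : Tendsto t atTop atTop) : FinalK f :=
  stmtXk f t hf (pHk pLk Dyn.pRatioS Dyn.pNAf f t ⟨hf, ht⟩)

end Pool.Agent.A54.B6
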