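import Pool.Agent.Lib.MP_a54f13_nt.B6.Spec

/-!
# Package `B6`: bounds for `sm` along sequences (`StmtNs`)
-/

set_option autoImplicit false

namespace Pool.Agent.A54.B6

open MeasureTheory Filter Topology Set
open scoped ContDiff ComplexConjugate UpperHalfPlane MatrixGroups

noncomputable section

namespace NsM

lemma cube_le {x : ℝ} (hx : 0 ≤ x) : (1 + x) ^ 3 ≤ 4 * (1 + x ^ 3) := by
  nlinarith [mul_nonneg (by linarith : (0 : ℝ) ≤ 1 + x) (sq_nonneg (x - 1))]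

/-- the pointwise bound -/
lemma pt {h : ℝ} {f : ℂ → ℝ} {n : ℕ} {z : ℂ} {B e Q q W : ℝ} (hB : 0 ≤ B) (he0 : 0 ≤ e) (he1 : e ≤ 1)
    (hQ : 1 ≤ Q) (hq0 : 0 < q) (hq : q ≤ Q) (hW : 0 ≤ W)
    (H : ∀ j ≤ n, ‖gg h f j z‖ ^ 2 ≤ B * (1 + e) ^ j * q ^ j * W) :
    (1 + sm h f n z ^ 2) ^ 3 ≤ 4 * (1 + (((n : ℝ) + 1) ^ 2 * (B * (2 * Q) ^ n)) ^ 3) * (1 + W ^ 3) := by
  set A : ℝ := ((n : ℝ) + 1) ^ 2 * (B * (2 * Q) ^ n) with hA
  have hA0 : 0 ≤ A := by positivity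
  have h1 : ∀ j ∈ Finset.range (n + 1), ‖gg h f j z‖ ^ 2 ≤ B * (2 * Q) ^ n * W := by
    intro j hj
    have hj' : j ≤ n := Nat.lt_succ_iff.1 (Finset.mem_range.1 hj)
    refine (H j hj').trans (mul_le_mul_of_nonneg_right ?_ hW)
    rw [mul_assoc, ← mul_pow]
    refine mul_le_mul_of_nonneg_left ?_ hB
    calc ((1 + e) * q) ^ j ≤ (2 * Q) ^ j := by
          refine pow_le_pow_left₀ (by positivity) ?_ j
          exact mul_le_mul (by linarith) hq hq0.le (by norm_num)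
      _ ≤ (2 * Q) ^ n := pow_le_pow_right₀ (by linarith) hj'
  have h2 : sm h f n z ^ 2 ≤ A * W := by
    have h3 : sm h f n z ^ 2 ≤ ((Finset.range (n + 1)).card : ℝ) *
        ∑ j ∈ Finset.range (n + 1), ‖gg h f j z‖ ^ 2 := sq_sum_le_card_mul_sum_sq
    rw [Finset.card_range] at h3
    have h4 : ∑ j ∈ Finset.range (n + 1), ‖gg h f j z‖ ^ 2 ≤ (n + 1) • (B * (2 * Q) ^ n * W) := by
      have h5 := Finset.sum_le_card_nsmul _ _ _ h1
      rwa [Finset.card_range] at h5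
    rw [nsmul_eq_mul] at h4
    calc _ ≤ _ := h3
      _ ≤ ((n + 1 : ℕ) : ℝ) * (((n + 1 : ℕ) : ℝ) * (B * (2 * Q) ^ n * W)) :=
          mul_le_mul_of_nonneg_left h4 (by positivity)
      _ = A * W := by
          rw [hA]
          push_cast
          ring
  have hs : 0 ≤ sm h f n z ^ 2 := sq_nonneg _
  calc (1 + sm h f n z ^ 2) ^ 3 ≤ (1 + A * W) ^ 3 := pow_le_pow_left₀ (by linarith) (by linarith) 3
    _ ≤ 4 * (1 + (A * W) ^ 3) := cube_le (mul_nonneg hA0 hW)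
    _ ≤ 4 * (1 + A ^ 3) * (1 + W ^ 3) := by
        have e1 : 0 ≤ A ^ 3 := pow_nonneg hA0 3
        have e2 : 0 ≤ W ^ 3 := pow_nonneg hW 3
        rw [mul_pow]
        nlinarith

end NsM

open NsM in
theorem stmtNs (hP : StmtPt) (hc : StmtWc) (hB : StmtBw) : StmtNs := by
  intro V q h f ζ M hS n
  have hK : IsCompact (tsupport ζ) := hS.tz.cpt
  obtain ⟨c, hc0, hPc⟩ := hP V q hS.seq.pot (tsupport ζ) hK hS.tz.sub
  obtain ⟨δ, hδ, hδ1, hδc⟩ : ∃ δ : ℝ, 0 < δ ∧ δ ≤ 1 / 12 ∧ c * δ ≤ 1 := by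
    refine ⟨min (1 / 12) (1 / (c + 1)), lt_min (by norm_num) (by positivity), min_le_left _ _, ?_⟩
    calc c * min (1 / 12) (1 / (c + 1)) ≤ c * (1 / (c + 1)) :=
          mul_le_mul_of_nonneg_left (min_le_right _ _) hc0
      _ ≤ 1 := by
          rw [mul_one_div, div_le_one (by linarith)]
          linarith
  obtain ⟨B, hB0, hPB⟩ := hPc δ hδ hδ1 hδc
  obtain ⟨ρ, h₀, hρ, hρ1, hh₀, hPt⟩ := hPB n
  obtain ⟨Q, hQ1, hQ⟩ : ∃ Q : ℝ, 1 ≤ Q ∧ ∀ z ∈ tsupport ζ, q z ≤ Q := by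
    obtain ⟨Q, hQ⟩ := hK.bddAbove_image hS.seq.pot.smooth.continuous.continuousOn
    exact ⟨max 1 Q, le_max_left _ _, fun z hz => (hQ ⟨z, hz, rfl⟩).trans (le_max_right _ _)⟩
  obtain ⟨C, hC0, hC⟩ := hB V q h f ζ M hS δ hδ
  obtain ⟨hC1, hC2⟩ := hC ρ hρ hρ1
  set A : ℝ := 4 * (1 + (((n : ℝ) + 1) ^ 2 * (B * (2 * Q) ^ n)) ^ 3) with hA
  have hA0 : 0 ≤ A := by positivity
  have hW := fun i => hc δ (h i) hδ (hS.seq.sol i).hpos ρ (f i) hρ.smooth.continuous hρ.cpt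
    (hS.seq.sol i).smooth.continuous
  have hint : ∀ (m : ℕ) (i : ℕ), m ≠ 0 →
      Integrable (fun z => A * (ζ z ^ m * (1 + WW ρ δ (h i) (f i) z ^ 3))) := by
    intro m i hm
    refine Integrable.const_mul (Continuous.integrable_of_hasCompactSupport ?_ ?_) A
    · exact (hS.tz.smooth.continuous.pow m).mul (continuous_const.add ((hW i).1.pow 3))
    · refine HasCompactSupport.mul_right ?_
      refine hS.tz.cpt.mono fun z hz h0 => hz ?_
      show ζ z ^ m = 0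
      rw [h0, zero_pow hm]
  have hle : ∀ m : ℕ, m ≠ 0 → ∀ᶠ i in atTop, ∫ z, ζ z ^ m * (1 + sm (h i) (f i) n z ^ 2) ^ 3 ≤
      A * ∫ z, ζ z ^ m * (1 + WW ρ δ (h i) (f i) z ^ 3) := by
    intro m hm
    filter_upwards [hS.seq.lim.eventually (Iic_mem_nhds hh₀)] with i hi
    rw [← integral_const_mul]
    refine integral_mono_of_nonneg (Eventually.of_forall fun z => ?_) (hint m i hm)
      (Eventually.of_forall fun z => ?_)
    · show 0 ≤ ζ z ^ m * (1 + sm (h i) (f i) n z ^ 2) ^ 3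
      have := hS.z0 z
      positivity
    · show ζ z ^ m * (1 + sm (h i) (f i) n z ^ 2) ^ 3 ≤ A * (ζ z ^ m * (1 + WW ρ δ (h i) (f i) z ^ 3))
      by_cases hz : z ∈ tsupport ζ
      · have h1 := pt (e := c * δ) hB0 (by positivity) hδc hQ1 (hS.seq.pot.pos z) (hQ z hz)
          ((hW i).2 z).1 (hPt (h i) (f i) (hS.seq.sol i) hi z hz)
        have h2 := mul_le_mul_of_nonneg_left h1 (pow_nonneg (hS.z0 z) m)
        refine h2.trans (le_of_eq ?_)
        rw [← hA]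
        ring
      · have h0 : ζ z = 0 := image_eq_zero_of_notMem_tsupport hz
        rw [h0, zero_pow hm, zero_mul, zero_mul, mul_zero]
  constructor
  · refine ⟨A * C, by positivity, ?_⟩
    filter_upwards [hle 8 (by norm_num), hC1] with i h1 h2
    exact h1.trans (mul_le_mul_of_nonneg_left h2 hA0)
  · have h3 : Tendsto (fun i => A * (h i * ∫ z, ζ z ^ 7 * (1 + WW ρ δ (h i) (f i) z ^ 3))) atTop (𝓝 0) := by
      have := hC2.const_mul A
      rwa [mul_zero] at this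
    refine squeeze_zero' (Eventually.of_forall fun i => ?_) ?_ h3
    · refine mul_nonneg (hS.seq.sol i).hpos.le (integral_nonneg fun z => ?_)
      show 0 ≤ ζ z ^ 7 * (1 + sm (h i) (f i) n z ^ 2) ^ 3
      have := hS.z0 z
      positivity
    · filter_upwards [hle 7 (by norm_num)] with i h1
      calc h i * ∫ z, ζ z ^ 7 * (1 + sm (h i) (f i) n z ^ 2) ^ 3
          ≤ h i * (A * ∫ z, ζ z ^ 7 * (1 + WW ρ δ (h i) (f i) z ^ 3)) :=
            mul_le_mul_of_nonneg_left h1 (hS.seq.sol i).hpos.le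
        _ = A * (h i * ∫ z, ζ z ^ 7 * (1 + WW ρ δ (h i) (f i) z ^ 3)) := by ring

end

end Pool.Agent.A54.B6
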