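import Pool.Agent.Lib.MP_a54f13_nt.Dyn.Spec3
import Pool.Agent.Lib.MP_a54f13_nt.Rel
import Pool.Agent.Lib.MP_a54f13_nt.L4
import Pool.Agent.Lib.MP_a54f13_nt.LocGen

/-!
# Package `B6`: Bernstein's inequality for cubic expressions of a solution; the sixth moment

GOAL (helper9). For all sequences of Hecke–Maass forms, all `ψ ≥ 0` in `C_c^∞(X)`, all `k ≥ 2`:
`liminf ((∫ ψ)^{k-1} ∫ ψ f^{2k} - 3 (10/3)^{k-2} (∫ ψ f²)^k) ≥ 0`  (`n = 6`: `10` in place of `9`).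

IDEA. `h² Δ f = - q f`, `g_n = (h ∂)^n f`, `N_n = |g_n|²/q^n`, `ζ ≥ 0` a test function, weight `ζ⁸`,
`u = a f + b f³` (`uu`), `v_n = (h ∂)^n u` (`it`), `A_n = ∫ ζ⁸ |v_n|²/q^n` (`AA`).
(1) `A_{n+1}² ≤ A_n A_{n+2} + o(1)` (two integrations by parts, `StmtIb`);
(2) `A_N ≤ K s^N` for every `s > 9`, with `K` independent of `N` (`StmtGr`), because
    `|g_n(z)|² ≤ B (1 + c δ)^n q(z)^n W(z)`, `W(z) = h⁻² ∫ ρ² ww² f²` (`StmtPt`), Leibniz' rule (sum of the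
    coefficients `3^n`, `StmtLb`) and `∫ ζ⁸ W³ ≤ C (∫ ζ⁸ f⁶ + h⁸ ∫ ρ² f⁶)` (`StmtYg`);
(3) hence `A_1 ≤ 9 A_0 + o(1)` (`StmtBn`, elementary lemma `StmtLc`);
(4) `∫ ζ⁸ f^{2j} |g_1|²/q = (1/(2j+1)) ∫ ζ⁸ f^{2j+2} + o(1)`, `j = 0, 1, 2` (`StmtMo`), so (3) reads
    `8 a² m_2 + 16 a b m_4 + (36/5) b² m_6 ≥ -o(1)`, i.e. `m_2 m_6 ≥ (10/9) m_4² - o(1)` (`StmtLo`).

Conventions: every module is `Pool/Agent/Lib/MP_a54f13_nt/B6/<Name>.lean`, imports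
`Pool.Agent.Lib.MP_a54f13_nt.B6.Spec` (more library files if useful), helper lemmas in
`namespace Pool.Agent.A54.B6.<Name>M`, final theorem `Pool.Agent.A54.B6.stmt<Name>`, from the hypotheses
named in the task. Library: `Calc.lean` (`integral_mul_dz`, `integral_mul_dzb`, `dz_mul`, `dz_conj`,
`exists_cutoff`, `norm_dz_le`, `norm_fderiv_le`, ...), `L4.lean` (`wt`, `WC`, `cacc_all`, `exists_dom`,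
`int_dom`, `fderiv_gg`, `gg_le_sm`), `Cacc.lean` (`one_step`: model for `StmtOs`), `Rel.lean`,
`LocGen.lean` (`Seq.sub`, `cs`). `StmtErr`, `StmtCacc` are proved (`stmtErr`, `stmtCacc`).
-/

set_option autoImplicit false

namespace Pool.Agent.A54.B6

open MeasureTheory Filter Topology Set
open scoped ContDiff ComplexConjugate UpperHalfPlane MatrixGroups

noncomputable section

/-! ### Definitions -/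

/-- slowly varying weight: `ww δ h z y = (1 + δ² |z - y|² / h²)^(-6)` -/
def ww (δ h : ℝ) (z y : ℂ) : ℝ := L4.wt (h / δ) z y ^ 3

/-- local mean of `f²` at the scale `h / δ` -/
def WW (ρ : ℂ → ℝ) (δ h : ℝ) (f : ℂ → ℝ) (z : ℂ) : ℝ :=
  (h ^ 2)⁻¹ * ∫ y, ρ y ^ 2 * ww δ h z y ^ 2 * f y ^ 2

/-- `(h ∂)^n u` -/
def it (h : ℝ) (u : ℂ → ℂ) : ℕ → ℂ → ℂ
  | 0 => u
  | n + 1 => fun z => (h : ℂ) * dz (it h u n) z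

/-- `u = a f + b f³` -/
def uu (a b : ℝ) (f : ℂ → ℝ) (z : ℂ) : ℂ := ((a * f z + b * f z ^ 3 : ℝ) : ℂ)

/-- `A_n = ∫ ζ⁸ |v_n|² / q^n` -/
def AA (a b : ℝ) (ζ q : ℂ → ℝ) (h : ℝ) (f : ℂ → ℝ) (n : ℕ) : ℝ :=
  ∫ z, ζ z ^ 8 * (‖it h (uu a b f) n z‖ ^ 2 / q z ^ n)

/-- the hypotheses for one test function -/
structure SB (V : Set ℂ) (q : ℂ → ℝ) (h : ℕ → ℝ) (f : ℕ → ℂ → ℝ) (ζ : ℂ → ℝ) (M : ℝ) : Prop where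
  seq : Seq V q h f
  l2 : L2Bdd V f
  tz : TestR V ζ
  z0 : ∀ z, 0 ≤ ζ z
  bd : ∀ i, ∫ z, ζ z ^ 8 * f i z ^ 6 ≤ M

/-! ### One solution -/

/-- **Wt** properties of the weight. From `L4.lean`: `w1 y = ((1+‖y‖²)²)⁻¹ ≤ 1`,
`wt h x0 z = w1 (h⁻¹ • (x0 - z))`, `contDiff_wt`, `fderiv_wt` (`h ‖D wt‖ ≤ 4 wt`, so with `h/δ` in place of
`h` and the third power the constant is `12 δ`), `wt_pos`; symmetry: `‖z - y‖ = ‖y - z‖`. Integrals: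
`∫ ww² = (h/δ)² ∫ w1⁶` (translation and scaling; `integrable_w1_pow`, see `integral_conv`,
`integral_scale` or the like in `L4.lean`), and `‖y‖⁸ w1⁶ ≤ w1⁴` because `‖y‖⁸ ≤ (1+‖y‖²)⁴ = w1⁻²`, so
`∫ ‖z-y‖⁸ ww² ≤ (h/δ)^{10} ∫ w1⁴`. -/
def StmtWt : Prop := ∀ δ : ℝ, 0 < δ →
  (∀ (h : ℝ) (z : ℂ), 0 < h → ContDiff ℝ ∞ (ww δ h z) ∧ ∀ y, 0 < ww δ h z y ∧ ww δ h z y ≤ 1 ∧
    ww δ h z y = ww δ h y z ∧ h * ‖fderiv ℝ (ww δ h z) y‖ ≤ 12 * δ * ww δ h z y ∧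
    (‖z - y‖ ≤ h → (((1 + δ ^ 2) ^ 2)⁻¹) ^ 3 ≤ ww δ h z y)) ∧
  ∃ C : ℝ, 0 ≤ C ∧ ∀ (h : ℝ) (z : ℂ), 0 < h →
    Integrable (fun y => ww δ h z y ^ 2) ∧ (∫ y, ww δ h z y ^ 2) ≤ C * h ^ 2 ∧
    Integrable (fun y => ‖z - y‖ ^ 8 * ww δ h z y ^ 2) ∧
    (∫ y, ‖z - y‖ ^ 8 * ww δ h z y ^ 2) ≤ C * h ^ 10

/-- **Sb** Sobolev's inequality. Proof. Let `b` be a fixed smooth function, `b = 1` near `0`, supported in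
the closed unit ball, `u(y) = b((y - z)/r) g(y)`. By the fundamental theorem twice
`|u(z)| ≤ ∫_{|Re(y-z)| ≤ r, |Im(y-z)| ≤ r} |∂_x ∂_y u| ≤ 2r ‖∂_x∂_y u‖_2` (`∂_x g = fderiv g · 1`,
`∂_y g = fderiv g · I`), and for compactly supported smooth `u`
`2 ∫ |∂_x∂_y u|² ≤ ∫ |Δu|²`, since `∫ |∂_x∂_y u|² = Re ∫ ∂_x∂_x u conj(∂_y∂_y u)` (integrate by parts
twice) and `Δ u = ∂_x² u + ∂_y² u`. Here `Δ u = dzb (dz u)`. (Equivalently: `∂_x∂_y = (dzb² - dz²)/(4 i)` and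
`∫ |dz² u|² = ∫ |dzb dz u|² = ∫ |dzb² u|²`, by `integral_mul_dz`, `integral_mul_dzb`, `dz_dzb_comm`.) Finally
`Δu = b_r Δg + (dz b_r) (dzb g) + (dzb b_r) (dz g) + (dzb dz b_r) g` with `|dz b_r| ≤ C/r`,
`|dzb dz b_r| ≤ C/r²`, and `u = 0` outside `closedBall z r`. -/
def StmtSb : Prop := ∃ C : ℝ, 0 ≤ C ∧ ∀ g : ℂ → ℂ, ContDiff ℝ ∞ g → ∀ (z : ℂ) (r : ℝ), 0 < r →
  ‖g z‖ ^ 2 ≤ C * (r ^ 2)⁻¹ * ∫ y in Metric.closedBall z r,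
    (‖g y‖ ^ 2 + r ^ 2 * (‖dz g y‖ ^ 2 + ‖dzb g y‖ ^ 2) + r ^ 4 * ‖dzb (dz g) y‖ ^ 2)

/-- **Os** growth of weighted `L²` norms, subexponential in `n`. Proof. `X_n = ∫ ζ² w² |g_n|²/q^n`.
One step (model: `Cacc.one_step`, which integrates by parts in the same way):
`X_{n+1} = ∫ (ζ² w² q^{-(n+1)}) conj(g_{n+1}) (h ∂g_n)
 = - ∫ ζ² w² q^{-(n+1)} conj(h ∂̄g_{n+1}) g_n - h ∫ ∂(ζ² w² q^{-(n+1)}) conj(g_{n+1}) g_n`, where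
`h ∂̄g_{n+1} = - q g_n + E`, `|E| ≤ h C ∑_{j<n} |g_j|` (`StmtErr`), so the main term is `X_n`. In
`h ∂(ζ² w² q^{-(n+1)})` the part with `∂w` is at most `4 δ ζ² w² q^{-(n+1)}`
(`‖dz w‖ ≤ 2 ‖fderiv w‖`), and `4 δ ζ² w² q^{-(n+1)} |g_{n+1}| |g_n| ≤ c₁ δ (ζ² w² N_{n+1} + ζ² w² N_n)` with
`c₁ = 2 / √(min q)` (minimum over `tsupport ζ`); everything else is `≤ h C χ² w² ∑_{j ≤ n+1} |g_j|²` with a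
cutoff `χ`, whose integral is `≤ h C' ∫ ζ'² w² f²` (`L4.cacc_all`, as `δ ≤ 1`; `ζ'` can be replaced by a
cutoff function times a constant). So `(1 - c₁ δ) X_{n+1} ≤ (1 + c₁ δ) X_n + h C' ∫ ζ'² w² f²`; with
`c = 4 c₁` and `c δ ≤ 1`: `(1 + x)/(1 - x) ≤ 1 + 4x`, `x = c₁ δ ≤ 1/4`. Induct on `n` (the constants `C`,
`ζ'` depend on `n`, `c` does not; `(1 + c δ) ≤ 2`). -/
def StmtOs : Prop := ∀ (V : Set ℂ) (q : ℂ → ℝ), Pot V q → ∀ ζ : ℂ → ℝ, TestR V ζ →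
  ∃ c : ℝ, 0 ≤ c ∧ ∀ n : ℕ, ∃ (ζ' : ℂ → ℝ) (C : ℝ), TestR V ζ' ∧ (∀ z, 0 ≤ ζ' z ∧ ζ' z ≤ 1) ∧ 0 ≤ C ∧
    ∀ (δ h : ℝ) (f w : ℂ → ℝ), 0 < δ → δ ≤ 1 → c * δ ≤ 1 → Sol V q h f → ContDiff ℝ ∞ w →
      (∀ z, 0 < w z) → (∀ z, h * ‖fderiv ℝ w z‖ ≤ δ * w z) →
      ∫ z, ζ z ^ 2 * w z ^ 2 * (‖gg h f n z‖ ^ 2 / q z ^ n) ≤
        (1 + c * δ) ^ n * (∫ z, ζ z ^ 2 * w z ^ 2 * f z ^ 2) +
          h * C * ∫ z, ζ' z ^ 2 * w z ^ 2 * f z ^ 2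

/-- **Pt** pointwise bound. Proof. Let `ζ` be a cutoff equal to one on a closed `d`-neighbourhood of `K`
(compact in `V`, `0 < d ≤ 1`), `q₀ ≤ q ≤ Q`, `L` a Lipschitz constant of `q` there, `c₀` the constant of
`StmtOs` for `ζ`, `c = 12 c₀`. For `h ≤ d`, `z ∈ K` apply `StmtSb` with `r = h`, `g = g_n`. On
`closedBall z h`: `h ∂g_n = g_{n+1}`; `h² ∂̄∂g_n = h ∂̄g_{n+1} = -q g_n + E` (`StmtErr`);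
`|h ∂̄g_n| = |g_1|` for `n = 0` (`g_0` is real), `≤ q |g_{n-1}| + |E|` for `n ≥ 1`. So
`|g_n(z)|² ≤ C h⁻² ∫_{closedBall z h} (|g_{n-1}|² + |g_n|² + |g_{n+1}|² + h C_n ∑_{j ≤ n} |g_j|²)` with `C`
depending on `q₀, Q` only. There `|g_m(y)|² = q(y)^m N_m(y)`, `q(y) ≤ q(z)(1 + L h/q₀)` and
`(1 + L h/q₀)^{n+1} ≤ 2` for `h ≤ h₀(N)`, so `|g_m(y)|² ≤ C q(z)^n N_m(y)` for `m = n-1, n, n+1`. Also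
`1 ≤ ((1+δ²)²)^6 ζ(y)² ww(y)²` there (`StmtWt`). By `StmtOs` with the weight `ww δ h z` and `12 δ ≤ 1` in
place of `δ`: `∫ ζ² ww² N_m ≤ (1 + c δ)^{m} ∫ ζ² ww² f² + h C_m ∫ ζ'² ww² f²`, and
`L4.cacc_all` bounds `∫ ζ² ww² |g_j|²`. With `h₀ C_m' ≤ 1` everything is
`≤ B (1 + c δ)^n q(z)^n h⁻² ∫ ρ² ww² f²`, `ρ` a cutoff equal to one on the supports of `ζ` and of all
`ζ'` (`m ≤ N + 1`). -/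
def StmtPt : Prop := ∀ (V : Set ℂ) (q : ℂ → ℝ), Pot V q → ∀ K : Set ℂ, IsCompact K → K ⊆ V →
  ∃ c : ℝ, 0 ≤ c ∧ ∀ δ : ℝ, 0 < δ → δ ≤ 1 / 12 → c * δ ≤ 1 → ∃ B : ℝ, 0 ≤ B ∧ ∀ N : ℕ,
    ∃ (ρ : ℂ → ℝ) (h₀ : ℝ), TestR V ρ ∧ (∀ z, 0 ≤ ρ z ∧ ρ z ≤ 1) ∧ 0 < h₀ ∧
      ∀ (h : ℝ) (f : ℂ → ℝ), Sol V q h f → h ≤ h₀ → ∀ z ∈ K, ∀ n ≤ N,
        ‖gg h f n z‖ ^ 2 ≤ B * (1 + c * δ) ^ n * q z ^ n * WW ρ δ h f z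

/-- **Wc** continuity, positivity and crude bound. (`continuous_parametric_integral_of_continuous` or
dominated convergence; `ww ≤ 1`.) -/
def StmtWc : Prop := ∀ (δ h : ℝ), 0 < δ → 0 < h → ∀ (ρ f : ℂ → ℝ), Continuous ρ → HasCompactSupport ρ →
  Continuous f → Continuous (WW ρ δ h f) ∧
    ∀ z, 0 ≤ WW ρ δ h f z ∧ WW ρ δ h f z ≤ (h ^ 2)⁻¹ * ∫ y, ρ y ^ 2 * f y ^ 2

/-- **Yg** Proof. Hölder's inequality for the measure `ww(y)² dy`: `(∫ ρ² ww² f²)³ ≤ (∫ ww²)² ∫ ρ⁶ ww² f⁶`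
(e.g. Cauchy–Schwarz twice, or `inner_le_Lp_mul_Lq`), so `W³ ≤ C² h⁻² ∫ ρ² ww² f⁶` (`StmtWt`; `ρ⁶ ≤ ρ²`).
Fubini, and `ζ(z)⁸ ≤ 2⁷ (ζ(y)⁸ + L⁸ ‖z-y‖⁸)` (`L` a Lipschitz constant of `ζ`):
`∫ ζ(z)⁸ ww(z,y)² dz ≤ 2⁷ (ζ(y)⁸ C h² + L⁸ C h^{10})` by symmetry of the weight. -/
def StmtYg : Prop := ∀ ζ : ℂ → ℝ, ContDiff ℝ ∞ ζ → HasCompactSupport ζ → (∀ z, 0 ≤ ζ z) →
  ∀ δ : ℝ, 0 < δ → ∃ C : ℝ, 0 ≤ C ∧ ∀ ρ : ℂ → ℝ, Continuous ρ → HasCompactSupport ρ →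
    (∀ z, 0 ≤ ρ z ∧ ρ z ≤ 1) → ∀ h : ℝ, 0 < h → h ≤ 1 → ∀ f : ℂ → ℝ, Continuous f →
      ∫ z, ζ z ^ 8 * WW ρ δ h f z ^ 3 ≤ C * ((∫ z, ζ z ^ 8 * f z ^ 6) + h ^ 8 * ∫ z, ρ z ^ 2 * f z ^ 6)

/-! ### Leibniz' rule -/

/-- **Lb** Proof. `it h (uu a b f) n z = a g_n + b ∑_{k ≤ n} ∑_{j ≤ k} C(n,k) C(k,j) g_j g_{k-j} g_{n-k}`
(Leibniz' rule for `h ∂`, `dz_mul`, by induction for a product of two functions, used twice; `it h (↑f) n =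
gg h f n`). Each product has norm `≤ (B³ Q^n W³)^{1/2}`, the sum of the coefficients is `3^n`, and
`|x + y|² ≤ 2|x|² + 2|y|²`. -/
def StmtLb : Prop := ∀ (a b h B Q W : ℝ) (f : ℂ → ℝ) (n : ℕ) (z : ℂ), ContDiff ℝ ∞ f → 0 ≤ B → 0 ≤ Q →
  0 ≤ W → (∀ j ≤ n, ‖gg h f j z‖ ^ 2 ≤ B * Q ^ j * W) →
  ‖it h (uu a b f) n z‖ ^ 2 ≤ 2 * a ^ 2 * (B * Q ^ n * W) + 2 * b ^ 2 * (9 ^ n * (B ^ 3 * Q ^ n * W ^ 3))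

/-- **Lr** rough bound, with derivatives. Proof. The formula of `Lb`, the product rule, and
`L4.fderiv_gg` (`h ‖D g_n‖ ≤ C sm_{n+1}` on compact sets), `gg_le_sm`; `h ≤ 1`. -/
def StmtLr : Prop := ∀ (V : Set ℂ) (q : ℂ → ℝ), Pot V q → ∀ K : Set ℂ, IsCompact K → K ⊆ V →
  ∀ (a b : ℝ) (n : ℕ), ∃ C : ℝ, 0 ≤ C ∧ ∀ (h : ℝ) (f : ℂ → ℝ), Sol V q h f → ∀ z ∈ K,
    (‖it h (uu a b f) n z‖ + h * ‖fderiv ℝ (it h (uu a b f) n) z‖) ^ 2 ≤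
      C * (1 + sm h f (n + 1) z ^ 2) ^ 3

/-! ### Sequences -/

/-- **Bw** bounds for the local means. Proof. `K = tsupport ζ`, `W = WW ρ δ (h i) (f i)`. (i) Crude bound:
by `StmtPt` (with `n = N = 0`, some fixed `δ'`, `ρ'`, on the compact set `tsupport ρ`) and `StmtWc`,
`f_i² ≤ C h_i⁻²` on `tsupport ρ` for large `i` (`L2Bdd` bounds `∫ ρ'² f²`), so `h⁸ ∫ ρ² f⁶ ≤ C h²`. By
`StmtYg`, `∫ ζ⁸ W³ ≤ C_Y (M + 1)` for large `i`, with `C_Y` independent of `ρ`. Take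
`C = ∫ ζ⁸ + C_Y (M + 1)` (`M` may be negative, use `|M|`).
(ii) `h ζ⁷ ≤ η ζ⁸ + η⁻⁷ h⁸` for every `η > 0` (if `h ≤ η ζ` clear; otherwise `ζ < h/η`), and `W ≤ C h⁻²`
everywhere (`StmtWc`, `L2Bdd`), so `h ∫ ζ⁷ (1 + W³) ≤ η C + η⁻⁷ h⁸ ∫_K (1 + C³ h⁻⁶)`, upper limit `≤ η C`. -/
def StmtBw : Prop := ∀ (V : Set ℂ) (q : ℂ → ℝ) (h : ℕ → ℝ) (f : ℕ → ℂ → ℝ) (ζ : ℂ → ℝ) (M : ℝ),
  SB V q h f ζ M → ∀ δ : ℝ, 0 < δ → ∃ C : ℝ, 0 ≤ C ∧ ∀ ρ : ℂ → ℝ, TestR V ρ →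
    (∀ z, 0 ≤ ρ z ∧ ρ z ≤ 1) →
    (∀ᶠ i in atTop, ∫ z, ζ z ^ 8 * (1 + WW ρ δ (h i) (f i) z ^ 3) ≤ C) ∧
    Tendsto (fun i => h i * ∫ z, ζ z ^ 7 * (1 + WW ρ δ (h i) (f i) z ^ 3)) atTop (𝓝 0)

/-- **Ns** the same for `sm`. Proof. `StmtPt` on `K = tsupport ζ` with one admissible `δ` and `N = n`:
`sm_n² ≤ (n+1) ∑ |g_j|² ≤ C W` on `K` for small `h`, `(1 + C W)³ ≤ C' (1 + W³)`, then `StmtBw`. -/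
def StmtNs : Prop := ∀ (V : Set ℂ) (q : ℂ → ℝ) (h : ℕ → ℝ) (f : ℕ → ℂ → ℝ) (ζ : ℂ → ℝ) (M : ℝ),
  SB V q h f ζ M → ∀ n : ℕ,
    (∃ C : ℝ, 0 ≤ C ∧ ∀ᶠ i in atTop, ∫ z, ζ z ^ 8 * (1 + sm (h i) (f i) n z ^ 2) ^ 3 ≤ C) ∧
    Tendsto (fun i => h i * ∫ z, ζ z ^ 7 * (1 + sm (h i) (f i) n z ^ 2) ^ 3) atTop (𝓝 0)

/-- **Ib** log-convexity. Write `v = it (h i) (uu a b (f i))`, `v_n = v n`, `ψ_n = ζ⁸/q^n` (smooth, compact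
support). Proof. From `StmtNs`, `StmtLr`: `h ∫ ζ⁷ (|v_m| + h |Dv_m|)² → 0` and
`∫ ζ⁸ (|v_m| + h |Dv_m|)²` is eventually bounded, for each `m`; `|dz ψ_m| + |dzb ψ_m| ≤ C ζ⁷`.
(i) `A_{n+1} = ∫ ψ_{n+1} conj(v_{n+1}) (h ∂v_n) = - ∫ ψ_{n+1} conj(h ∂̄v_{n+1}) v_n
- h ∫ (∂ψ_{n+1}) conj(v_{n+1}) v_n`; the last term tends to zero; by Cauchy–Schwarz
(`ψ_{n+1}² = ψ_n ψ_{n+2}`) the first one is at most `(∫ ψ_{n+2} |h ∂̄v_{n+1}|²)^{1/2} A_n^{1/2}`.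
(ii) `∫ ψ |h ∂̄v|² - ∫ ψ |h ∂v|² → 0` for `ψ = ψ_{n+2}`, `v = v_{n+1}`:
`∫ ψ (h∂v) conj(h∂v) = - ∫ ψ (h²∂̄∂v) conj v - h ∫ (∂̄ψ) (h∂v) conj v`,
`∫ ψ (h∂̄v) conj(h∂̄v) = - ∫ ψ (h²∂∂̄v) conj v - h ∫ (∂ψ) (h∂̄v) conj v`, `dz_dzb_comm`; and
`∫ ψ_{n+2} |h ∂v_{n+1}|² = A_{n+2}`. So `A_{n+1} ≤ (A_{n+2} + o(1))^{1/2} A_n^{1/2} + o(1)` with bounded
`A`'s. -/
def StmtIb : Prop := ∀ (V : Set ℂ) (q : ℂ → ℝ) (h : ℕ → ℝ) (f : ℕ → ℂ → ℝ) (ζ : ℂ → ℝ) (M : ℝ),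
  SB V q h f ζ M → ∀ (a b : ℝ) (n : ℕ) (η : ℝ), 0 < η → ∀ᶠ i in atTop,
    AA a b ζ q (h i) (f i) (n + 1) ^ 2 ≤
      AA a b ζ q (h i) (f i) n * AA a b ζ q (h i) (f i) (n + 2) + η

/-- **Gr** growth. Proof. `K₀ = tsupport ζ`, `c` from `StmtPt`; choose `δ ≤ 1/12`, `c δ ≤ 1`,
`9 (1 + c δ)³ ≤ s`. With `B` of `StmtPt` and, for given `N`, its `ρ`, `h₀`: for large `i`, on `K₀`, for
`j ≤ N`, `|g_j|² ≤ B (1 + c δ)^N q^j W`; `StmtLb` with `B (1 + c δ)^N` in place of `B` gives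
`|v_N|²/q^N ≤ (2 a² + 2 b²) (1 + B)³ 9^N (1 + c δ)^{3N} (1 + W³)` (`W ≤ 1 + W³`); `StmtBw` bounds
`∫ ζ⁸ (1 + W³)` by a constant independent of `N`. -/
def StmtGr : Prop := ∀ (V : Set ℂ) (q : ℂ → ℝ) (h : ℕ → ℝ) (f : ℕ → ℂ → ℝ) (ζ : ℂ → ℝ) (M : ℝ),
  SB V q h f ζ M → ∀ (a b s : ℝ), 9 < s → ∃ K : ℝ, 0 ≤ K ∧ ∀ N : ℕ, ∀ᶠ i in atTop,
    AA a b ζ q (h i) (f i) N ≤ K * s ^ N

/-- **Lc** elementary. Proof. `t = (r+s)/2 ∈ (s, r)`; choose `N ≥ 1` with `t^{N-1} e > K s^N`, then `η > 0`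
with `η < e²` and `r (1 - η/e²)^N ≥ t`. Suppose `A 1 > r A 0 + e`. By induction on `n < N`: `A n > 0`
(for `n = 0`: otherwise `A 1² ≤ η < e²`), `A (n+1) ≥ e` and `A (n+1) ≥ r (1 - η/e²)^n A n ≥ t A n`:
`A (n+2) ≥ (A (n+1)² - η)/A n ≥ A (n+1) (A (n+1)/A n) (1 - η/e²)`. So `A N ≥ t^{N-1} e > K s^N`. -/
def StmtLc : Prop := ∀ r s K e : ℝ, 1 ≤ s → s < r → 0 ≤ K → 0 < e → ∃ (N : ℕ) (η : ℝ), 0 < η ∧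
  ∀ A : ℕ → ℝ, (∀ n, 0 ≤ A n) → (∀ n < N, A (n + 1) ^ 2 ≤ A n * A (n + 2) + η) → A N ≤ K * s ^ N →
    A 1 ≤ r * A 0 + e

/-- **Mo** moment identities. Proof. `ψ = ζ⁸/q`, `g_1 = h ∂f`, `conj g_1 = h ∂̄f` (`f` real):
`∫ ψ f^{2j} |g_1|² = ∫ ψ f^{2j} g_1 (h ∂̄f) = (2j+1)⁻¹ ∫ ψ g_1 h ∂̄(f^{2j+1})
= - (2j+1)⁻¹ ∫ ψ (h ∂̄g_1) f^{2j+1} - (2j+1)⁻¹ h ∫ (∂̄ψ) g_1 f^{2j+1}`, `h ∂̄g_1 = - q f` on `V`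
(`Sol.eq`), and `|∂̄ψ| |g_1| |f|^{2j+1} ≤ C ζ⁷ (1 + sm_1²)³` for `j ≤ 2` (`StmtNs` with `n = 1`). -/
def StmtMo : Prop := ∀ (V : Set ℂ) (q : ℂ → ℝ) (h : ℕ → ℝ) (f : ℕ → ℂ → ℝ) (ζ : ℂ → ℝ) (M : ℝ),
  SB V q h f ζ M → ∀ j : ℕ, j ≤ 2 →
    Tendsto (fun i => (∫ z, ζ z ^ 8 * (f i z ^ (2 * j) * (‖gg (h i) (f i) 1 z‖ ^ 2 / q z))) -
      1 / (2 * (j : ℝ) + 1) * ∫ z, ζ z ^ 8 * f i z ^ (2 * j + 2)) atTop (𝓝 0)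

/-- **Bn** Bernstein's inequality. Proof. `it h (uu a b f) 1 z = (a + 3 b f²) g_1`, so the left side is `A_1`,
and the integral on the right is `A_0`. `A_0` is eventually bounded (`StmtGr`, `N = 0`) by some `D`. Let
`r = 9 + η/(2 (D + 1))`, `s = (9 + r)/2`, `e = η/2`, `K` from `StmtGr`, `N, η'` from `StmtLc`; `StmtIb` for
`n < N` with `η'`. -/
def StmtBn : Prop := ∀ (V : Set ℂ) (q : ℂ → ℝ) (h : ℕ → ℝ) (f : ℕ → ℂ → ℝ) (ζ : ℂ → ℝ) (M : ℝ),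
  SB V q h f ζ M → ∀ (a b η : ℝ), 0 < η → ∀ᶠ i in atTop,
    ∫ z, ζ z ^ 8 * ((a + 3 * b * f i z ^ 2) ^ 2 * (‖gg (h i) (f i) 1 z‖ ^ 2 / q z)) ≤
      9 * (∫ z, ζ z ^ 8 * (a * f i z + b * f i z ^ 3) ^ 2) + η

/-! ### The local theorems -/

/-- **Lo** Proof. If not, there is a subsequence along which `∫ ζ⁸ f⁶ ≤ M` and the inequality fails; it
satisfies `SB` (`Seq.sub`), and along a further subsequence `∫ ζ⁸ f^{2j} → m_{2j}`, `j = 1, 2, 3` (bounded: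
`L2Bdd`, `M`, and `2 f⁴ ≤ f² + f⁶`). Expanding `StmtBn` and using `StmtMo`:
`a² m_2 + 2 a b m_4 + (9/5) b² m_6 ≤ 9 (a² m_2 + 2 a b m_4 + b² m_6)` for all real `a, b`
(the middle terms: `6 a b · (1/3) m_4`), i.e. `8 m_2 a² + 16 m_4 a b + (36/5) m_6 b² ≥ 0`, so
`64 m_4² ≤ 8 (36/5) m_2 m_6`, `(10/9) m_4² ≤ m_2 m_6`, against `(10/9) m_4² - ε ≥ m_2 m_6`. -/
def StmtLo : Prop := ∀ (V : Set ℂ) (q : ℂ → ℝ) (h : ℕ → ℝ) (f : ℕ → ℂ → ℝ), Seq V q h f → L2Bdd V f →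
  ∀ ζ : ℂ → ℝ, TestR V ζ → (∀ z, 0 ≤ ζ z) → ∀ M ε : ℝ, 0 < ε → ∀ᶠ i in atTop,
    ∫ z, ζ z ^ 8 * f i z ^ 6 ≤ M →
      10 / 9 * (∫ z, ζ z ^ 8 * f i z ^ 4) ^ 2 - ε ≤
        (∫ z, ζ z ^ 8 * f i z ^ 2) * ∫ z, ζ z ^ 8 * f i z ^ 6

/-- **Ap** general weights. Proof. For `κ > 0` let `ζ = (φ + κ)^{1/8} - κ^{1/8}` (`Real.rpow`; smooth because
`φ + κ > 0`; `tsupport ζ ⊆ tsupport φ`), `0 ≤ ζ`, `ζ⁸ ≤ φ`, `φ - ζ⁸ ≤ 8 φ^{7/8} κ^{1/8} ≤ C κ^{1/8}`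
(`φ^{1/8} - ζ ≤ κ^{1/8}`, `x⁸ - y⁸ ≤ 8 x⁷ (x - y)` for `0 ≤ y ≤ x`), and `φ - ζ⁸ = 0` off `tsupport φ`. If
`∫ φ f⁶ ≤ M` then `∫ ζ⁸ f⁶ ≤ M` and, for every `η > 0`,
`∫ (φ - ζ⁸) f⁴ ≤ η ∫ φ f⁶ + η⁻¹ ∫ (φ - ζ⁸) f² ≤ η M + η⁻¹ C κ^{1/8} ∫_{tsupport φ} f²` (bounded by `L2Bdd`
with a cutoff), which is small if first `η` and then `κ` are small; `∫ φ f⁴` is bounded (`f⁴ ≤ f² + f⁶`).
`StmtLo` for `ζ`; monotonicity for `f²`, `f⁶`. -/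
def StmtAp : Prop := ∀ (V : Set ℂ) (q : ℂ → ℝ) (h : ℕ → ℝ) (f : ℕ → ℂ → ℝ), Seq V q h f → L2Bdd V f →
  ∀ φ : ℂ → ℝ, TestR V φ → (∀ z, 0 ≤ φ z) → ∀ M ε : ℝ, 0 < ε → ∀ᶠ i in atTop,
    ∫ z, φ z * f i z ^ 6 ≤ M →
      10 / 9 * (∫ z, φ z * f i z ^ 4) ^ 2 - ε ≤ (∫ z, φ z * f i z ^ 2) * ∫ z, φ z * f i z ^ 6

/-- the sharp bound for the fourth moment, for one sequence (conclusion of `Dyn.StmtRatioS`) -/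
def R4 (V : Set ℂ) (f : ℕ → ℂ → ℝ) : Prop := ∀ φ : ℂ → ℝ, TestR V φ → (∀ z, 0 ≤ φ z) →
  ∀ ε : ℝ, 0 < ε → ∀ᶠ i in atTop,
    3 * (∫ z, φ z * f i z ^ 2) ^ 2 - ε ≤ (∫ z, φ z) * ∫ z, φ z * f i z ^ 4

/-- **Lk** all even moments. Proof. `A = ∫ φ`; if `A = 0` then `φ = 0`. `k = 2`: `R4`. Let `k = j + 3`,
`m_l = ∫ φ f^l`, `m_2 ≤ S` (`L2Bdd`). If the inequality fails for `i`, then `m_{2k} ≤ C` (so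
`m_6 ≤ A + m_{2k} ≤ M`, as `x⁶ ≤ 1 + x^{2k}`) and `m_2^k ≥ ε/C'`, `m_2 ≥ c₁ > 0`. By `StmtAp`, `R4` for
large `i`: `m_6 ≥ ((10/9) m_4² - ε₁)/m_2`, `m_4 ≥ (3 m_2² - ε₁)/A`. Tangent line inequality (`X3M.tang` in
`Dyn/X3.lean`): `x^{j+1} ≥ (j+1) r^j x - j r^{j+1}`, `x = f²`, `r = (10/3) m_2/A`, multiplied by `φ f⁴`:
`m_{2k} ≥ (j+1) r^j m_6 - j r^{j+1} m_4 ≥ (j+1) r^j (10/9) m_4²/m_2 - j r^{j+1} m_4 - C ε₁`. The right side is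
increasing in `m_4 ≥ 3 m_2²/A` (derivative `≥ r^j (m_2/A) ((20/3)(j+1) - (10/3) j) > 0`), and equals
`10 (10/3)^j m_2^k/A^{k-1} - C ε₁` at `m_4 = 3 m_2²/A`; note `3 (10/3)^{k-2} = 10 (10/3)^j`. Contradiction
for small `ε₁`. -/
def StmtLk : Prop := ∀ (V : Set ℂ) (q : ℂ → ℝ) (h : ℕ → ℝ) (f : ℕ → ℂ → ℝ), Seq V q h f → L2Bdd V f →
  R4 V f → ∀ φ : ℂ → ℝ, TestR V φ → (∀ z, 0 ≤ φ z) → ∀ k : ℕ, 2 ≤ k → ∀ ε : ℝ, 0 < ε →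
    ∀ᶠ i in atTop, 3 * (10 / 3) ^ (k - 2) * (∫ z, φ z * f i z ^ 2) ^ k - ε ≤
      (∫ z, φ z) ^ (k - 1) * ∫ z, φ z * f i z ^ (2 * k)

/-! ### The half-plane and the modular surface -/

/-- even moments against test functions with support in the open fundamental domain -/
def HalfK (f : ℕ → ℍ → ℝ) : Prop :=
  ∀ φ : ℂ → ℝ, TestR Ofd φ → (∀ z, 0 ≤ φ z) → ∀ k : ℕ, 2 ≤ k → ∀ ε : ℝ, 0 < ε → ∀ᶠ i in atTop,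
    3 * (10 / 3) ^ (k - 2) * (∫ z : ℍ, φ z * f i z ^ 2) ^ k - ε ≤
      (∫ z : ℍ, φ z) ^ (k - 1) * ∫ z : ℍ, φ z * f i z ^ (2 * k)

/-- even moments on the modular surface -/
def FinalK (f : ℕ → ℍ → ℝ) : Prop :=
  ∀ ψ : ℍ → ℝ, TestX ψ → (∀ z, 0 ≤ ψ z) → ∀ k : ℕ, 2 ≤ k → ∀ ε : ℝ, 0 < ε → ∀ᶠ i in atTop,
    3 * (10 / 3) ^ (k - 2) * (∫ z in ModularGroup.fdo, ψ z * f i z ^ 2) ^ k - ε ≤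
      (∫ z in ModularGroup.fdo, ψ z) ^ (k - 1) *
        ∫ z in ModularGroup.fdo, ψ z * f i z ^ (2 * k)

/-- **Hk** model: `Dyn/Half3.lean`, first part: `R4` for the local sequence is `StmtRatioS` applied with
`Half2.seq`, `Half2.l2`, `Half3M.naloc`. -/
def StmtHk : Prop := StmtLk → Dyn.StmtRatioS → Dyn.StmtNAf → ∀ (f : ℕ → ℍ → ℝ) (t : ℕ → ℝ),
  Dyn.HM f t → HalfK f

/-- **Xk** model: `X3M.ratio` in `Dyn/X3.lean` (with `f^{2k}` in place of `f⁴`: if the inequality fails for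
`i` then `∫ ψ f^{2k}` is bounded, and `f² ≤ η f^{2k} + C_η`, so the strip `1 - χ` contributes little to
`∫ ψ f²`). -/
def StmtXk : Prop := ∀ (f : ℕ → ℍ → ℝ) (t : ℕ → ℝ), (∀ i, IsHeckeMaass (f i) (t i)) →
  HalfK f → FinalK f

end

end Pool.Agent.A54.B6
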